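import Mathlib

/-!
# MP_305fdd_al, surface groups, block F: the Cartier operator of a polynomial ring over `F_2`

`car` is the additive map of `F_2[x_s : s ∈ σ]` which sends `x ^ (2 e + 1)` to `x ^ e` and all other
monomials to `0`.
-/

set_option autoImplicit false

namespace Pool.Agent.SuF

open MvPolynomial

section basic

variable {σ : Type}

/-- the exponents divided by two -/
noncomputable def half (e : σ →₀ ℕ) : σ →₀ ℕ := e.mapRange (fun n => n / 2) (by simp)

@[simp] theorem half_apply (e : σ →₀ ℕ) (s : σ) : half e s = e s / 2 := by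
  simp [half]

open Classical in
/-- the Cartier operator of the polynomial ring over `F_2` -/
noncomputable def car : MvPolynomial σ (ZMod 2) →ₗ[ZMod 2] MvPolynomial σ (ZMod 2) :=
  (MvPolynomial.basisMonomials σ (ZMod 2)).constr (ZMod 2)
    (fun e => if ∀ s, Odd (e s) then monomial (half e) 1 else 0)

open Classical in
theorem car_mono (e : σ →₀ ℕ) :
    car (monomial e (1 : ZMod 2)) = if ∀ s, Odd (e s) then monomial (half e) 1 else 0 := by
  have h : (monomial e (1 : ZMod 2)) = MvPolynomial.basisMonomials σ (ZMod 2) e := by simp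
  rw [h, car, Module.Basis.constr_basis]

theorem zmod2_cases (a : ZMod 2) : a = 0 ∨ a = 1 := by
  revert a
  decide

/-- induction over the monomials with coefficient one -/
theorem mono_ind {P : MvPolynomial σ (ZMod 2) → Prop} (h0 : P 0)
    (hadd : ∀ f g, P f → P g → P (f + g)) (hm : ∀ e : σ →₀ ℕ, P (monomial e 1))
    (f : MvPolynomial σ (ZMod 2)) : P f := by
  induction f using MvPolynomial.induction_on' with
  | monomial e a =>
    rcases zmod2_cases a with rfl | rfl
    · rw [monomial_zero]; exact h0
    · exact hm e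
  | add f g h1 h2 => exact hadd _ _ h1 h2

/-- `car (f ^ 2 * g) = f * car g` -/
theorem car_sq_mul (f g : MvPolynomial σ (ZMod 2)) : car (f ^ 2 * g) = f * car g := by
  classical
  induction f using mono_ind with
  | h0 => simp
  | hadd f f' h h' =>
    have : (f + f') ^ 2 = f ^ 2 + f' ^ 2 := CharTwo.add_sq f f'
    rw [this, add_mul, map_add, h, h', add_mul]
  | hm e =>
    induction g using mono_ind with
    | h0 => simp
    | hadd g g' h h' => rw [mul_add, map_add, h, h', map_add, mul_add]
    | hm d =>
      rw [monomial_pow, one_pow, monomial_mul, one_mul, car_mono, car_mono]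
      have h1 : (∀ s, Odd ((2 • e + d) s)) ↔ ∀ s, Odd (d s) := by
        refine forall_congr' fun s => ?_
        rw [Finsupp.add_apply, Finsupp.smul_apply, smul_eq_mul, Nat.odd_iff, Nat.odd_iff]
        omega
      by_cases h2 : ∀ s, Odd (d s)
      · rw [if_pos (h1.2 h2), if_pos h2, monomial_mul, one_mul]
        congr 2
        ext s
        simp only [half_apply, Finsupp.add_apply, Finsupp.smul_apply, smul_eq_mul]
        omega
      · rw [if_neg (fun h => h2 (h1.1 h)), if_neg h2, mul_zero]

end basic

section fin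

variable {σ τ : Type} [Fintype σ] [Fintype τ]

open Classical in
theorem mono_sq (e : σ →₀ ℕ) :
    (monomial e (1 : ZMod 2)) = (monomial (half e) 1) ^ 2 * ∏ s ∈ Finset.univ.filter
      (fun s => Odd (e s)), X s := by
  rw [monomial_pow, one_pow]
  have h : (∏ s ∈ Finset.univ.filter (fun s => Odd (e s)), (X s : MvPolynomial σ (ZMod 2))) =
      monomial (∑ s ∈ Finset.univ.filter (fun s => Odd (e s)), Finsupp.single s 1) 1 := by
    rw [monomial_sum_one]
    rfl
  rw [h, monomial_mul, one_mul]
  congr 2
  ext s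
  rw [Finsupp.add_apply, Finsupp.smul_apply, half_apply, Finset.sum_apply']
  simp only [Finsupp.single_apply, smul_eq_mul]
  rw [Finset.sum_ite_eq' (Finset.univ.filter fun s => Odd (e s)) s]
  simp only [Finset.mem_filter, Finset.mem_univ, true_and]
  split_ifs with h2
  · obtain ⟨k, hk⟩ := h2
    omega
  · rw [Nat.not_odd_iff_even] at h2
    obtain ⟨k, hk⟩ := h2
    omega

/-- induction over the squares times the square free monomials -/
theorem sq_ind {P : MvPolynomial σ (ZMod 2) → Prop} (h0 : P 0)
    (hadd : ∀ f g, P f → P g → P (f + g))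
    (hsq : ∀ (h : MvPolynomial σ (ZMod 2)) (S : Finset σ), P (h ^ 2 * ∏ s ∈ S, X s))
    (f : MvPolynomial σ (ZMod 2)) : P f := by
  classical
  induction f using mono_ind with
  | h0 => exact h0
  | hadd f g h1 h2 => exact hadd _ _ h1 h2
  | hm e => rw [mono_sq]; exact hsq _ _

open Classical in
theorem car_sqf (S : Finset σ) :
    car (∏ s ∈ S, (X s : MvPolynomial σ (ZMod 2))) = if S = Finset.univ then 1 else 0 := by
  have h : (∏ s ∈ S, (X s : MvPolynomial σ (ZMod 2))) =
      monomial (∑ s ∈ S, Finsupp.single s 1) 1 := by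
    rw [monomial_sum_one]
    rfl
  have h2 : ∀ s, (∑ s ∈ S, Finsupp.single s 1 : σ →₀ ℕ) s = if s ∈ S then 1 else 0 := by
    intro s
    rw [Finset.sum_apply']
    simp only [Finsupp.single_apply]
    rw [Finset.sum_ite_eq' S s]
  rw [h, car_mono]
  by_cases hS : S = Finset.univ
  · subst hS
    rw [if_pos rfl, if_pos]
    · rw [show half (∑ s ∈ (Finset.univ : Finset σ), Finsupp.single s 1 : σ →₀ ℕ) = 0 by
        ext s
        rw [half_apply, h2]
        simp]
      rfl
    · intro s
      rw [h2]
      simp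
  · rw [if_neg hS, if_neg]
    intro h3
    apply hS
    ext s
    have h4 := h3 s
    rw [h2] at h4
    by_contra h5
    have h6 : s ∉ S := fun h7 => h5 (by simp [h7])
    rw [if_neg h6] at h4
    exact absurd h4 (by decide)

/-- two `p⁻¹`-linear maps which agree on the square free monomials are equal -/
theorem ext_sq {M : Type} [AddCommGroup M] {Φ Ψ : MvPolynomial σ (ZMod 2) → M}
    (ha : ∀ f g, Φ (f + g) = Φ f + Φ g) (hb : ∀ f g, Ψ (f + g) = Ψ f + Ψ g)
    (act : MvPolynomial σ (ZMod 2) → M → M)
    (hΦ : ∀ h f, Φ (h ^ 2 * f) = act h (Φ f)) (hΨ : ∀ h f, Ψ (h ^ 2 * f) = act h (Ψ f))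
    (h : ∀ S : Finset σ, Φ (∏ s ∈ S, X s) = Ψ (∏ s ∈ S, X s)) (f : MvPolynomial σ (ZMod 2)) :
    Φ f = Ψ f := by
  induction f using sq_ind with
  | h0 =>
    have h1 := ha 0 0
    have h2 := hb 0 0
    rw [add_zero] at h1 h2
    rw [left_eq_add.1 h1, left_eq_add.1 h2]
  | hadd f g h1 h2 => rw [ha, hb, h1, h2]
  | hsq g S => rw [hΦ, hΨ, h]

end fin

end Pool.Agent.SuF
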