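import Pool.Agent.Lib.MP_305fdd_al.Su.F.Car

/-!
# MP_305fdd_al, surface groups, block F: complete intersections and divergence free derivations
-/

set_option autoImplicit false
set_option linter.unusedSectionVars false

namespace Pool.Agent.SuF

open MvPolynomial

section der

variable {A : Type} [CommRing A] [Algebra (ZMod 2) A]

theorem two_zero (A : Type) [CommRing A] [Algebra (ZMod 2) A] : (2 : A) = 0 := by
  have h : algebraMap (ZMod 2) A 2 = 2 := map_ofNat _ 2
  rw [← h, show (2 : ZMod 2) = 0 from rfl, map_zero]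

/-- a derivation commutes with the multiplication by a square -/
theorem der_sq (D : Derivation (ZMod 2) A A) (h f : A) : D (h ^ 2 * f) = h ^ 2 * D f := by
  rw [D.leibniz, D.leibniz_pow]
  simp only [smul_eq_mul, nsmul_eq_mul, Nat.cast_ofNat, two_zero A]
  ring

end der

section fin

variable {σ : Type} [Fintype σ]

theorem pderiv_sqf_of_notMem (a : σ) (S : Finset σ) (h : a ∉ S) :
    pderiv a (∏ s ∈ S, (X s : MvPolynomial σ (ZMod 2))) = 0 := by
  classical
  induction S using Finset.induction_on with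
  | empty => rw [Finset.prod_empty]; exact pderiv_one
  | insert b S hb ih =>
    have hab : b ≠ a := by
      rintro rfl
      exact h (Finset.mem_insert_self _ _)
    rw [Finset.prod_insert hb, pderiv_mul, ih (fun h' => h (Finset.mem_insert_of_mem h')),
      pderiv_X_of_ne hab, zero_mul, mul_zero, add_zero]

/-- `car` kills the partial derivatives -/
theorem car_pderiv (a : σ) (f : MvPolynomial σ (ZMod 2)) : car (pderiv a f) = 0 := by
  classical
  refine ext_sq (Φ := fun f => car (pderiv a f)) (Ψ := fun _ => 0) ?_ ?_ (fun h m => h * m)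
    ?_ ?_ ?_ f
  · intro f g
    rw [map_add, map_add]
  · intro f g
    rw [add_zero]
  · intro h f
    rw [der_sq, car_sq_mul]
  · intro h f
    rw [mul_zero]
  · intro S
    by_cases ha : a ∈ S
    · rw [← Finset.mul_prod_erase S _ ha, pderiv_mul, pderiv_X_self, one_mul,
        pderiv_sqf_of_notMem a _ (Finset.notMem_erase a S), mul_zero, add_zero, car_sqf, if_neg]
      intro h
      have := Finset.mem_univ a
      rw [← h] at this
      exact Finset.notMem_erase a S this
    · rw [pderiv_sqf_of_notMem a S ha, map_zero]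

theorem sum_der_apply {α : Type} (S : Finset α)
    (D : α → Derivation (ZMod 2) (MvPolynomial σ (ZMod 2)) (MvPolynomial σ (ZMod 2)))
    (f : MvPolynomial σ (ZMod 2)) : (∑ s ∈ S, D s) f = ∑ s ∈ S, D s f := by
  classical
  induction S using Finset.induction_on with
  | empty => simp
  | insert b S hb ih => rw [Finset.sum_insert hb, Finset.sum_insert hb, Derivation.add_apply, ih]

theorem der_eq_sum (D : Derivation (ZMod 2) (MvPolynomial σ (ZMod 2)) (MvPolynomial σ (ZMod 2)))
    (f : MvPolynomial σ (ZMod 2)) : D f = ∑ s, D (X s) * pderiv s f := by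
  classical
  have h : D = ∑ s, (D (X s)) • (pderiv s : Derivation (ZMod 2) (MvPolynomial σ (ZMod 2)) _) := by
    refine MvPolynomial.derivation_ext fun i => ?_
    rw [sum_der_apply]
    simp only [Derivation.coe_smul, Pi.smul_apply, smul_eq_mul]
    rw [Finset.sum_eq_single i]
    · rw [pderiv_X_self, mul_one]
    · intro b _ hb
      rw [pderiv_X_of_ne hb.symm, mul_zero]
    · intro hi
      exact absurd (Finset.mem_univ i) hi
  conv_lhs => rw [h]
  rw [sum_der_apply]
  rfl

/-- the divergence of a derivation -/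
noncomputable def dvg
    (D : Derivation (ZMod 2) (MvPolynomial σ (ZMod 2)) (MvPolynomial σ (ZMod 2))) :
    MvPolynomial σ (ZMod 2) := ∑ s, pderiv s (D (X s))

theorem car_der (D : Derivation (ZMod 2) (MvPolynomial σ (ZMod 2)) (MvPolynomial σ (ZMod 2)))
    (f : MvPolynomial σ (ZMod 2)) : car (D f) = car (f * dvg D) := by
  rw [der_eq_sum, dvg, Finset.mul_sum, map_sum, map_sum]
  refine Finset.sum_congr rfl fun s _ => ?_
  have h := car_pderiv s (D (X s) * f)
  rw [pderiv_mul, map_add] at h
  have h2 : car (D (X s) * pderiv s f) = - car (pderiv s (D (X s)) * f) := by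
    linear_combination h
  rw [h2, mul_comm f, CharTwo.neg_eq]

end fin

/-! ## Complete intersections -/

section ci

variable {σ : Type} {ι : Type}

/-- the ideal generated by the equations `r i` -/
noncomputable def idl (r : ι → MvPolynomial σ (ZMod 2)) : Ideal (MvPolynomial σ (ZMod 2)) :=
  Ideal.span (Set.range r)

theorem mem_idl (r : ι → MvPolynomial σ (ZMod 2)) (i : ι) : r i ∈ idl r :=
  Ideal.subset_span ⟨i, rfl⟩

theorem idl_induction (r : ι → MvPolynomial σ (ZMod 2)) {P : MvPolynomial σ (ZMod 2) → Prop}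
    (h0 : P 0) (ha : ∀ f g, P f → P g → P (f + g)) (hm : ∀ c i, P (c * r i))
    {u : MvPolynomial σ (ZMod 2)} (hu : u ∈ idl r) : P u := by
  have h1 := hu
  rw [idl] at h1
  have h : ∀ c, P (c * u) := by
    refine Submodule.span_induction (p := fun u _ => ∀ c, P (c * u)) ?_ ?_ ?_ ?_ h1
    · rintro x ⟨i, rfl⟩ c
      exact hm c i
    · intro c
      rw [mul_zero]
      exact h0
    · intro x y _ _ hx hy c
      rw [mul_add]
      exact ha _ _ (hx c) (hy c)
    · intro a x _ hx c
      rw [smul_eq_mul, ← mul_assoc]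
      exact hx _
  have h2 := h 1
  rwa [one_mul] at h2

theorem car_sq_mem (r : ι → MvPolynomial σ (ZMod 2)) (i : ι) (f : MvPolynomial σ (ZMod 2)) :
    car (f * r i ^ 2) ∈ idl r := by
  rw [mul_comm, car_sq_mul]
  exact Ideal.mul_mem_right _ _ (mem_idl r i)

/-- the ring of functions of a complete intersection -/
abbrev CI (r : ι → MvPolynomial σ (ZMod 2)) : Type := MvPolynomial σ (ZMod 2) ⧸ idl r

theorem car_mem [Fintype ι] (r : ι → MvPolynomial σ (ZMod 2)) {u : MvPolynomial σ (ZMod 2)}
    (hu : u ∈ idl r) : car (u * ∏ i, r i) ∈ idl r := by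
  classical
  refine idl_induction r (P := fun u => car (u * ∏ i, r i) ∈ idl r) ?_ ?_ ?_ hu
  · rw [zero_mul, map_zero]; exact zero_mem _
  · intro f g hf hg
    rw [add_mul, map_add]; exact add_mem hf hg
  · intro c i
    rw [← Finset.mul_prod_erase Finset.univ _ (Finset.mem_univ i)]
    have : c * r i * (r i * ∏ x ∈ Finset.univ.erase i, r x) =
        (c * ∏ x ∈ Finset.univ.erase i, r x) * r i ^ 2 := by ring
    rw [this]
    exact car_sq_mem r i _

/-- the Cartier operator of a complete intersection (Fedder) -/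
noncomputable def fed [Fintype ι] (r : ι → MvPolynomial σ (ZMod 2)) : CI r →+ CI r :=
  QuotientAddGroup.map _ _ ((car : MvPolynomial σ (ZMod 2) →ₗ[ZMod 2] _).toAddMonoidHom.comp
    (AddMonoidHom.mulRight (∏ i, r i))) (by
      intro u hu
      exact car_mem r hu)

theorem fed_mk [Fintype ι] (r : ι → MvPolynomial σ (ZMod 2)) (f : MvPolynomial σ (ZMod 2)) :
    fed r (Ideal.Quotient.mk _ f) = Ideal.Quotient.mk _ (car (f * ∏ i, r i)) := rfl

theorem fed_sq_mul [Fintype ι] (r : ι → MvPolynomial σ (ZMod 2)) (f g : CI r) :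
    fed r (f ^ 2 * g) = f * fed r g := by
  obtain ⟨f, rfl⟩ := Ideal.Quotient.mk_surjective f
  obtain ⟨g, rfl⟩ := Ideal.Quotient.mk_surjective g
  rw [← map_pow, ← map_mul, fed_mk, fed_mk, mul_assoc, car_sq_mul, map_mul]

theorem der_prod {A : Type} [CommRing A] [Algebra (ZMod 2) A] [DecidableEq ι]
    (D : Derivation (ZMod 2) A A) (r : ι → A) (S : Finset ι) :
    D (∏ i ∈ S, r i) = ∑ i ∈ S, (∏ j ∈ S.erase i, r j) * D (r i) := by
  induction S using Finset.induction_on with
  | empty => simp
  | insert b S hb ih =>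
    rw [Finset.prod_insert hb, D.leibniz, ih, Finset.sum_insert hb, Finset.erase_insert hb,
      smul_eq_mul, smul_eq_mul, Finset.mul_sum, add_comm]
    congr 1
    refine Finset.sum_congr rfl fun i hi => ?_
    have hib : b ≠ i := by
      rintro rfl
      exact hb hi
    rw [Finset.erase_insert_of_ne hib, Finset.prod_insert (fun h => hb (Finset.mem_of_mem_erase h)),
      mul_assoc]

/-- a derivation which preserves an ideal acts on the quotient -/
noncomputable def derQ {A : Type} [CommRing A] [Algebra (ZMod 2) A]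
    (D : Derivation (ZMod 2) A A) (J : Ideal A) (hJ : ∀ f ∈ J, D f ∈ J) :
    Derivation (ZMod 2) (A ⧸ J) (A ⧸ J) :=
  Derivation.mk' (Submodule.mapQ (J.restrictScalars (ZMod 2)) (J.restrictScalars (ZMod 2))
      (D : A →ₗ[ZMod 2] A) (fun f hf => hJ f hf) : (A ⧸ J) →ₗ[ZMod 2] (A ⧸ J)) (by
    intro a b
    obtain ⟨a, rfl⟩ := Ideal.Quotient.mk_surjective a
    obtain ⟨b, rfl⟩ := Ideal.Quotient.mk_surjective b
    change (Ideal.Quotient.mk J) (D (a * b)) = Ideal.Quotient.mk J a • Ideal.Quotient.mk J (D b) +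
      Ideal.Quotient.mk J b • Ideal.Quotient.mk J (D a)
    rw [D.leibniz, smul_eq_mul, smul_eq_mul, map_add, map_mul, map_mul]
    rfl)

theorem derQ_mk {A : Type} [CommRing A] [Algebra (ZMod 2) A]
    (D : Derivation (ZMod 2) A A) (J : Ideal A) (hJ : ∀ f ∈ J, D f ∈ J) (f : A) :
    derQ D J hJ (Ideal.Quotient.mk J f) = Ideal.Quotient.mk J (D f) := rfl

theorem der_span {A : Type} [CommRing A] [Algebra (ZMod 2) A] (D : Derivation (ZMod 2) A A)
    (S : Set A) (h : ∀ f ∈ S, D f ∈ Ideal.span S) : ∀ f ∈ Ideal.span S, D f ∈ Ideal.span S := by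
  intro f hf
  refine Submodule.span_induction (p := fun f _ => D f ∈ Ideal.span S) ?_ ?_ ?_ ?_ hf
  · exact h
  · rw [map_zero]; exact zero_mem _
  · intro x y _ _ hx hy
    rw [map_add]; exact add_mem hx hy
  · intro a x hx hDx
    rw [smul_eq_mul, D.leibniz]
    exact add_mem (Ideal.mul_mem_left _ _ hDx) (Ideal.mul_mem_right _ _ hx)

/-! ## General quotients -/

section quo

variable {A : Type} [CommRing A] [Algebra (ZMod 2) A]

/-- the operator induced by `f ↦ C (f u)` on `A / J` -/
noncomputable def quo (C : A →+ A) (J : Ideal A) (u : A) (h : ∀ f ∈ J, C (f * u) ∈ J) :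
    (A ⧸ J) →+ (A ⧸ J) :=
  QuotientAddGroup.map _ _ (C.comp (AddMonoidHom.mulRight u)) (by
      intro f hf
      exact h f hf)

theorem quo_mk (C : A →+ A) (J : Ideal A) (u : A) (h : ∀ f ∈ J, C (f * u) ∈ J) (f : A) :
    quo C J u h (Ideal.Quotient.mk J f) = Ideal.Quotient.mk J (C (f * u)) := rfl

theorem quo_sq_mul (C : A →+ A) (hC : ∀ f g, C (f ^ 2 * g) = f * C g) (J : Ideal A) (u : A)
    (h : ∀ f ∈ J, C (f * u) ∈ J) (f g : A ⧸ J) :
    quo C J u h (f ^ 2 * g) = f * quo C J u h g := by
  obtain ⟨f, rfl⟩ := Ideal.Quotient.mk_surjective f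
  obtain ⟨g, rfl⟩ := Ideal.Quotient.mk_surjective g
  rw [← map_pow, ← map_mul, quo_mk, quo_mk, mul_assoc, hC, map_mul]

/-- `C (f u) ∈ J` if `u` is the product of the generators of `J` -/
theorem quo_mem [Fintype ι] (C : A →+ A) (hC : ∀ f g, C (f ^ 2 * g) = f * C g) (a : ι → A) :
    ∀ f ∈ Ideal.span (Set.range a), C (f * ∏ i, a i) ∈ Ideal.span (Set.range a) := by
  classical
  intro f hf
  have h : ∀ c, C (c * f * ∏ i, a i) ∈ Ideal.span (Set.range a) := by
    refine Submodule.span_induction (p := fun f _ => ∀ c, C (c * f * ∏ i, a i) ∈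
      Ideal.span (Set.range a)) ?_ ?_ ?_ ?_ hf
    · rintro x ⟨i, rfl⟩ c
      rw [← Finset.mul_prod_erase Finset.univ _ (Finset.mem_univ i)]
      have : c * a i * (a i * ∏ x ∈ Finset.univ.erase i, a x) =
          a i ^ 2 * (c * ∏ x ∈ Finset.univ.erase i, a x) := by ring
      rw [this, hC]
      exact Ideal.mul_mem_right _ _ (Ideal.subset_span ⟨i, rfl⟩)
    · intro c
      rw [mul_zero, zero_mul, map_zero]
      exact zero_mem _
    · intro x y _ _ hx hy c
      rw [mul_add, add_mul, map_add]
      exact add_mem (hx c) (hy c)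
    · intro b x _ hx c
      rw [smul_eq_mul, ← mul_assoc]
      exact hx _
  have h1 := h 1
  rwa [one_mul] at h1

/-- If `C ∘ D = 0`, `D aᵢ = ∑ bᵢⱼ aⱼ` and the trace of `b` is in the ideal `J` of the `aᵢ`, then
`C (D f u) ∈ J`, `u = ∏ aᵢ`. -/
theorem quo_der [Fintype ι] (C : A →+ A) (hC : ∀ f g, C (f ^ 2 * g) = f * C g)
    (D : Derivation (ZMod 2) A A) (hD : ∀ f, C (D f) = 0) (a : ι → A) (b : ι → ι → A)
    (hab : ∀ i, D (a i) = ∑ j, b i j * a j) (htr : ∑ i, b i i ∈ Ideal.span (Set.range a)) (f : A) :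
    C (D f * ∏ i, a i) ∈ Ideal.span (Set.range a) := by
  classical
  have h1 : D (f * ∏ i, a i) = D f * ∏ i, a i + f * D (∏ i, a i) := by
    rw [D.leibniz, smul_eq_mul, smul_eq_mul]
    ring
  have h2 : C (D f * ∏ i, a i) = - C (f * D (∏ i, a i)) := by
    have h3 := hD (f * ∏ i, a i)
    rw [h1, map_add] at h3
    exact eq_neg_of_add_eq_zero_left h3
  rw [h2, neg_mem_iff, der_prod]
  have h4 : f * ∑ i, (∏ j ∈ Finset.univ.erase i, a j) * D (a i) =
      (∑ i, ∑ j, if j = i then 0 else f * ((∏ j ∈ Finset.univ.erase i, a j) * (b i j * a j))) +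
      f * (∑ i, b i i) * ∏ i, a i := by
    rw [Finset.mul_sum, Finset.mul_sum, Finset.sum_mul, ← Finset.sum_add_distrib]
    refine Finset.sum_congr rfl fun i _ => ?_
    rw [hab, ← Finset.mul_prod_erase Finset.univ _ (Finset.mem_univ i), Finset.mul_sum,
      Finset.mul_sum, ← Finset.add_sum_erase _ _ (Finset.mem_univ i),
      ← Finset.add_sum_erase (Finset.univ) (fun j => if j = i then 0 else
        f * ((∏ j ∈ Finset.univ.erase i, a j) * (b i j * a j))) (Finset.mem_univ i), if_pos rfl,
        zero_add, add_comm]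
    congr 1
    · refine Finset.sum_congr rfl fun j hj => ?_
      rw [if_neg (Finset.ne_of_mem_erase hj)]
    · ring
  rw [h4, map_add]
  refine add_mem ?_ ?_
  · rw [map_sum]
    refine sum_mem fun i _ => ?_
    rw [map_sum]
    refine sum_mem fun j _ => ?_
    split_ifs with hji
    · rw [map_zero]; exact zero_mem _
    · rw [← Finset.mul_prod_erase (Finset.univ.erase i) _
        (Finset.mem_erase.2 ⟨hji, Finset.mem_univ j⟩)]
      have : f * (a j * (∏ x ∈ (Finset.univ.erase i).erase j, a x) * (b i j * a j)) =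
        a j ^ 2 * (f * (∏ x ∈ (Finset.univ.erase i).erase j, a x) * b i j) := by ring
      rw [this, hC]
      exact Ideal.mul_mem_right _ _ (Ideal.subset_span ⟨j, rfl⟩)
  · exact quo_mem C hC a _ (Ideal.mul_mem_left _ _ htr)

end quo

end ci

end Pool.Agent.SuF
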