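import Pool.Agent.Lib.MP_305fdd_al.Su.F.Tri

/-!
# MP_305fdd_al, surface groups, block F: points of `SL_2 ^ I`, invariants, the Cartier operator
preserves the invariants `k w₁₁`
-/

set_option autoImplicit false
set_option linter.unusedSectionVars false

namespace Pool.Agent.SuF

open MvPolynomial

section pt

variable {I : Type} [Fintype I] {S : Type} [CommRing S] [Algebra (ZMod 2) S]

/-- the point `x` of `SL_2 ^ I` as a homomorphism of the polynomial ring -/
noncomputable def pev (x : I → Matrix (Fin 2) (Fin 2) S) : PR I →ₐ[ZMod 2] S :=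
  aeval fun s => x s.1 s.2.1 s.2.2

theorem pev_X (x : I → Matrix (Fin 2) (Fin 2) S) (i : I) (a b : Fin 2) :
    pev x (X (i, a, b)) = x i a b := by
  rw [pev, aeval_X]

theorem pev_gx (x : I → Matrix (Fin 2) (Fin 2) S) (i : I) : (gx i).map (pev x) = x i := by
  ext a b
  exact pev_X x i a b

theorem pev_gr (x : I → Matrix (Fin 2) (Fin 2) S) (i : I) : pev x (gr i) = (x i).det + 1 := by
  rw [gr, map_add, map_one]
  congr 1
  have h := RingHom.map_det (pev x : PR I →+* S) (gx i)
  have h2 : (gx i).map (pev x : PR I →+* S) = x i := pev_gx x i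
  rw [RingHom.mapMatrix_apply, h2] at h
  exact h

/-- the point `x` of `SL_2 ^ I` -/
noncomputable def ev (x : I → Matrix.SpecialLinearGroup (Fin 2) S) : AR I →+* S :=
  Ideal.Quotient.lift (idl gr) (pev fun i => (x i).1 : PR I →+* S) (by
    intro f hf
    refine idl_induction gr (P := fun f => (pev fun i => (x i).1) f = 0) ?_ ?_ ?_ hf
    · exact map_zero _
    · intro f g h1 h2
      rw [map_add, h1, h2, add_zero]
    · intro c i
      rw [map_mul, pev_gr, (x i).2, addSelf, mul_zero])

theorem ev_mk (x : I → Matrix.SpecialLinearGroup (Fin 2) S) (f : PR I) :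
    ev x (amk f) = pev (fun i => (x i).1) f := rfl

theorem ev_rM (x : I → Matrix.SpecialLinearGroup (Fin 2) S) (w : FreeGroup I) :
    (rM w).map (ev x) = (FreeGroup.lift x w).1 := by
  have h : (Matrix.SpecialLinearGroup.map (ev x)).comp rho = FreeGroup.lift x := by
    ext i a b
    simp only [MonoidHom.coe_comp, Function.comp_apply, FreeGroup.lift_apply_of]
    change ev x (rM (FreeGroup.of i) a b) = _
    rw [rM_of]
    exact pev_X (fun i => (x i).1) i a b
  have h1 := DFunLike.congr_fun h w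
  exact congrArg (fun x : Matrix.SpecialLinearGroup (Fin 2) S => x.1) h1

theorem ev_rM_apply (x : I → Matrix.SpecialLinearGroup (Fin 2) S) (w : FreeGroup I) (a b : Fin 2) :
    ev x (rM w a b) = (FreeGroup.lift x w).1 a b := congrFun (congrFun (ev_rM x w) a) b

/-- two ring homomorphisms from `AR I` which agree on the entries of the generic matrices are
equal -/
theorem AR_hom_ext {f g : AR I →+* S}
    (h : ∀ (i : I) (a b : Fin 2), f (amk (X (i, a, b))) = g (amk (X (i, a, b)))) : f = g := by
  have h1 : f.comp amk = g.comp amk := by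
    have h2 : (MvPolynomial.C : ZMod 2 →+* PR I) = algebraMap (ZMod 2) (PR I) := rfl
    refine MvPolynomial.ringHom_ext (fun r => ?_) fun s => ?_
    · rcases zmod2_cases r with rfl | rfl
      · rw [map_zero, map_zero, map_zero]
      · rw [map_one, map_one, map_one]
    · obtain ⟨i, a, b⟩ := s
      exact h i a b
  refine RingHom.ext fun y => ?_
  obtain ⟨y, rfl⟩ := amk_surj y
  exact RingHom.congr_fun h1 y

theorem ev_comp {S' : Type} [CommRing S'] [Algebra (ZMod 2) S']
    (x : I → Matrix.SpecialLinearGroup (Fin 2) S) (φ : S →+* S') (f : AR I) :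
    φ (ev x f) = ev (fun i => Matrix.SpecialLinearGroup.map φ (x i)) f := by
  refine RingHom.congr_fun (f := φ.comp (ev x)) (AR_hom_ext fun i a b => ?_) f
  rw [RingHom.comp_apply, ev_mk, ev_mk, pev_X, pev_X]
  rfl

/-- the upper elementary matrix -/
def e12 (s : S) : Matrix.SpecialLinearGroup (Fin 2) S :=
  ⟨!![1, s; 0, 1], by rw [Matrix.det_fin_two_of]; ring⟩

/-- the Weyl element (characteristic two) -/
def om (S : Type) [CommRing S] [Algebra (ZMod 2) S] : Matrix.SpecialLinearGroup (Fin 2) S :=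
  ⟨!![0, 1; 1, 0], by rw [Matrix.det_fin_two_of]; linear_combination - two_zero S⟩

/-- `f` is an invariant of `SL_2` -/
structure IsInv (f : AR I) : Prop where
  D : ∀ (S : Type) [CommRing S] [Algebra (ZMod 2) S] (x : I → Matrix.SpecialLinearGroup (Fin 2) S)
    (s : S), ev (fun i => e12 s * x i * (e12 s)⁻¹) f = ev x f
  W : ∀ (S : Type) [CommRing S] [Algebra (ZMod 2) S] (x : I → Matrix.SpecialLinearGroup (Fin 2) S),
    ev (fun i => om S * x i * (om S)⁻¹) f = ev x f

theorem IsInv.one : IsInv (1 : AR I) := ⟨fun S _ _ x s => by rw [map_one, map_one],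
  fun S _ _ x => by rw [map_one, map_one]⟩

theorem IsInv.zero : IsInv (0 : AR I) := ⟨fun S _ _ x s => by rw [map_zero, map_zero],
  fun S _ _ x => by rw [map_zero, map_zero]⟩

theorem IsInv.add {f g : AR I} (hf : IsInv f) (hg : IsInv g) : IsInv (f + g) :=
  ⟨fun S _ _ x s => by rw [map_add, map_add, hf.D, hg.D],
  fun S _ _ x => by rw [map_add, map_add, hf.W, hg.W]⟩

theorem IsInv.mul {f g : AR I} (hf : IsInv f) (hg : IsInv g) : IsInv (f * g) :=
  ⟨fun S _ _ x s => by rw [map_mul, map_mul, hf.D, hg.D],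
  fun S _ _ x => by rw [map_mul, map_mul, hf.W, hg.W]⟩

theorem lift_conj {G : Type} [Group G] (x : I → G) (g : G) (w : FreeGroup I) :
    FreeGroup.lift (fun i => g * x i * g⁻¹) w = g * FreeGroup.lift x w * g⁻¹ := by
  have h : FreeGroup.lift (fun i => g * x i * g⁻¹) =
      (MulAut.conj g).toMonoidHom.comp (FreeGroup.lift x) := by
    ext i
    simp
  rw [h]
  rfl

theorem ev_rT (x : I → Matrix.SpecialLinearGroup (Fin 2) S) (w : FreeGroup I) :
    ev x (rT w) = (FreeGroup.lift x w).1.trace := by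
  rw [rT_eq, map_add, ev_rM_apply, ev_rM_apply, Matrix.trace_fin_two]

theorem ev_rT_conj (x : I → Matrix.SpecialLinearGroup (Fin 2) S)
    (g : Matrix.SpecialLinearGroup (Fin 2) S) (w : FreeGroup I) :
    ev (fun i => g * x i * g⁻¹) (rT w) = ev x (rT w) := by
  rw [ev_rT, ev_rT, lift_conj]
  have h : (g * (FreeGroup.lift x) w * g⁻¹).1 = g.1 * ((FreeGroup.lift x) w).1 * g⁻¹.1 := rfl
  have h2 : g⁻¹.1 * g.1 = 1 := congrArg (fun y : Matrix.SpecialLinearGroup (Fin 2) S => y.1)
    (inv_mul_cancel g)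
  rw [h, Matrix.trace_mul_comm, ← Matrix.mul_assoc, h2, Matrix.one_mul]

theorem isInv_rT (w : FreeGroup I) : IsInv (rT w) :=
  ⟨fun _ _ _ x _ => ev_rT_conj x _ w, fun _ _ _ x => ev_rT_conj x _ w⟩

end pt

end Pool.Agent.SuF
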