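import Pool.Agent.Lib.MP_305fdd_al.Su.F.Gp

/-!
# MP_305fdd_al, surface groups, block F: `CG (k w₁₁)` is an invariant if `k` is an invariant
-/

set_option autoImplicit false
set_option linter.unusedSectionVars false

namespace Pool.Agent.SuF

open MvPolynomial

section gen

variable {I : Type} [Fintype I]

/-- the polynomial ring with one more variable `s` -/
abbrev PS (I : Type) : Type := MvPolynomial (Option (I × Fin 2 × Fin 2)) (ZMod 2)

/-- the inclusion -/
noncomputable def emb : PR I →ₐ[ZMod 2] PS I := rename some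

/-- the variable `s` -/
noncomputable def sv : PS I := X none

theorem emb_X (i : I) (a b : Fin 2) : emb (X (i, a, b)) = (X (some (i, a, b)) : PS I) := by
  rw [emb, rename_X]

theorem emb_prod (T : Finset (I × Fin 2 × Fin 2)) :
    emb (∏ t ∈ T, X t) = (∏ t ∈ T.map Function.Embedding.some, X t : PS I) := by
  rw [map_prod, Finset.prod_map]
  refine Finset.prod_congr rfl fun t _ => ?_
  obtain ⟨i, a, b⟩ := t
  exact emb_X i a b

theorem car_sv_emb (f : PR I) : car (sv * emb f) = emb (car f) := by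
  classical
  refine ext_sq (Φ := fun f => car (sv * emb f)) (Ψ := fun f => emb (car f)) ?_ ?_
    (fun h m => emb h * m) ?_ ?_ ?_ f
  · intro f g
    rw [map_add, mul_add, map_add]
  · intro f g
    rw [map_add, map_add]
  · intro h f
    rw [map_mul (emb : PR I →ₐ[ZMod 2] PS I), map_pow (emb : PR I →ₐ[ZMod 2] PS I), mul_left_comm,
      car_sq_mul]
  · intro h f
    rw [car_sq_mul, map_mul]
  · intro T
    rw [emb_prod]
    have hn : (none : Option (I × Fin 2 × Fin 2)) ∉ T.map Function.Embedding.some := by simp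
    rw [sv, ← Finset.prod_insert hn, car_sqf, car_sqf]
    by_cases hT : T = Finset.univ
    · subst hT
      rw [if_pos rfl, if_pos, map_one]
      ext t
      cases t <;> simp
    · rw [if_neg hT, if_neg, map_zero]
      intro h
      apply hT
      ext t
      have : some t ∈ (insert none (T.map Function.Embedding.some) : Finset _) := by
        rw [h]; exact Finset.mem_univ _
      simpa using this

theorem car_emb (f : PR I) : car (emb f) = 0 := by
  classical
  refine ext_sq (Φ := fun f => car (emb f)) (Ψ := fun _ => 0) ?_ ?_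
    (fun h m => emb h * m) ?_ ?_ ?_ f
  · intro f g
    rw [map_add, map_add]
  · intro f g
    rw [add_zero]
  · intro h f
    rw [map_mul, map_pow, car_sq_mul]
  · intro h f
    rw [mul_zero]
  · intro T
    rw [emb_prod, car_sqf, if_neg]
    intro h
    have : (none : Option (I × Fin 2 × Fin 2)) ∈ T.map Function.Embedding.some := by
      rw [h]; exact Finset.mem_univ _
    simp at this

/-- first set of variables -/
def U1 (I : Type) [Fintype I] [DecidableEq I] : Finset (Option (I × Fin 2 × Fin 2)) :=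
  (Finset.univ.filter fun t : I × Fin 2 × Fin 2 => t.2.1 = t.2.2).map Function.Embedding.some

/-- second set of variables -/
def U2 (I : Type) [Fintype I] [DecidableEq I] : Finset (Option (I × Fin 2 × Fin 2)) :=
  (Finset.univ.filter fun t : I × Fin 2 × Fin 2 => t.2.1 = 0 ∧ t.2.2 = 1).map
    Function.Embedding.some

/-- first substitution -/
noncomputable def q1 : Option (I × Fin 2 × Fin 2) → PS I
  | none => 0
  | some t => sv * X (some (t.1, 1, 0))

/-- second substitution -/
noncomputable def q2 : Option (I × Fin 2 × Fin 2) → PS I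
  | none => 0
  | some t => sv * (X (some (t.1, 0, 0)) + X (some (t.1, 1, 1))) + sv ^ 2 * X (some (t.1, 1, 0))

theorem mem_U1 [DecidableEq I] {o : Option (I × Fin 2 × Fin 2)} (h : o ∈ U1 I) :
    ∃ i a, o = some (i, a, a) := by
  simp only [U1, Finset.mem_map, Finset.mem_filter, Finset.mem_univ, true_and] at h
  obtain ⟨⟨i, a, b⟩, h1, rfl⟩ := h
  simp only at h1
  subst h1
  exact ⟨i, _, rfl⟩

theorem mem_U2 [DecidableEq I] {o : Option (I × Fin 2 × Fin 2)} (h : o ∈ U2 I) :
    ∃ i, o = some (i, 0, 1) := by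
  simp only [U2, Finset.mem_map, Finset.mem_filter, Finset.mem_univ, true_and] at h
  obtain ⟨⟨i, a, b⟩, ⟨h1, h2⟩, rfl⟩ := h
  simp only at h1 h2
  subst h1 h2
  exact ⟨i, rfl⟩

theorem notMem_U1 [DecidableEq I] (o : Option (I × Fin 2 × Fin 2))
    (h : o = none ∨ ∃ i a b, a ≠ b ∧ o = some (i, a, b)) : o ∉ U1 I := by
  rcases h with rfl | ⟨i, a, b, hab, rfl⟩
  · simp [U1]
  · simp [U1, hab]

theorem notMem_U2 [DecidableEq I] (o : Option (I × Fin 2 × Fin 2))
    (h : o = none ∨ ∃ i a b, ¬ (a = 0 ∧ b = 1) ∧ o = some (i, a, b)) : o ∉ U2 I := by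
  rcases h with rfl | ⟨i, a, b, hab, rfl⟩
  · simp [U2]
  · simp [U2]
    tauto

/-- the first step of the conjugation -/
noncomputable def phi1 [DecidableEq I] : PS I →ₐ[ZMod 2] PS I :=
  aeval fun s => if s ∈ U1 I then X s + q1 s else X s

/-- the second step of the conjugation -/
noncomputable def phi2 [DecidableEq I] : PS I →ₐ[ZMod 2] PS I :=
  aeval fun s => if s ∈ U2 I then X s + q2 s else X s

theorem car_phi1 [DecidableEq I] (f : PS I) : car (phi1 f) = phi1 (car f) := by
  refine car_tri_set q1 (U1 I) ?_ ?_ (U1 I) subset_rfl f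
  · intro a ha b hb
    obtain ⟨i, a, rfl⟩ := mem_U1 ha
    obtain ⟨j, b, rfl⟩ := mem_U1 hb
    rw [q1, sv, pderiv_mul, pderiv_X_of_ne (by simp), pderiv_X_of_ne, zero_mul, mul_zero, add_zero]
    intro h
    simp only [Option.some.injEq, Prod.mk.injEq] at h
    obtain ⟨-, h1, h2⟩ := h
    rw [← h1] at h2
    exact absurd h2 (by decide)
  · intro a ha φ hφ
    obtain ⟨i, a, rfl⟩ := mem_U1 ha
    rw [q1, sv, map_mul, hφ _ (notMem_U1 _ (Or.inl rfl)),
      hφ _ (notMem_U1 _ (Or.inr ⟨i, 1, 0, by decide, rfl⟩))]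

theorem car_phi2 [DecidableEq I] (f : PS I) : car (phi2 f) = phi2 (car f) := by
  refine car_tri_set q2 (U2 I) ?_ ?_ (U2 I) subset_rfl f
  · intro a ha b hb
    obtain ⟨i, rfl⟩ := mem_U2 ha
    obtain ⟨j, rfl⟩ := mem_U2 hb
    rw [q2, sv]
    simp only [map_add, pderiv_mul, Derivation.leibniz_pow, smul_eq_mul, nsmul_eq_mul]
    rw [pderiv_X_of_ne (by simp), pderiv_X_of_ne (by simp), pderiv_X_of_ne (by simp),
      pderiv_X_of_ne (by simp)]
    simp
  · intro a ha φ hφ
    obtain ⟨i, rfl⟩ := mem_U2 ha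
    rw [q2, sv, map_add, map_mul, map_mul, map_pow, map_add, hφ _ (notMem_U2 _ (Or.inl rfl)),
      hφ _ (notMem_U2 _ (Or.inr ⟨i, 0, 0, by decide, rfl⟩)),
      hφ _ (notMem_U2 _ (Or.inr ⟨i, 1, 1, by decide, rfl⟩)),
      hφ _ (notMem_U2 _ (Or.inr ⟨i, 1, 0, by decide, rfl⟩))]

/-- the conjugation by the generic upper elementary matrix -/
noncomputable def phiD [DecidableEq I] : PS I →ₐ[ZMod 2] PS I := phi2.comp phi1

theorem car_phiD [DecidableEq I] (f : PS I) : car (phiD f) = phiD (car f) := by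
  rw [phiD, AlgHom.comp_apply, AlgHom.comp_apply, car_phi2, car_phi1]

theorem phiD_sv [DecidableEq I] : phiD (sv : PS I) = sv := by
  rw [phiD, AlgHom.comp_apply, phi1, sv, aeval_X, if_neg (notMem_U1 _ (Or.inl rfl)), phi2, aeval_X,
    if_neg (notMem_U2 _ (Or.inl rfl))]

/-- the generic matrices over the ring with one more variable -/
noncomputable def gxs (i : I) : Matrix (Fin 2) (Fin 2) (PS I) := fun a b => X (some (i, a, b))

theorem gxs_eq (i : I) : (gxs i : Matrix (Fin 2) (Fin 2) (PS I)) =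
    !![X (some (i, 0, 0)), X (some (i, 0, 1)); X (some (i, 1, 0)), X (some (i, 1, 1))] := by
  ext a b
  fin_cases a <;> fin_cases b <;> rfl

/-- the conjugate of the generic matrices -/
noncomputable def gys (i : I) : Matrix (Fin 2) (Fin 2) (PS I) :=
  !![1, sv; 0, 1] * gxs i * !![1, sv; 0, 1]

theorem phiD_emb_X [DecidableEq I] (i : I) (a b : Fin 2) :
    phiD (emb (X (i, a, b)) : PS I) = gys i a b := by
  have h2 := two_zero (PS I)
  rw [emb_X, phiD, AlgHom.comp_apply, phi1, aeval_X]
  have u1 : ∀ a b : Fin 2, (some (i, a, b) ∈ U1 I) = (a = b) := by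
    intro a b
    simp [U1]
  have u2 : ∀ a b : Fin 2, (some (i, a, b) ∈ U2 I) = (a = 0 ∧ b = 1) := by
    intro a b
    simp [U2]
  have u3 : (none ∈ U2 I) = False := by simp [U2]
  simp only [u1]
  have hx : ∀ a b : Fin 2, phi2 (X (some (i, a, b)) : PS I) = if a = 0 ∧ b = 1 then
      X (some (i, a, b)) + q2 (some (i, a, b)) else X (some (i, a, b)) := by
    intro a b
    rw [phi2, aeval_X]
    simp only [u2]
  have hs : phi2 (sv : PS I) = sv := by
    rw [phi2, sv, aeval_X]
    simp only [u3, if_false]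
  have hg : gys i = !![X (some (i, 0, 0)) + sv * X (some (i, 1, 0)),
      (X (some (i, 0, 0)) + sv * X (some (i, 1, 0))) * sv + (X (some (i, 0, 1)) +
        sv * X (some (i, 1, 1))); X (some (i, 1, 0)),
      X (some (i, 1, 0)) * sv + X (some (i, 1, 1))] := by
    rw [gys, gxs_eq, Matrix.mul_fin_two, Matrix.mul_fin_two]
    simp
  rw [hg]
  fin_cases a <;> fin_cases b
  · simp [hx, hs, q1]
  · simp [hx, q2]
    ring
  · simp [hx]
  · simp [hx, hs, q1]
    ring

theorem phiD_emb [DecidableEq I] (f : PR I) : phiD (emb f : PS I) = pev gys f := by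
  have h : (phiD.comp emb : PR I →ₐ[ZMod 2] PS I) = pev gys := by
    refine MvPolynomial.algHom_ext fun t => ?_
    obtain ⟨i, a, b⟩ := t
    rw [pev_X]
    exact phiD_emb_X i a b
  exact AlgHom.congr_fun h f

theorem emb_eq (f : PR I) : (emb f : PS I) = pev gxs f := by
  have h : (emb : PR I →ₐ[ZMod 2] PS I) = pev gxs := by
    refine MvPolynomial.algHom_ext fun t => ?_
    obtain ⟨i, a, b⟩ := t
    rw [pev_X]
    exact emb_X i a b
  exact AlgHom.congr_fun h f

/-- the equations -/
noncomputable def rs (i : I) : PS I := emb (gr i)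

theorem phiD_rs [DecidableEq I] (i : I) : phiD (rs i : PS I) = rs i := by
  rw [rs, phiD_emb, emb_eq, pev_gr, pev_gr, gys, Matrix.det_mul, Matrix.det_mul,
    Matrix.det_fin_two_of]
  ring

end gen

end Pool.Agent.SuF
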