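import Pool.Agent.Lib.MP_305fdd_al.Su.F.GpInv

/-!
# MP_305fdd_al, surface groups, block F: `CG (k w₁₁)` is an invariant if `k` is an invariant
-/

set_option autoImplicit false
set_option linter.unusedSectionVars false

namespace Pool.Agent.SuF

open MvPolynomial

section gen

variable {I : Type} [Fintype I]

variable (I)

/-- the ring of functions of `SL_2 ^ I × A^1` -/
def ARs : Type := CI (rs : I → PS I)

noncomputable instance : CommRing (ARs I) := inferInstanceAs (CommRing (CI (rs : I → PS I)))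

noncomputable instance : Algebra (ZMod 2) (ARs I) :=
  inferInstanceAs (Algebra (ZMod 2) (CI (rs : I → PS I)))

variable {I}

/-- the projection -/
noncomputable def smk : PS I →+* ARs I := Ideal.Quotient.mk (idl (rs : I → PS I))

theorem smk_eq_zero (f : PS I) : smk f = 0 ↔ f ∈ idl (rs : I → PS I) :=
  Ideal.Quotient.eq_zero_iff_mem

/-- the generic point -/
noncomputable def gs (i : I) : Matrix.SpecialLinearGroup (Fin 2) (ARs I) :=
  ⟨(gxs i).map smk, by
    have h : smk (rs i) = 0 := (smk_eq_zero _).2 (mem_idl rs i)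
    rw [rs, emb_eq, pev_gr, map_add, map_one] at h
    have h1 := eq_of_add h
    rw [RingHom.map_det] at h1
    exact h1⟩

theorem pev_comp {S S' : Type} [CommRing S] [Algebra (ZMod 2) S] [CommRing S'] [Algebra (ZMod 2) S']
    (x : I → Matrix (Fin 2) (Fin 2) S) (φ : S →+* S') (f : PR I) :
    φ (pev x f) = pev (fun i => (x i).map φ) f := by
  have h1 : φ.comp (pev x : PR I →+* S) = (pev (fun i => (x i).map φ) : PR I →+* S') := by
    refine MvPolynomial.ringHom_ext (fun r => ?_) fun s => ?_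
    · rcases zmod2_cases r with rfl | rfl
      · rw [map_zero, map_zero, map_zero]
      · rw [map_one, map_one, map_one]
    · obtain ⟨i, a, b⟩ := s
      change φ (pev x (X (i, a, b))) = pev (fun i => (x i).map φ) (X (i, a, b))
      rw [pev_X, pev_X]
      rfl
  exact RingHom.congr_fun h1 f

theorem smk_emb (f : PR I) : smk (emb f) = ev gs (amk f) := by
  rw [emb_eq, pev_comp, ev_mk]
  rfl

theorem e12_inv {S : Type} [CommRing S] [Algebra (ZMod 2) S] (s : S) : (e12 s)⁻¹ = e12 s := by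
  rw [inv_eq_iff_mul_eq_one]
  ext a b
  change ((!![1, s; 0, 1] : Matrix (Fin 2) (Fin 2) S) * !![1, s; 0, 1]) a b = _
  rw [Matrix.mul_fin_two]
  fin_cases a <;> fin_cases b <;> simp [addSelf]

theorem map_e12 {S S' : Type} [CommRing S] [Algebra (ZMod 2) S] [CommRing S'] [Algebra (ZMod 2) S']
    (φ : S →+* S') (s : S) : Matrix.SpecialLinearGroup.map φ (e12 s) = e12 (φ s) := by
  ext a b
  change φ ((!![1, s; 0, 1] : Matrix (Fin 2) (Fin 2) S) a b) =
    (!![1, φ s; 0, 1] : Matrix (Fin 2) (Fin 2) S') a b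
  fin_cases a <;> fin_cases b <;> simp

theorem map_om {S S' : Type} [CommRing S] [Algebra (ZMod 2) S] [CommRing S'] [Algebra (ZMod 2) S']
    (φ : S →+* S') : Matrix.SpecialLinearGroup.map φ (om S) = om S' := by
  ext a b
  change φ ((!![0, 1; 1, 0] : Matrix (Fin 2) (Fin 2) S) a b) =
    (!![0, 1; 1, 0] : Matrix (Fin 2) (Fin 2) S') a b
  fin_cases a <;> fin_cases b <;> simp

theorem om_inv (S : Type) [CommRing S] [Algebra (ZMod 2) S] : (om S)⁻¹ = om S := by
  rw [inv_eq_iff_mul_eq_one]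
  ext a b
  change ((!![0, 1; 1, 0] : Matrix (Fin 2) (Fin 2) S) *
    (!![0, 1; 1, 0] : Matrix (Fin 2) (Fin 2) S)) a b = _
  rw [Matrix.mul_fin_two]
  fin_cases a <;> fin_cases b <;> simp

theorem smk_phiD_emb [DecidableEq I] (f : PR I) : smk (phiD (emb f)) =
    ev (fun i => e12 (smk sv) * gs i * (e12 (smk sv))⁻¹) (amk f) := by
  rw [phiD_emb, pev_comp, ev_mk]
  congr 2
  funext i
  rw [e12_inv, gys, Matrix.map_mul, Matrix.map_mul]
  have h : (!![1, sv; 0, 1] : Matrix (Fin 2) (Fin 2) (PS I)).map smk = (e12 (smk sv)).1 := by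
    ext a b
    fin_cases a <;> fin_cases b <;> simp [e12]
  rw [h]
  rfl

/-- every point with a scalar comes from the generic point -/
theorem exists_spec {S : Type} [CommRing S] [Algebra (ZMod 2) S]
    (x : I → Matrix.SpecialLinearGroup (Fin 2) S) (s : S) :
    ∃ φ : ARs I →+* S, (∀ i, Matrix.SpecialLinearGroup.map φ (gs i) = x i) ∧ φ (smk sv) = s := by
  let ψ : PS I →ₐ[ZMod 2] S := aeval fun o => o.elim s (fun t => (x t.1).1 t.2.1 t.2.2)
  have hψ : ∀ f : PR I, ψ (emb f) = pev (fun i => (x i).1) f := by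
    intro f
    have h : (ψ.comp emb : PR I →ₐ[ZMod 2] S) = pev (fun i => (x i).1) := by
      refine MvPolynomial.algHom_ext fun t => ?_
      obtain ⟨i, a, b⟩ := t
      rw [pev_X, AlgHom.comp_apply, emb_X]
      exact aeval_X _ _
    exact AlgHom.congr_fun h f
  refine ⟨Ideal.Quotient.lift (idl rs) (ψ : PS I →+* S) ?_, fun i => ?_, ?_⟩
  · intro f hf
    refine idl_induction rs (P := fun f => ψ f = 0) ?_ ?_ ?_ hf
    · exact map_zero _
    · intro f g h1 h2
      rw [map_add, h1, h2, add_zero]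
    · intro c i
      rw [map_mul, rs, hψ, pev_gr, (x i).2, addSelf, mul_zero]
  · ext a b
    exact aeval_X _ _
  · exact aeval_X _ _

theorem conj_D {S : Type} [CommRing S] [Algebra (ZMod 2) S] (s : S)
    (m : Matrix.SpecialLinearGroup (Fin 2) S) :
    (e12 s * m * (e12 s)⁻¹).1 0 0 = m.1 0 0 + s * m.1 1 0 := by
  rw [e12_inv]
  change ((!![1, s; 0, 1] : Matrix (Fin 2) (Fin 2) S) * m.1 * !![1, s; 0, 1]) 0 0 = _
  rw [Matrix.mul_apply, Fin.sum_univ_two, Matrix.mul_apply, Fin.sum_univ_two, Matrix.mul_apply,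
    Fin.sum_univ_two]
  simp

/-- the crucial step: the invariance of `CG (k w₁₁)` under the generic upper elementary matrix -/
theorem gen_D {k : AR I} (hk : IsInv k) (w : FreeGroup I) :
    ev (fun i => e12 (smk sv) * gs i * (e12 (smk sv))⁻¹) (CG (k * rM w 0 0)) =
      ev gs (CG (k * rM w 0 0)) := by
  classical
  obtain ⟨f, hf⟩ := amk_surj (k * rM w 0 0)
  obtain ⟨g, hg⟩ := amk_surj (k * rM w 1 0)
  rw [← hf, CG_mk, ← smk_phiD_emb, ← smk_emb, ← car_sv_emb, ← car_phiD, map_mul phiD, phiD_sv,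
    map_mul emb, map_mul phiD]
  have hG : phiD (emb (∏ i, gr i) : PS I) = emb (∏ i, gr i) := by
    rw [map_prod, map_prod]
    exact Finset.prod_congr rfl fun i _ => phiD_rs i
  have hG2 : (emb (∏ i, gr i) : PS I) = ∏ i, rs i := map_prod _ _ _
  rw [hG]
  have h1 : smk (phiD (emb f)) = smk (emb f + sv * emb g) := by
    rw [smk_phiD_emb, map_add, map_mul, smk_emb, smk_emb, hf, hg, map_mul, map_mul, map_mul, hk.D,
      ev_rM_apply, ev_rM_apply, ev_rM_apply, lift_conj, conj_D]
    ring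
  have h2 : phiD (emb f) - (emb f + sv * emb g) ∈ idl (rs : I → PS I) := by
    rw [← smk_eq_zero, map_sub, h1, sub_self]
  have h3 : sv * (phiD (emb f) * emb (∏ i, gr i)) = sv * (emb f * emb (∏ i, gr i)) +
      sv ^ 2 * emb (g * ∏ i, gr i) +
      (sv * (phiD (emb f) - (emb f + sv * emb g))) * ∏ i, rs i := by
    rw [← hG2, map_mul emb]
    ring
  rw [h3, map_add car, map_add car, car_sq_mul, car_emb, mul_zero, add_zero, map_add smk,
    (smk_eq_zero _).2 (car_mem rs (Ideal.mul_mem_left _ _ h2)), add_zero]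

theorem inv_D {k : AR I} (hk : IsInv k) (w : FreeGroup I) {S : Type} [CommRing S]
    [Algebra (ZMod 2) S] (x : I → Matrix.SpecialLinearGroup (Fin 2) S) (s : S) :
    ev (fun i => e12 s * x i * (e12 s)⁻¹) (CG (k * rM w 0 0)) = ev x (CG (k * rM w 0 0)) := by
  obtain ⟨φ, h1, h2⟩ := exists_spec x s
  have h := congrArg φ (gen_D hk w)
  rw [ev_comp, ev_comp] at h
  have h3 : ∀ i, Matrix.SpecialLinearGroup.map φ (e12 (smk sv) * gs i * (e12 (smk sv))⁻¹) =
      e12 s * x i * (e12 s)⁻¹ := by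
    intro i
    rw [map_mul, map_mul, map_inv, map_e12, h2, h1]
  simp only [h3, h1] at h
  exact h

/-! ## The Weyl element -/

/-- the exchange of the indices `0, 1` -/
def sw (t : I × Fin 2 × Fin 2) : I × Fin 2 × Fin 2 :=
  (t.1, Equiv.swap 0 1 t.2.1, Equiv.swap 0 1 t.2.2)

omit [Fintype I] in
theorem sw_sw (t : I × Fin 2 × Fin 2) : sw (sw t) = t := by
  obtain ⟨i, a, b⟩ := t
  simp [sw]

/-- the exchange of the indices as an equivalence -/
def swE (I : Type) : (I × Fin 2 × Fin 2) ≃ (I × Fin 2 × Fin 2) := ⟨sw, sw, sw_sw, sw_sw⟩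

theorem car_rename {σ τ : Type} [Fintype σ] [Fintype τ] (e : σ ≃ τ)
    (f : MvPolynomial σ (ZMod 2)) : car (rename e f) = rename e (car f) := by
  classical
  refine ext_sq (Φ := fun f => car (rename e f)) (Ψ := fun f => rename e (car f)) ?_ ?_
    (fun h m => rename e h * m) ?_ ?_ ?_ f
  · intro f g
    rw [map_add, map_add]
  · intro f g
    rw [map_add, map_add]
  · intro h f
    rw [map_mul (rename e), map_pow (rename e), car_sq_mul]
  · intro h f
    rw [car_sq_mul, map_mul]
  · intro T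
    have h1 : rename e (∏ s ∈ T, (X s : MvPolynomial σ (ZMod 2))) =
        ∏ s ∈ T.map e.toEmbedding, X s := by
      rw [map_prod, Finset.prod_map]
      exact Finset.prod_congr rfl fun s _ => rename_X _ _
    rw [h1, car_sqf, car_sqf]
    by_cases hT : T = Finset.univ
    · subst hT
      rw [if_pos rfl, if_pos, map_one]
      simp
    · rw [if_neg hT, if_neg, map_zero]
      intro h
      apply hT
      rw [Finset.eq_univ_iff_forall] at h ⊢
      intro x
      have := h (e x)
      simpa using this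

/-- the exchange of the indices on the polynomial ring -/
noncomputable def pw : PR I →ₐ[ZMod 2] PR I := rename (swE I)

theorem pw_eq (f : PR I) : pw f = pev (fun i => (gx i).submatrix (Equiv.swap 0 1)
    (Equiv.swap 0 1)) f := by
  have h : (pw : PR I →ₐ[ZMod 2] PR I) = pev (fun i => (gx i).submatrix (Equiv.swap 0 1)
    (Equiv.swap 0 1)) := by
    refine MvPolynomial.algHom_ext fun t => ?_
    obtain ⟨i, a, b⟩ := t
    rw [pev_X, pw, rename_X]
    rfl
  exact AlgHom.congr_fun h f

theorem pw_gr (i : I) : pw (gr i : PR I) = gr i := by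
  rw [pw_eq, pev_gr, Matrix.det_submatrix_equiv_self, gr]

theorem conj_om {S : Type} [CommRing S] [Algebra (ZMod 2) S]
    (m : Matrix.SpecialLinearGroup (Fin 2) S) :
    (om S * m * (om S)⁻¹).1 = m.1.submatrix (Equiv.swap 0 1) (Equiv.swap 0 1) := by
  rw [om_inv]
  change ((!![0, 1; 1, 0] : Matrix (Fin 2) (Fin 2) S) * m.1 *
    (!![0, 1; 1, 0] : Matrix (Fin 2) (Fin 2) S)) = _
  ext a b
  rw [Matrix.mul_apply, Fin.sum_univ_two, Matrix.mul_apply, Fin.sum_univ_two, Matrix.mul_apply,
    Fin.sum_univ_two]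
  fin_cases a <;> fin_cases b <;> simp

/-- the exchange of the indices on `AR I` -/
noncomputable def aw : AR I →+* AR I := ev (fun i => om (AR I) * ax i * (om (AR I))⁻¹)

theorem aw_mk (f : PR I) : aw (amk f) = amk (pw f) := by
  rw [aw, ev_mk, pw_eq, pev_comp]
  congr 2
  funext i
  rw [conj_om]
  rfl

theorem CG_aw (f : AR I) : CG (aw f) = aw (CG f) := by
  obtain ⟨f, rfl⟩ := amk_surj f
  have h : (∏ i, gr i : PR I) = pw (∏ i, gr i) := by
    rw [map_prod]
    exact Finset.prod_congr rfl fun i _ => (pw_gr i).symm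
  rw [aw_mk, CG_mk, CG_mk, aw_mk]
  conv_lhs => rw [h, ← map_mul]
  rw [pw, car_rename]

theorem ev_ax (f : AR I) : ev ax f = f := by
  refine RingHom.congr_fun (f := ev ax) (g := RingHom.id (AR I)) (AR_hom_ext fun i a b => ?_) f
  rw [ev_mk, pev_X]
  rfl

theorem IsInv.aw {k : AR I} (hk : IsInv k) : aw k = k := by
  have h := hk.W (AR I) ax
  rw [ev_ax] at h
  exact h

theorem ev_om {S : Type} [CommRing S] [Algebra (ZMod 2) S]
    (x : I → Matrix.SpecialLinearGroup (Fin 2) S) (f : AR I) :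
    ev (fun i => om S * x i * (om S)⁻¹) f = ev x (SuF.aw f) := by
  rw [SuF.aw, ev_comp]
  congr 2
  funext i
  rw [map_mul, map_mul, map_inv, map_om]
  congr 2
  ext a b
  exact (pev_X (fun i => (x i).1) i a b).symm

/-! ## Dual numbers -/

/-- the lower elementary matrix -/
def e21 {S : Type} [CommRing S] (s : S) : Matrix.SpecialLinearGroup (Fin 2) S :=
  ⟨!![1, 0; s, 1], by rw [Matrix.det_fin_two_of]; ring⟩

theorem e21_eq {S : Type} [CommRing S] [Algebra (ZMod 2) S] (s : S) :
    e21 s = om S * e12 s * (om S)⁻¹ := by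
  apply Subtype.ext
  rw [conj_om]
  ext a b
  fin_cases a <;> fin_cases b <;> simp [e21, e12]

theorem e21_inv {S : Type} [CommRing S] [Algebra (ZMod 2) S] (s : S) : (e21 s)⁻¹ = e21 s := by
  rw [e21_eq, mul_inv_rev, mul_inv_rev, e12_inv, inv_inv, mul_assoc]

theorem IsInv.E {f : AR I} (hf : IsInv f) {S : Type} [CommRing S] [Algebra (ZMod 2) S]
    (x : I → Matrix.SpecialLinearGroup (Fin 2) S) (s : S) :
    ev (fun i => e21 s * x i * (e21 s)⁻¹) f = ev x f := by
  have h1 : (fun i => e21 s * x i * (e21 s)⁻¹) = fun i => om S * (e12 s * ((om S)⁻¹ * x i *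
      ((om S)⁻¹)⁻¹) * (e12 s)⁻¹) * (om S)⁻¹ := by
    funext i
    rw [e21_eq]
    group
  rw [h1, hf.W, hf.D]
  have h2 := hf.W S x
  rw [← om_inv] at h2
  exact h2

open TrivSqZeroExt in
/-- `f ↦ f + ε D f` -/
noncomputable def psi {R : Type} [CommRing R] [Algebra (ZMod 2) R]
    (D : Derivation (ZMod 2) R R) : R →+* DualNumber R where
  toFun f := inl f + inr (D f)
  map_one' := by rw [D.map_one_eq_zero, inr_zero, add_zero, inl_one]
  map_zero' := by rw [map_zero, inr_zero, add_zero, inl_zero]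
  map_add' f g := by
    rw [map_add, inl_add, inr_add]
    abel
  map_mul' f g := by
    rw [D.leibniz]
    ext
    · simp
    · simp [mul_comm]

section eps

variable {R : Type} [CommRing R]

/-- `ε` -/
noncomputable def ep (R : Type) [CommRing R] : DualNumber R := TrivSqZeroExt.inr 1

theorem ep_mul (r s : R) : (TrivSqZeroExt.inl r : DualNumber R) + ep R * TrivSqZeroExt.inl s =
    TrivSqZeroExt.inl r + TrivSqZeroExt.inr s := by
  ext
  · simp [ep]
  · simp [ep]

theorem ep_sq : ep R * ep R = 0 := by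
  ext
  · simp [ep]
  · simp [ep]

theorem inr_eq (s : R) : (TrivSqZeroExt.inr s : DualNumber R) = ep R * TrivSqZeroExt.inl s := by
  ext
  · simp [ep]
  · simp [ep]

theorem conj_ep (m : Matrix (Fin 2) (Fin 2) (DualNumber R)) (a b : Fin 2) :
    ((!![1, ep R; 0, 1] : Matrix (Fin 2) (Fin 2) (DualNumber R)) * m *
      (!![1, ep R; 0, 1] : Matrix (Fin 2) (Fin 2) (DualNumber R))) a b =
      m a b + ep R * (if a = b then m 1 0 else if a = 0 then m 0 0 + m 1 1 else 0) := by
  have h := ep_sq (R := R)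
  rw [Matrix.mul_apply, Fin.sum_univ_two, Matrix.mul_apply, Fin.sum_univ_two, Matrix.mul_apply,
    Fin.sum_univ_two]
  fin_cases a <;> fin_cases b
  · simp
  · simp
    linear_combination (m 1 0) * h
  · simp
  · simp
    ring

theorem conj_ep' (m : Matrix (Fin 2) (Fin 2) (DualNumber R)) (a b : Fin 2) :
    ((!![1, 0; ep R, 1] : Matrix (Fin 2) (Fin 2) (DualNumber R)) * m *
      (!![1, 0; ep R, 1] : Matrix (Fin 2) (Fin 2) (DualNumber R))) a b =
      m a b + ep R * (if a = b then m 0 1 else if a = 0 then 0 else m 0 0 + m 1 1) := by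
  have h := ep_sq (R := R)
  rw [Matrix.mul_apply, Fin.sum_univ_two, Matrix.mul_apply, Fin.sum_univ_two, Matrix.mul_apply,
    Fin.sum_univ_two]
  fin_cases a <;> fin_cases b
  · simp
    ring
  · simp
  · simp
    linear_combination (m 0 1) * h
  · simp
    ring

end eps

theorem dual_gen (k : AR I) (D : Derivation (ZMod 2) (AR I) (AR I))
    (g : Matrix.SpecialLinearGroup (Fin 2) (DualNumber (AR I)))
    (hg : ∀ (i : I) (a b : Fin 2),
      (g * Matrix.SpecialLinearGroup.map (TrivSqZeroExt.inlHom (AR I) (AR I)) (ax i) * g⁻¹).1 a b =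
        TrivSqZeroExt.inl (amk (X (i, a, b))) + TrivSqZeroExt.inr (D (amk (X (i, a, b)))))
    (hk : ev (fun i => g * Matrix.SpecialLinearGroup.map (TrivSqZeroExt.inlHom (AR I) (AR I)) (ax i)
      * g⁻¹) k = ev (fun i => Matrix.SpecialLinearGroup.map
        (TrivSqZeroExt.inlHom (AR I) (AR I)) (ax i)) k) : D k = 0 := by
  have h1 : ev (fun i => g * Matrix.SpecialLinearGroup.map (TrivSqZeroExt.inlHom (AR I) (AR I)) (ax i)
      * g⁻¹) = psi D := by
    refine AR_hom_ext fun i a b => ?_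
    rw [ev_mk, pev_X]
    exact hg i a b
  rw [h1, ← ev_comp, ev_ax] at hk
  have h4 := congrArg TrivSqZeroExt.snd hk
  have h5 : TrivSqZeroExt.snd (psi D k) = D k := by
    change TrivSqZeroExt.snd (TrivSqZeroExt.inl k + TrivSqZeroExt.inr (D k)) = D k
    rw [TrivSqZeroExt.snd_add, TrivSqZeroExt.snd_inl, TrivSqZeroExt.snd_inr, zero_add]
  rw [h5] at h4
  rw [h4]
  exact TrivSqZeroExt.snd_inl _ _

/-- An invariant is an infinitesimal invariant. -/
theorem IsInv.ivt {k : AR I} (hk : IsInv k) : Ivt aD aE k := by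
  constructor
  · refine dual_gen k aD (e12 (ep (AR I))) (fun i a b => ?_) (hk.D _ _ _)
    rw [e12_inv, inr_eq]
    refine (conj_ep _ a b).trans ?_
    have hx : ∀ a b, (Matrix.SpecialLinearGroup.map (TrivSqZeroExt.inlHom (AR I) (AR I)) (ax i)).1 a b
      = TrivSqZeroExt.inl (amk (X (i, a, b))) := fun a b => rfl
    rw [hx, hx, hx, hx, aD_mk, pD_X, vD]
    congr 2
    fin_cases a <;> fin_cases b
    · rfl
    · simp only [Fin.zero_eta, Fin.mk_one, zero_ne_one, if_false, if_true, map_add,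
        TrivSqZeroExt.inl_add]
    · simp only [Fin.zero_eta, Fin.mk_one, one_ne_zero, if_false, map_zero, TrivSqZeroExt.inl_zero]
    · rfl
  · refine dual_gen k aE (e21 (ep (AR I))) (fun i a b => ?_) (hk.E _ _)
    rw [e21_inv, inr_eq]
    refine (conj_ep' _ a b).trans ?_
    have hx : ∀ a b, (Matrix.SpecialLinearGroup.map (TrivSqZeroExt.inlHom (AR I) (AR I)) (ax i)).1 a b
      = TrivSqZeroExt.inl (amk (X (i, a, b))) := fun a b => rfl
    rw [hx, hx, hx, hx, aE_mk, pE_X, vE]
    congr 2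
    fin_cases a <;> fin_cases b
    · rfl
    · simp only [Fin.zero_eta, Fin.mk_one, zero_ne_one, if_false, if_true, map_zero,
        TrivSqZeroExt.inl_zero]
    · simp only [Fin.zero_eta, Fin.mk_one, one_ne_zero, if_false, map_add,
        TrivSqZeroExt.inl_add]
    · rfl

/-- **`CG (k w₁₁)` is an invariant if `k` is an invariant** -/
theorem isInv_CG {k : AR I} (hk : IsInv k) (w : FreeGroup I) : IsInv (CG (k * rM w 0 0)) := by
  refine ⟨fun S _ _ x s => inv_D hk w x s, fun S _ _ x => ?_⟩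
  rw [ev_om, ← CG_aw, map_mul, hk.aw]
  have h : aw (rM w 0 0) = rM w 1 1 := by
    rw [aw, ev_rM_apply, lift_conj, conj_om]
    have h2 : FreeGroup.lift ax w = (rho w : Matrix.SpecialLinearGroup (Fin 2) (AR I)) := rfl
    rw [h2]
    rfl
  rw [h, rel11 inv_CG hk.ivt (eqv_rM w)]

end gen

end Pool.Agent.SuF
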