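import Pool.Agent.Lib.MP_305fdd_al.Su.F.Rel

/-!
# MP_305fdd_al, surface groups, block F: the ring of functions of `SL_2 ^ I` over `F_2`
-/

set_option autoImplicit false
set_option linter.unusedSectionVars false

namespace Pool.Agent.SuF

open MvPolynomial

/-- the determinant of an equivariant matrix is an infinitesimal invariant -/
theorem Eqv.det {R : Type} [CommRing R] [Algebra (ZMod 2) R] {D E : Derivation (ZMod 2) R R}
    {w : Matrix (Fin 2) (Fin 2) R} (hw : Eqv D E w) : Ivt D E w.det := by
  have h2 := two_zero R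
  rw [Matrix.det_fin_two]
  constructor
  · rw [map_sub, D.leibniz, D.leibniz, hw.D00, hw.D11, hw.D01, hw.D10]
    simp only [smul_eq_mul]
    linear_combination 0 * h2
  · rw [map_sub, E.leibniz, E.leibniz, hw.E00, hw.E11, hw.E01, hw.E10]
    simp only [smul_eq_mul]
    linear_combination 0 * h2

theorem Ivt.prod {R : Type} [CommRing R] [Algebra (ZMod 2) R] {D E : Derivation (ZMod 2) R R}
    {ι : Type} (S : Finset ι) (f : ι → R) (h : ∀ i ∈ S, Ivt D E (f i)) :
    Ivt D E (∏ i ∈ S, f i) := by
  classical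
  induction S using Finset.induction_on with
  | empty => rw [Finset.prod_empty]; exact Ivt.one
  | insert b S hb ih =>
    rw [Finset.prod_insert hb]
    exact (h b (Finset.mem_insert_self _ _)).mul
      (ih fun i hi => h i (Finset.mem_insert_of_mem hi))

section gr

variable (I : Type) [Fintype I]

/-- the polynomial ring in the entries of the matrices `x_i`, `i ∈ I` -/
abbrev PR : Type := MvPolynomial (I × Fin 2 × Fin 2) (ZMod 2)

variable {I}

/-- the generic matrix `x_i` -/
noncomputable def gx (i : I) : Matrix (Fin 2) (Fin 2) (PR I) := fun a b => X (i, a, b)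

/-- the equation `det x_i + 1` -/
noncomputable def gr (i : I) : PR I := (gx i).det + 1

/-- the values of the infinitesimal conjugation by `e₁₂` -/
noncomputable def vD (s : I × Fin 2 × Fin 2) : PR I :=
  if s.2.1 = s.2.2 then X (s.1, 1, 0) else
    if s.2.1 = 0 then X (s.1, 0, 0) + X (s.1, 1, 1) else 0

/-- the values of the infinitesimal conjugation by `e₂₁` -/
noncomputable def vE (s : I × Fin 2 × Fin 2) : PR I :=
  if s.2.1 = s.2.2 then X (s.1, 0, 1) else
    if s.2.1 = 0 then 0 else X (s.1, 0, 0) + X (s.1, 1, 1)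

/-- the infinitesimal conjugation by `e₁₂` on the polynomial ring -/
noncomputable def pD : Derivation (ZMod 2) (PR I) (PR I) := mkDerivation (ZMod 2) vD

/-- the infinitesimal conjugation by `e₂₁` on the polynomial ring -/
noncomputable def pE : Derivation (ZMod 2) (PR I) (PR I) := mkDerivation (ZMod 2) vE

theorem pD_X (s : I × Fin 2 × Fin 2) : pD (X s) = vD s := mkDerivation_X _ _ _

theorem pE_X (s : I × Fin 2 × Fin 2) : pE (X s) = vE s := mkDerivation_X _ _ _

theorem eqv_gx (i : I) : Eqv pD pE (gx i) := by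
  constructor <;> simp [gx, pD_X, pE_X, vD, vE]

theorem pderiv_vD (s : I × Fin 2 × Fin 2) : pderiv s (vD s) = 0 := by
  obtain ⟨i, a, b⟩ := s
  fin_cases a <;> fin_cases b <;> simp [vD, pderiv_X_of_ne]

theorem pderiv_vE (s : I × Fin 2 × Fin 2) : pderiv s (vE s) = 0 := by
  obtain ⟨i, a, b⟩ := s
  fin_cases a <;> fin_cases b <;> simp [vE, pderiv_X_of_ne]

theorem dvg_pD : dvg (pD : Derivation (ZMod 2) (PR I) (PR I)) = 0 := by
  rw [dvg]
  refine Finset.sum_eq_zero fun s _ => ?_
  rw [pD_X, pderiv_vD]

theorem dvg_pE : dvg (pE : Derivation (ZMod 2) (PR I) (PR I)) = 0 := by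
  rw [dvg]
  refine Finset.sum_eq_zero fun s _ => ?_
  rw [pE_X, pderiv_vE]

theorem car_pD (f : PR I) : car (pD f) = 0 := by
  rw [car_der, dvg_pD, mul_zero, map_zero]

theorem car_pE (f : PR I) : car (pE f) = 0 := by
  rw [car_der, dvg_pE, mul_zero, map_zero]

theorem ivt_gr (i : I) : Ivt pD pE (gr i) := (eqv_gx i).det.add Ivt.one

theorem pD_mem : ∀ f ∈ idl (gr : I → PR I), (pD : Derivation (ZMod 2) (PR I) (PR I)) f ∈
    idl (gr : I → PR I) := by
  refine der_span _ _ ?_
  rintro f ⟨i, rfl⟩
  rw [(ivt_gr i).D]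
  exact zero_mem _

theorem pE_mem : ∀ f ∈ idl (gr : I → PR I), (pE : Derivation (ZMod 2) (PR I) (PR I)) f ∈
    idl (gr : I → PR I) := by
  refine der_span _ _ ?_
  rintro f ⟨i, rfl⟩
  rw [(ivt_gr i).E]
  exact zero_mem _

variable (I)

/-- the ring of functions of `SL_2 ^ I` -/
def AR : Type := CI (gr : I → PR I)

noncomputable instance : CommRing (AR I) := inferInstanceAs (CommRing (CI (gr : I → PR I)))

noncomputable instance : Algebra (ZMod 2) (AR I) :=
  inferInstanceAs (Algebra (ZMod 2) (CI (gr : I → PR I)))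

variable {I}

/-- the projection of the polynomial ring -/
noncomputable def amk : PR I →+* AR I := Ideal.Quotient.mk (idl (gr : I → PR I))

theorem amk_surj : Function.Surjective (amk : PR I → AR I) := Ideal.Quotient.mk_surjective

theorem amk_eq_zero (f : PR I) : (amk f : AR I) = 0 ↔ f ∈ idl (gr : I → PR I) :=
  Ideal.Quotient.eq_zero_iff_mem

/-- the infinitesimal conjugation by `e₁₂` -/
noncomputable def aD : Derivation (ZMod 2) (AR I) (AR I) :=
  (derQ pD (idl (gr : I → PR I)) pD_mem : Derivation (ZMod 2) (CI (gr : I → PR I)) _)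

/-- the infinitesimal conjugation by `e₂₁` -/
noncomputable def aE : Derivation (ZMod 2) (AR I) (AR I) :=
  (derQ pE (idl (gr : I → PR I)) pE_mem : Derivation (ZMod 2) (CI (gr : I → PR I)) _)

theorem aD_mk (f : PR I) : aD (amk f) = amk (pD f) := rfl

theorem aE_mk (f : PR I) : aE (amk f) = amk (pE f) := rfl

/-- the Cartier operator of `SL_2 ^ I` for the Haar form -/
noncomputable def CG : AR I →+ AR I := fed gr

theorem CG_mk (f : PR I) : CG (amk f) = amk (car (f * ∏ i, gr i)) := rfl

theorem CG_sq_mul (f g : AR I) : CG (f ^ 2 * g) = f * CG g := fed_sq_mul _ _ _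

theorem inv_CG : Inv (CG : AR I →+ AR I) aD aE := by
  have h := Ivt.prod Finset.univ (gr : I → PR I) (fun i _ => ivt_gr i)
  constructor
  · intro f
    obtain ⟨f, rfl⟩ := amk_surj f
    rw [aD_mk, CG_mk]
    have h1 : pD f * ∏ i, gr i = pD (f * ∏ i, gr i) := by
      rw [pD.leibniz, h.D, smul_zero, zero_add, smul_eq_mul, mul_comm]
    rw [h1, car_pD, map_zero]
  · intro f
    obtain ⟨f, rfl⟩ := amk_surj f
    rw [aE_mk, CG_mk]
    have h1 : pE f * ∏ i, gr i = pE (f * ∏ i, gr i) := by
      rw [pE.leibniz, h.E, smul_zero, zero_add, smul_eq_mul, mul_comm]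
    rw [h1, car_pE, map_zero]

/-! ## The universal representation of the free group -/

/-- the generic matrix `x_i` with determinant `1` -/
noncomputable def ax (i : I) : Matrix.SpecialLinearGroup (Fin 2) (AR I) :=
  ⟨(gx i).map amk, by
    have h : amk (gr i) = 0 := (amk_eq_zero _).2 (mem_idl gr i)
    rw [gr, map_add, map_one] at h
    have h1 := eq_of_add h
    rw [RingHom.map_det] at h1
    exact h1⟩

/-- the universal representation of the free group -/
noncomputable def rho : FreeGroup I →* Matrix.SpecialLinearGroup (Fin 2) (AR I) :=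
  FreeGroup.lift ax

/-- the matrix of `w` -/
noncomputable def rM (w : FreeGroup I) : Matrix (Fin 2) (Fin 2) (AR I) := (rho w).1

theorem rM_one : rM (1 : FreeGroup I) = 1 := by
  rw [rM, map_one]
  rfl

theorem rM_mul (w y : FreeGroup I) : rM (w * y) = rM w * rM y := by
  rw [rM, map_mul]
  rfl

theorem rM_inv (w : FreeGroup I) : rM w⁻¹ = (rM w).adjugate := by
  rw [rM, map_inv, Matrix.SpecialLinearGroup.coe_inv]
  rfl

theorem det_rM (w : FreeGroup I) : (rM w).det = 1 := (rho w).2

theorem rM_of (i : I) : rM (FreeGroup.of i) = (gx i).map amk := by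
  rw [rM, rho, FreeGroup.lift_apply_of]
  rfl

/-- The matrices of the words are equivariant. -/
theorem eqv_rM (w : FreeGroup I) : Eqv aD aE (rM w) := by
  have h1 : ∀ i : I, Eqv aD aE (rM (FreeGroup.of i)) := by
    intro i
    rw [rM_of]
    have h := eqv_gx i
    constructor
    · exact (aD_mk _).trans (congrArg _ h.D00)
    · exact (aD_mk _).trans ((congrArg _ h.D01).trans (map_add _ _ _))
    · exact (aD_mk _).trans ((congrArg _ h.D10).trans (map_zero _))
    · exact (aD_mk _).trans (congrArg _ h.D11)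
    · exact (aE_mk _).trans (congrArg _ h.E00)
    · exact (aE_mk _).trans ((congrArg _ h.E01).trans (map_zero _))
    · exact (aE_mk _).trans ((congrArg _ h.E10).trans (map_add _ _ _))
    · exact (aE_mk _).trans (congrArg _ h.E11)
  induction w using FreeGroup.induction_on with
  | C1 => rw [rM_one]; exact Eqv.one
  | of i => exact h1 i
  | inv_of i _ => rw [rM_inv]; exact (h1 i).adj
  | mul w y hw hy => rw [rM_mul]; exact hw.mul hy

/-- the trace of `w` -/
noncomputable def rT (w : FreeGroup I) : AR I := (rM w).trace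

theorem rT_eq (w : FreeGroup I) : rT w = rM w 0 0 + rM w 1 1 := Matrix.trace_fin_two _

theorem ivt_rT (w : FreeGroup I) : Ivt aD aE (rT w) := (eqv_rM w).tr

end gr

end Pool.Agent.SuF
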