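import Pool.Agent.Lib.MP_305fdd_al.Su.F.Fed

/-!
# MP_305fdd_al, surface groups, block F: the relations for equivariant matrices

`D`, `E` are the infinitesimal conjugations by `e₁₂`, `e₂₁` (characteristic two), `C` an additive map
which kills the images of `D` and `E` (a Cartier operator which is invariant under conjugation).
-/

set_option autoImplicit false

namespace Pool.Agent.SuF

section rel

variable {R : Type} [CommRing R] [Algebra (ZMod 2) R]

/-- `C` kills the images of `D` and `E` -/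
structure Inv (C : R →+ R) (D E : Derivation (ZMod 2) R R) : Prop where
  cD : ∀ f, C (D f) = 0
  cE : ∀ f, C (E f) = 0

/-- the matrix `w` is equivariant: `D w = [e₁₂, w]`, `E w = [e₂₁, w]` -/
structure Eqv (D E : Derivation (ZMod 2) R R) (w : Matrix (Fin 2) (Fin 2) R) : Prop where
  D00 : D (w 0 0) = w 1 0
  D01 : D (w 0 1) = w 0 0 + w 1 1
  D10 : D (w 1 0) = 0
  D11 : D (w 1 1) = w 1 0
  E00 : E (w 0 0) = w 0 1
  E01 : E (w 0 1) = 0
  E10 : E (w 1 0) = w 0 0 + w 1 1
  E11 : E (w 1 1) = w 0 1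

/-- `k` is an infinitesimal invariant -/
structure Ivt (D E : Derivation (ZMod 2) R R) (k : R) : Prop where
  D : D k = 0
  E : E k = 0

theorem addSelf (f : R) : f + f = 0 := by
  have h := two_zero R
  linear_combination f * h

theorem negSelf (f : R) : -f = f := by
  have h := two_zero R
  linear_combination (-f) * h

theorem eq_of_add {f g : R} (h : f + g = 0) : f = g := by
  have h1 := addSelf g
  linear_combination h - h1

variable {D E : Derivation (ZMod 2) R R}

namespace Ivt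

theorem zero : Ivt D E (0 : R) := ⟨map_zero _, map_zero _⟩

theorem one : Ivt D E (1 : R) := ⟨D.map_one_eq_zero, E.map_one_eq_zero⟩

theorem add {k l : R} (h : Ivt D E k) (h' : Ivt D E l) : Ivt D E (k + l) :=
  ⟨by rw [map_add, h.D, h'.D, add_zero], by rw [map_add, h.E, h'.E, add_zero]⟩

theorem mul {k l : R} (h : Ivt D E k) (h' : Ivt D E l) : Ivt D E (k * l) :=
  ⟨by rw [D.leibniz, h.D, h'.D, smul_zero, smul_zero, add_zero],
    by rw [E.leibniz, h.E, h'.E, smul_zero, smul_zero, add_zero]⟩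

theorem sq (k : R) : Ivt D E (k ^ 2) := by
  constructor
  · have := der_sq D k 1
    rwa [mul_one, D.map_one_eq_zero, mul_zero] at this
  · have := der_sq E k 1
    rwa [mul_one, E.map_one_eq_zero, mul_zero] at this

end Ivt

namespace Eqv

theorem one : Eqv D E (1 : Matrix (Fin 2) (Fin 2) R) := by
  constructor <;> simp [addSelf]

theorem mul {w y : Matrix (Fin 2) (Fin 2) R} (hw : Eqv D E w) (hy : Eqv D E y) :
    Eqv D E (w * y) := by
  have h2 := two_zero R
  constructor <;> simp only [Matrix.mul_apply, Fin.sum_univ_two, map_add, Derivation.leibniz,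
    smul_eq_mul, hw.D00, hw.D01, hw.D10, hw.D11, hw.E00, hw.E01, hw.E10, hw.E11, hy.D00, hy.D01,
    hy.D10, hy.D11, hy.E00, hy.E01, hy.E10, hy.E11]
  · linear_combination (w 0 0 * y 1 0) * h2
  · linear_combination (w 0 0 * y 1 1) * h2
  · linear_combination (w 1 0 * y 1 0) * h2
  · linear_combination (w 1 0 * y 1 1) * h2
  · linear_combination (w 0 1 * y 0 0) * h2
  · linear_combination (w 0 1 * y 0 1) * h2
  · linear_combination (w 1 1 * y 0 0) * h2
  · linear_combination (w 1 1 * y 0 1) * h2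

theorem add {w y : Matrix (Fin 2) (Fin 2) R} (hw : Eqv D E w) (hy : Eqv D E y) :
    Eqv D E (w + y) := by
  constructor <;> simp only [Matrix.add_apply, map_add, hw.D00, hw.D01, hw.D10, hw.D11, hw.E00,
    hw.E01, hw.E10, hw.E11, hy.D00, hy.D01, hy.D10, hy.D11, hy.E00, hy.E01, hy.E10, hy.E11] <;> ring

theorem smul {w : Matrix (Fin 2) (Fin 2) R} (hw : Eqv D E w) {k : R} (hk : Ivt D E k) :
    Eqv D E (k • w) := by
  constructor <;> simp only [Matrix.smul_apply, smul_eq_mul, Derivation.leibniz, hk.D, hk.E, hw.D00,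
    hw.D01, hw.D10, hw.D11, hw.E00, hw.E01, hw.E10, hw.E11] <;> ring

/-- the adjugate -/
theorem adj {w : Matrix (Fin 2) (Fin 2) R} (hw : Eqv D E w) : Eqv D E w.adjugate := by
  rw [Matrix.adjugate_fin_two]
  constructor <;> simp [hw.D00, hw.D01, hw.D10, hw.D11, hw.E00, hw.E01, hw.E10, hw.E11, negSelf,
    add_comm]

/-- the trace is an infinitesimal invariant -/
theorem tr {w : Matrix (Fin 2) (Fin 2) R} (hw : Eqv D E w) : Ivt D E w.trace := by
  rw [Matrix.trace_fin_two]
  constructor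
  · rw [map_add, hw.D00, hw.D11, addSelf]
  · rw [map_add, hw.E00, hw.E11, addSelf]

theorem trm {w y : Matrix (Fin 2) (Fin 2) R} (hw : Eqv D E w) (hy : Eqv D E y) :
    Ivt D E (w * y).trace := (hw.mul hy).tr

end Eqv

variable {C : R →+ R}

/-! ## The relations of degree one -/

theorem rel01 (hC : Inv C D E) {k : R} (hk : Ivt D E k) {w : Matrix (Fin 2) (Fin 2) R}
    (hw : Eqv D E w) : C (k * w 0 1) = 0 := by
  have h := hC.cE (k * w 0 0)
  rwa [E.leibniz, hw.E00, hk.E, smul_zero, add_zero, smul_eq_mul] at h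

theorem rel10 (hC : Inv C D E) {k : R} (hk : Ivt D E k) {w : Matrix (Fin 2) (Fin 2) R}
    (hw : Eqv D E w) : C (k * w 1 0) = 0 := by
  have h := hC.cD (k * w 0 0)
  rwa [D.leibniz, hw.D00, hk.D, smul_zero, add_zero, smul_eq_mul] at h

theorem relTr (hC : Inv C D E) {k : R} (hk : Ivt D E k) {w : Matrix (Fin 2) (Fin 2) R}
    (hw : Eqv D E w) : C (k * w.trace) = 0 := by
  have h := hC.cD (k * w 0 1)
  rwa [D.leibniz, hw.D01, hk.D, smul_zero, add_zero, smul_eq_mul, ← Matrix.trace_fin_two] at h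

theorem rel11 (hC : Inv C D E) {k : R} (hk : Ivt D E k) {w : Matrix (Fin 2) (Fin 2) R}
    (hw : Eqv D E w) : C (k * w 1 1) = C (k * w 0 0) := by
  have h := relTr hC hk hw
  rw [Matrix.trace_fin_two, mul_add, map_add] at h
  exact (eq_of_add h).symm

/-! ## The relations of degree two -/

theorem relA (hC : Inv C D E) {k : R} (hk : Ivt D E k) {w y : Matrix (Fin 2) (Fin 2) R}
    (hw : Eqv D E w) (hy : Eqv D E y) :
    C (k * (w 0 1 * y 1 0)) = C (k * (w.trace * y 0 0)) := by
  have h := hC.cD (k * (w 0 1 * y 0 0))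
  rw [D.leibniz, hk.D, smul_zero, add_zero, D.leibniz, hw.D01, hy.D00, smul_eq_mul, smul_eq_mul,
    smul_eq_mul, mul_add, map_add, mul_comm (y 0 0), ← Matrix.trace_fin_two] at h
  exact eq_of_add h

theorem relB (hC : Inv C D E) {k : R} (hk : Ivt D E k) {w y : Matrix (Fin 2) (Fin 2) R}
    (hw : Eqv D E w) (hy : Eqv D E y) :
    C (k * (w 1 0 * y 0 1)) = C (k * (w.trace * y 0 0)) := by
  have h := hC.cE (k * (w 1 0 * y 0 0))
  rw [E.leibniz, hk.E, smul_zero, add_zero, E.leibniz, hw.E10, hy.E00, smul_eq_mul, smul_eq_mul,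
    smul_eq_mul, mul_add, map_add, mul_comm (y 0 0), ← Matrix.trace_fin_two] at h
  exact eq_of_add h

theorem relC (hC : Inv C D E) {k : R} (hk : Ivt D E k) {w y : Matrix (Fin 2) (Fin 2) R}
    (hw : Eqv D E w) (hy : Eqv D E y) :
    C (k * (w 1 0 * y 0 1)) = C (k * (w 0 0 * y.trace)) := by
  have h := hC.cD (k * (w 0 0 * y 0 1))
  rw [D.leibniz, hk.D, smul_zero, add_zero, D.leibniz, hw.D00, hy.D01, smul_eq_mul, smul_eq_mul,
    smul_eq_mul, mul_add, map_add, mul_comm (y 0 1), ← Matrix.trace_fin_two, add_comm] at h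
  exact eq_of_add h

/-- **Formula (F)**: `C (k T(w) y₁₁) = C (k T(y) w₁₁)`. -/
theorem relF (hC : Inv C D E) {k : R} (hk : Ivt D E k) {w y : Matrix (Fin 2) (Fin 2) R}
    (hw : Eqv D E w) (hy : Eqv D E y) :
    C (k * (w.trace * y 0 0)) = C (k * (y.trace * w 0 0)) := by
  rw [← relB hC hk hw hy, relC hC hk hw hy, mul_comm (w 0 0)]

/-- `C (k w₁₁ y₁₁) = C (k (w y⁻¹)₁₁)` -/
theorem relM (hC : Inv C D E) {k : R} (hk : Ivt D E k) {w y : Matrix (Fin 2) (Fin 2) R}
    (hw : Eqv D E w) (hy : Eqv D E y) :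
    C (k * (w 0 0 * y 0 0)) = C (k * (w * y.adjugate) 0 0) := by
  have h1 := relA hC hk hw hy
  have h2 := relF hC hk hw hy
  rw [Matrix.mul_apply, Fin.sum_univ_two, Matrix.adjugate_fin_two]
  simp only [Matrix.of_apply, Matrix.cons_val', Matrix.cons_val_zero, Matrix.cons_val_one,
    Matrix.cons_val_fin_one]
  rw [negSelf, mul_add, map_add, h1, h2, Matrix.trace_fin_two, add_mul, mul_add k, map_add,
    mul_comm (y 1 1) (w 0 0), mul_comm (y 0 0) (w 0 0)]
  have h3 := addSelf (C (k * (w 0 0 * y 1 1)))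
  linear_combination - h3

end rel

end Pool.Agent.SuF
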