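import Pool.Agent.Lib.MP_305fdd_al.Su.F.Gr

/-!
# MP_305fdd_al, surface groups, block F: one relation, formula (F) and the Frobenius neighbourhood of
the trivial representation

`z` is a word.  `RZ z` is the ring of functions of the scheme of the representations with `ρ(z) = 1`,
`CR z` its Cartier operator (residue of the one of `SL_2 ^ I`).
-/

set_option autoImplicit false
set_option linter.unusedSectionVars false

namespace Pool.Agent.SuF

section rep

variable {I : Type} [Fintype I]

/-- the generators `z₁₁ + 1, z₁₂, z₂₁` of the ideal of `ρ(z) = 1` -/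
noncomputable def zg (z : FreeGroup I) (j : Fin 3) : AR I :=
  if j = 0 then rM z 0 0 + 1 else if j = 1 then rM z 0 1 else rM z 1 0

theorem zg_prod (z : FreeGroup I) : ∏ j, zg z j = (rM z 0 0 + 1) * rM z 0 1 * rM z 1 0 := by
  rw [Fin.prod_univ_three]
  simp [zg]

/-- the ideal of `ρ(z) = 1` -/
noncomputable def JZ (z : FreeGroup I) : Ideal (AR I) := Ideal.span (Set.range (zg z))

theorem zg_mem (z : FreeGroup I) (j : Fin 3) : zg z j ∈ JZ z := Ideal.subset_span ⟨j, rfl⟩

theorem z00_mem (z : FreeGroup I) : rM z 0 0 + 1 ∈ JZ z := zg_mem z 0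

theorem z01_mem (z : FreeGroup I) : rM z 0 1 ∈ JZ z := zg_mem z 1

theorem z10_mem (z : FreeGroup I) : rM z 1 0 ∈ JZ z := by
  have := zg_mem z 2
  simpa [zg] using this

theorem det_eq (z : FreeGroup I) : rM z 0 0 * rM z 1 1 + rM z 0 1 * rM z 1 0 = 1 := by
  have h := det_rM z
  rw [Matrix.det_fin_two] at h
  have h2 := two_zero (AR I)
  linear_combination h + (rM z 0 1 * rM z 1 0) * h2

theorem tr_mul (z : FreeGroup I) : rM z 0 0 + rM z 1 1 =
    (rM z 1 1 + 1) * (rM z 0 0 + 1) + rM z 1 0 * rM z 0 1 := by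
  have h := det_eq z
  have h2 := two_zero (AR I)
  linear_combination -h - h2

theorem z11_mem (z : FreeGroup I) : rM z 1 1 + 1 ∈ JZ z := by
  have h : rM z 1 1 + 1 = ((rM z 1 1 + 1) * (rM z 0 0 + 1) + rM z 1 0 * rM z 0 1) +
      (rM z 0 0 + 1) := by
    rw [← tr_mul]
    have h2 := two_zero (AR I)
    linear_combination - (rM z 0 0) * h2
  rw [h]
  exact add_mem (add_mem (Ideal.mul_mem_left _ _ (z00_mem z)) (Ideal.mul_mem_left _ _ (z01_mem z)))
    (z00_mem z)

/-- the ring of functions of the scheme of the representations with `ρ(z) = 1` -/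
def RZ (z : FreeGroup I) : Type := AR I ⧸ JZ z

noncomputable instance (z : FreeGroup I) : CommRing (RZ z) :=
  inferInstanceAs (CommRing (AR I ⧸ JZ z))

noncomputable instance (z : FreeGroup I) : Algebra (ZMod 2) (RZ z) :=
  inferInstanceAs (Algebra (ZMod 2) (AR I ⧸ JZ z))

/-- the projection -/
noncomputable def zmk (z : FreeGroup I) : AR I →+* RZ z := Ideal.Quotient.mk (JZ z)

theorem zmk_surj (z : FreeGroup I) : Function.Surjective (zmk z) := Ideal.Quotient.mk_surjective

theorem zmk_eq_zero (z : FreeGroup I) (f : AR I) : zmk z f = 0 ↔ f ∈ JZ z :=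
  Ideal.Quotient.eq_zero_iff_mem

/-- the Cartier operator of this scheme -/
noncomputable def CR (z : FreeGroup I) : RZ z →+ RZ z :=
  quo CG (JZ z) (∏ j, zg z j) (quo_mem CG CG_sq_mul (zg z))

theorem CR_mk (z : FreeGroup I) (f : AR I) : CR z (zmk z f) =
    zmk z (CG (f * ∏ j, zg z j)) := rfl

theorem CR_sq_mul (z : FreeGroup I) (f g : RZ z) : CR z (f ^ 2 * g) = f * CR z g :=
  quo_sq_mul _ CG_sq_mul _ _ _ _ _

/-- the matrix of the coefficients of `D zg` -/
noncomputable def bD (z : FreeGroup I) (i j : Fin 3) : AR I :=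
  if i = 0 then (if j = 2 then 1 else 0) else
    if i = 1 then (if j = 0 then rM z 1 1 + 1 else if j = 1 then rM z 1 0 else 0) else 0

/-- the matrix of the coefficients of `E zg` -/
noncomputable def bE (z : FreeGroup I) (i j : Fin 3) : AR I :=
  if i = 0 then (if j = 1 then 1 else 0) else
    if i = 1 then 0 else
      (if j = 0 then rM z 1 1 + 1 else if j = 1 then 0 else rM z 0 1)

theorem aD_zg (z : FreeGroup I) (i : Fin 3) : aD (zg z i) = ∑ j, bD z i j * zg z j := by
  have h := eqv_rM z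
  rw [Fin.sum_univ_three]
  fin_cases i
  · simp [zg, bD, h.D00]
  · simp [zg, bD, h.D01, tr_mul z]
  · simp [zg, bD, h.D10]

theorem aE_zg (z : FreeGroup I) (i : Fin 3) : aE (zg z i) = ∑ j, bE z i j * zg z j := by
  have h := eqv_rM z
  rw [Fin.sum_univ_three]
  fin_cases i
  · simp [zg, bE, h.E00]
  · simp [zg, bE, h.E01]
  · simp [zg, bE, h.E10, tr_mul z, mul_comm (rM z 1 0)]

theorem aD_JZ (z : FreeGroup I) : ∀ f ∈ JZ z, aD f ∈ JZ z := by
  refine der_span _ _ ?_
  rintro f ⟨i, rfl⟩
  rw [aD_zg]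
  exact sum_mem fun j _ => Ideal.mul_mem_left _ _ (zg_mem z j)

theorem aE_JZ (z : FreeGroup I) : ∀ f ∈ JZ z, aE f ∈ JZ z := by
  refine der_span _ _ ?_
  rintro f ⟨i, rfl⟩
  rw [aE_zg]
  exact sum_mem fun j _ => Ideal.mul_mem_left _ _ (zg_mem z j)

/-- the infinitesimal conjugation by `e₁₂` -/
noncomputable def zD (z : FreeGroup I) : Derivation (ZMod 2) (RZ z) (RZ z) :=
  derQ aD (JZ z) (aD_JZ z)

/-- the infinitesimal conjugation by `e₂₁` -/
noncomputable def zE (z : FreeGroup I) : Derivation (ZMod 2) (RZ z) (RZ z) :=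
  derQ aE (JZ z) (aE_JZ z)

/-- the Cartier operator is invariant under conjugation -/
theorem inv_CR (z : FreeGroup I) : Inv (CR z) (zD z) (zE z) := by
  constructor
  · intro f
    obtain ⟨f, rfl⟩ := zmk_surj z f
    change zmk z (CG (aD f * ∏ j, zg z j)) = 0
    rw [zmk_eq_zero]
    refine quo_der CG CG_sq_mul aD inv_CG.cD (zg z) (bD z) (aD_zg z) ?_ f
    rw [Fin.sum_univ_three]
    have : bD z 0 0 + bD z 1 1 + bD z 2 2 = rM z 1 0 := by simp [bD]
    rw [this]
    exact z10_mem z
  · intro f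
    obtain ⟨f, rfl⟩ := zmk_surj z f
    change zmk z (CG (aE f * ∏ j, zg z j)) = 0
    rw [zmk_eq_zero]
    refine quo_der CG CG_sq_mul aE inv_CG.cE (zg z) (bE z) (aE_zg z) ?_ f
    rw [Fin.sum_univ_three]
    have : bE z 0 0 + bE z 1 1 + bE z 2 2 = rM z 0 1 := by simp [bE]
    rw [this]
    exact z01_mem z

/-- the matrix of `w` over `RZ z` -/
noncomputable def zM (z w : FreeGroup I) : Matrix (Fin 2) (Fin 2) (RZ z) :=
  (rM w).map (zmk z)

theorem zM_apply (z w : FreeGroup I) (i j : Fin 2) :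
    zM z w i j = zmk z (rM w i j) := rfl

theorem zM_mul (z w y : FreeGroup I) : zM z (w * y) = zM z w * zM z y := by
  rw [zM, rM_mul, Matrix.map_mul]
  rfl

theorem zM_self (z : FreeGroup I) : zM z z = 1 := by
  have h0 : zM z z 0 0 = 1 := by
    have h := (zmk_eq_zero z _).2 (z00_mem z)
    rw [map_add, map_one] at h
    rw [zM_apply, eq_of_add h]
  have h1 : zM z z 1 1 = 1 := by
    have h := (zmk_eq_zero z _).2 (z11_mem z)
    rw [map_add, map_one] at h
    rw [zM_apply, eq_of_add h]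
  have h2 : zM z z 0 1 = 0 := (zmk_eq_zero z _).2 (z01_mem z)
  have h3 : zM z z 1 0 = 0 := (zmk_eq_zero z _).2 (z10_mem z)
  ext i j
  fin_cases i <;> fin_cases j <;> simp [h0, h1, h2, h3]

theorem eqv_zM (z w : FreeGroup I) : Eqv (zD z) (zE z) (zM z w) := by
  have h := eqv_rM w
  constructor
  · exact congrArg (zmk z) h.D00
  · exact (congrArg (zmk z) h.D01).trans (map_add _ _ _)
  · exact (congrArg (zmk z) h.D10).trans (map_zero _)
  · exact congrArg (zmk z) h.D11
  · exact congrArg (zmk z) h.E00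
  · exact (congrArg (zmk z) h.E01).trans (map_zero _)
  · exact (congrArg (zmk z) h.E10).trans (map_add _ _ _)
  · exact congrArg (zmk z) h.E11

theorem ivt_mk (z : FreeGroup I) {k : AR I} (hk : Ivt aD aE k) :
    Ivt (zD z) (zE z) (zmk z k) :=
  ⟨(congrArg (zmk z) hk.D).trans (map_zero _),
    (congrArg (zmk z) hk.E).trans (map_zero _)⟩

theorem zg_prod_eq (z : FreeGroup I) : ∏ j, zg z j = rT z * (rM z 0 0 + 1) +
    (rM z 0 0 + 1) ^ 2 * (rM z 0 0 + 1 + rT z) := by
  have h := det_eq z
  have h2 := two_zero (AR I)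
  rw [zg_prod, rT_eq]
  linear_combination (rM z 0 0 + 1) * h - ((rM z 0 0 + 1) *
    (rM z 0 0 * rM z 1 1 + 2 * rM z 0 0 + rM z 1 1 + rM z 0 0 ^ 2)) * h2

/-- `C_Rep f = C_G (f T(z) (z₁₁ + 1))` -/
theorem CR_mk' (z : FreeGroup I) (f : AR I) : CR z (zmk z f) =
    zmk z (CG (f * (rT z * (rM z 0 0 + 1)))) := by
  rw [CR_mk, ← sub_eq_zero, ← map_sub, zmk_eq_zero, zg_prod_eq, mul_add, map_add,
    add_sub_cancel_left]
  have : f * ((rM z 0 0 + 1) ^ 2 * (rM z 0 0 + 1 + rT z)) =
    (rM z 0 0 + 1) ^ 2 * (f * (rM z 0 0 + 1 + rT z)) := by ring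
  rw [this, CG_sq_mul]
  exact Ideal.mul_mem_right _ _ (z00_mem z)

/-- **Formula (F) for one relation.** -/
theorem CR_word (z : FreeGroup I) {k : AR I} (hk : Ivt aD aE k) (w : FreeGroup I) :
    CR z (zmk z (k * rM w 0 0)) =
      zmk z (CG (k * rT z * (rM (w * z⁻¹) 0 0 + rM w 0 0))) := by
  rw [CR_mk']
  have h : k * rM w 0 0 * (rT z * (rM z 0 0 + 1)) = k * rT z * (rM w 0 0 * rM z 0 0) +
      k * rT z * rM w 0 0 := by ring
  rw [h, map_add, relM inv_CG (hk.mul (ivt_rT z)) (eqv_rM w) (eqv_rM z), ← rM_inv, ← rM_mul,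
    mul_add (k * rT z), map_add CG]

end rep

/-! ## The Frobenius neighbourhood of the trivial representation -/

section fed

variable {I : Type} [Fintype I]

open MvPolynomial in
/-- the trivial representation -/
noncomputable def eps : AR I →+* ZMod 2 :=
  Ideal.Quotient.lift (idl gr) (MvPolynomial.aeval (R := ZMod 2)
    (fun s : I × Fin 2 × Fin 2 => if s.2.1 = s.2.2 then (1 : ZMod 2) else 0)).toRingHom (by
      intro f hf
      refine idl_induction gr (P := fun f => (MvPolynomial.aeval (R := ZMod 2)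
        (fun s : I × Fin 2 × Fin 2 => if s.2.1 = s.2.2 then (1 : ZMod 2) else 0)).toRingHom f = 0)
        ?_ ?_ ?_ hf
      · exact map_zero _
      · intro f g h1 h2
        rw [map_add, h1, h2, add_zero]
      · intro c i
        rw [map_mul]
        have : (MvPolynomial.aeval (R := ZMod 2)
          (fun s : I × Fin 2 × Fin 2 => if s.2.1 = s.2.2 then (1 : ZMod 2) else 0)).toRingHom (gr i)
          = 0 := by
          simp [gr, Matrix.det_fin_two, gx]
          rfl
        rw [this, mul_zero])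

open MvPolynomial in
theorem eps_X (i : I) (a b : Fin 2) : eps (amk (X (i, a, b))) = if a = b then 1 else 0 := by
  change (MvPolynomial.aeval (R := ZMod 2)
    (fun s : I × Fin 2 × Fin 2 => if s.2.1 = s.2.2 then (1 : ZMod 2) else 0)) (X (i, a, b)) = _
  rw [aeval_X]

/-- the trivial representation on words -/
theorem eps_rM (w : FreeGroup I) : (rM w).map eps = 1 := by
  have h : (Matrix.SpecialLinearGroup.map eps).comp rho = (1 : FreeGroup I →* _) := by
    ext i a b
    simp only [MonoidHom.coe_comp, Function.comp_apply, MonoidHom.one_apply]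
    change eps (rM (FreeGroup.of i) a b) = _
    rw [rM_of]
    change eps (amk (MvPolynomial.X (i, a, b))) = _
    rw [eps_X]
    rfl
  have h1 := DFunLike.congr_fun h w
  exact congrArg (fun x : Matrix.SpecialLinearGroup (Fin 2) (ZMod 2) => x.1) h1

theorem eps_rM_apply (w : FreeGroup I) (i j : Fin 2) : eps (rM w i j) = if i = j then 1 else 0 := by
  have h := congrFun (congrFun (eps_rM w) i) j
  rw [Matrix.map_apply, Matrix.one_apply] at h
  exact h

theorem eps_rT (w : FreeGroup I) : eps (rT w) = 0 := by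
  rw [rT_eq, map_add, eps_rM_apply, eps_rM_apply]
  rfl

/-- the ideal generated by the squares of the functions which vanish at the trivial representation -/
noncomputable def M2 (I : Type) [Fintype I] : Ideal (AR I) :=
  Ideal.span {f | ∃ u : AR I, eps u = 0 ∧ f = u ^ 2}

theorem eps_CG_M2 {f : AR I} (hf : f ∈ M2 I) (g : AR I) : eps (CG (g * f)) = 0 := by
  revert g
  refine Submodule.span_induction (p := fun f _ => ∀ g : AR I, eps (CG (g * f)) = 0)
    ?_ ?_ ?_ ?_ hf
  · rintro _ ⟨u, hu, rfl⟩ g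
    rw [mul_comm, CG_sq_mul, map_mul, hu, zero_mul]
  · intro g
    rw [mul_zero, map_zero, map_zero]
  · intro x y _ _ hx hy g
    rw [mul_add, map_add, map_add, hx, hy, add_zero]
  · intro a x _ hx g
    rw [smul_eq_mul, ← mul_assoc]
    exact hx _

/-- The kernel of Frobenius of `SL_2` in characteristic two is a Heisenberg group: commutators are
scalar. -/
theorem heis {G Q : Type} [Group G] [CommRing Q] [Algebra (ZMod 2) Q]
    (r : G →* Matrix.SpecialLinearGroup (Fin 2) Q) (h0 : ∀ g, (r g).1 0 0 ^ 2 = 1)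
    (h1 : ∀ g, (r g).1 0 1 ^ 2 = 0) (h2 : ∀ g, (r g).1 1 0 ^ 2 = 0) {z : G}
    (hz : z ∈ commutator G) : (r z).1.trace = 0 := by
  have htwo := two_zero Q
  have hdet : ∀ g, (r g).1 0 0 * (r g).1 1 1 + (r g).1 0 1 * (r g).1 1 0 = 1 := by
    intro g
    have h := (r g).2
    rw [Matrix.det_fin_two] at h
    linear_combination h + ((r g).1 0 1 * (r g).1 1 0) * htwo
  let v : G →* Multiplicative (Q × Q) :=
    { toFun := fun g => Multiplicative.ofAdd ((r g).1 0 1 * (r g).1 0 0, (r g).1 1 0 * (r g).1 0 0)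
      map_one' := by
        rw [map_one]
        simp
      map_mul' := by
        intro g h
        rw [← ofAdd_add, map_mul]
        congr 1
        have e1 := hdet h
        have e2 := h0 g
        have e3 := h0 h
        have e4 := h1 g
        have e5 := h2 h
        change ((((r g).1 * (r h).1) 0 1) * (((r g).1 * (r h).1) 0 0),
          (((r g).1 * (r h).1) 1 0) * (((r g).1 * (r h).1) 0 0)) = _
        rw [Matrix.mul_apply, Matrix.mul_apply, Matrix.mul_apply, Fin.sum_univ_two,
          Fin.sum_univ_two, Fin.sum_univ_two, Prod.mk_add_mk]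
        refine Prod.ext ?_ ?_
        · change _ = (r g).1 0 1 * (r g).1 0 0 + (r h).1 0 1 * (r h).1 0 0
          linear_combination ((r h).1 0 0 * (r h).1 0 1) * e2 +
            ((r h).1 1 0 * (r h).1 1 1) * e4 + ((r g).1 0 0 * (r g).1 0 1) * e1
        · change _ = (r g).1 1 0 * (r g).1 0 0 + (r h).1 1 0 * (r h).1 0 0
          have e6 := hdet g
          linear_combination ((r g).1 1 0 * (r g).1 0 0) * e3 +
            ((r g).1 1 1 * (r g).1 0 1) * e5 + ((r h).1 0 0 * (r h).1 1 0) * e6 }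
  have hk : v z = 1 := by
    have := Abelianization.commutator_subset_ker v hz
    exact this
  have hk' : ((r z).1 0 1 * (r z).1 0 0, (r z).1 1 0 * (r z).1 0 0) = (0, 0) := hk
  rw [Prod.mk.injEq] at hk'
  obtain ⟨k1, k2⟩ := hk'
  have e1 := hdet z
  have e2 := h0 z
  have e3 : (r z).1 0 1 = 0 := by linear_combination (r z).1 0 0 * k1 - (r z).1 0 1 * e2
  have e4 : (r z).1 1 1 = (r z).1 0 0 := by
    linear_combination (r z).1 0 0 * e1 - (r z).1 1 1 * e2 - ((r z).1 0 0 * (r z).1 1 0) * e3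
  rw [Matrix.trace_fin_two, e4]
  linear_combination (r z).1 0 0 * htwo

/-- `T(z)` is in the ideal of the squares, if `z` is a product of commutators. -/
theorem rT_mem_M2 {z : FreeGroup I} (hz : z ∈ commutator (FreeGroup I)) : rT z ∈ M2 I := by
  have hsq : ∀ u : AR I, eps u = 0 → Ideal.Quotient.mk (M2 I) (u ^ 2) = 0 := fun u hu =>
    Ideal.Quotient.eq_zero_iff_mem.2 (Ideal.subset_span ⟨u, hu, rfl⟩)
  have htwo : (2 : AR I ⧸ M2 I) = 0 := by
    have := two_zero (AR I)
    rw [← map_ofNat (Ideal.Quotient.mk (M2 I)) 2, this, map_zero]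
  have h := heis ((Matrix.SpecialLinearGroup.map (Ideal.Quotient.mk (M2 I))).comp
    (rho : FreeGroup I →* _)) ?_ ?_ ?_ hz
  · rw [← Ideal.Quotient.eq_zero_iff_mem, rT_eq, map_add]
    rw [Matrix.trace_fin_two] at h
    exact h
  · intro g
    have h1 := hsq (rM g 0 0 + 1) (by rw [map_add, eps_rM_apply, map_one]; rfl)
    have h2 : (Ideal.Quotient.mk (M2 I) (rM g 0 0)) ^ 2 = 1 := by
      rw [map_pow, map_add, map_one] at h1
      linear_combination h1 - (Ideal.Quotient.mk (M2 I) (rM g 0 0) + 1) * htwo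
    exact h2
  · intro g
    have h1 := hsq (rM g 0 1) (by rw [eps_rM_apply]; rfl)
    rw [map_pow] at h1
    exact h1
  · intro g
    have h1 := hsq (rM g 1 0) (by rw [eps_rM_apply]; rfl)
    rw [map_pow] at h1
    exact h1

/-- **(FED)** -/
theorem eps_CG_rT {z : FreeGroup I} (hz : z ∈ commutator (FreeGroup I)) (f : AR I) :
    eps (CG (f * rT z)) = 0 := eps_CG_M2 (rT_mem_M2 hz) f

end fed

end Pool.Agent.SuF
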