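import Pool.Agent.Lib.MP_305fdd_al.Su.F.Rep

/-!
# MP_305fdd_al, surface groups, block F: the Cartier operator and triangular substitutions
-/

set_option autoImplicit false
set_option linter.unusedSectionVars false

namespace Pool.Agent.SuF

open MvPolynomial

section tri

variable {σ : Type} [Fintype σ]

/-- `car` commutes with the substitution `X a ↦ X a + q`, if `∂ q / ∂ X a = 0` -/
theorem car_tri (a : σ) (q : MvPolynomial σ (ZMod 2)) (hq : pderiv a q = 0)
    (φ : MvPolynomial σ (ZMod 2) →ₐ[ZMod 2] MvPolynomial σ (ZMod 2)) (ha : φ (X a) = X a + q)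
    (hb : ∀ b, b ≠ a → φ (X b) = X b) (f : MvPolynomial σ (ZMod 2)) : car (φ f) = φ (car f) := by
  classical
  refine ext_sq (Φ := fun f => car (φ f)) (Ψ := fun f => φ (car f)) ?_ ?_ (fun h m => φ h * m)
    ?_ ?_ ?_ f
  · intro f g
    rw [map_add, map_add]
  · intro f g
    rw [map_add, map_add]
  · intro h f
    rw [map_mul, map_pow, car_sq_mul]
  · intro h f
    rw [car_sq_mul, map_mul]
  · intro S
    have h0 : ∀ T : Finset σ, a ∉ T → φ (∏ s ∈ T, X s) = ∏ s ∈ T, X s := by
      intro T hT
      rw [map_prod]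
      refine Finset.prod_congr rfl fun s hs => hb s ?_
      rintro rfl
      exact hT hs
    have h1 : φ (car (∏ s ∈ S, (X s : MvPolynomial σ (ZMod 2)))) = car (∏ s ∈ S, X s) := by
      rw [car_sqf]
      split_ifs <;> simp
    rw [h1]
    by_cases hS : a ∈ S
    · rw [← Finset.mul_prod_erase S _ hS, map_mul, ha, h0 _ (Finset.notMem_erase a S), add_mul,
        map_add]
      have h2 : q * ∏ s ∈ S.erase a, (X s : MvPolynomial σ (ZMod 2)) =
          pderiv a (X a * (q * ∏ s ∈ S.erase a, (X s : MvPolynomial σ (ZMod 2)))) := by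
        rw [pderiv_mul, pderiv_mul, pderiv_X_self, hq,
          pderiv_sqf_of_notMem a _ (Finset.notMem_erase a S)]
        ring
      rw [h2, car_pderiv, add_zero]
    · rw [h0 S hS]

/-- `car` commutes with simultaneous substitutions `X a ↦ X a + q a`, `a ∈ U`, if the `q a` do not
involve the variables in `U` -/
theorem car_tri_set [DecidableEq σ] (q : σ → MvPolynomial σ (ZMod 2)) (U : Finset σ)
    (hq : ∀ a ∈ U, ∀ b ∈ U, pderiv b (q a) = 0)
    (hq' : ∀ a ∈ U, ∀ φ : MvPolynomial σ (ZMod 2) →ₐ[ZMod 2] MvPolynomial σ (ZMod 2),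
      (∀ b, b ∉ U → φ (X b) = X b) → φ (q a) = q a)
    (V : Finset σ) (hV : V ⊆ U) (f : MvPolynomial σ (ZMod 2)) :
    car (aeval (fun s => if s ∈ V then X s + q s else X s) f) =
      aeval (fun s => if s ∈ V then X s + q s else X s) (car f) := by
  classical
  induction V using Finset.induction_on generalizing f with
  | empty =>
    simp only [Finset.notMem_empty, if_false, aeval_X_left, AlgHom.coe_id, id_eq]
  | insert a V haV ih =>
    have haU : a ∈ U := hV (Finset.mem_insert_self _ _)
    have hVU : V ⊆ U := fun x hx => hV (Finset.mem_insert_of_mem hx)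
    have hfix : (aeval (fun s => if s ∈ V then X s + q s else X s) : MvPolynomial σ (ZMod 2) →ₐ[ZMod 2]
        MvPolynomial σ (ZMod 2)) (q a) = q a := by
      refine hq' a haU _ fun b hb => ?_
      rw [aeval_X, if_neg fun h => hb (hVU h)]
    have hcomp : (aeval (fun s => if s ∈ insert a V then X s + q s else X s) :
        MvPolynomial σ (ZMod 2) →ₐ[ZMod 2] MvPolynomial σ (ZMod 2)) =
        (aeval (fun s => if s ∈ V then X s + q s else X s)).comp
          (aeval (fun s => if s = a then X s + q s else X s)) := by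
      refine MvPolynomial.algHom_ext fun s => ?_
      rw [AlgHom.comp_apply, aeval_X, aeval_X]
      by_cases hs : s = a
      · subst hs
        rw [if_pos (Finset.mem_insert_self _ _), if_pos rfl, map_add, aeval_X, if_neg haV, hfix]
      · rw [if_neg hs, aeval_X]
        by_cases hs' : s ∈ V
        · rw [if_pos (Finset.mem_insert_of_mem hs'), if_pos hs']
        · rw [if_neg fun h => (Finset.mem_insert.1 h).elim hs hs', if_neg hs']
    rw [hcomp, AlgHom.comp_apply, AlgHom.comp_apply, ih hVU]
    congr 1
    refine car_tri a (q a) (hq a haU a haU) _ ?_ ?_ f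
    · rw [aeval_X, if_pos rfl]
    · intro b hb
      rw [aeval_X, if_neg hb]

end tri

end Pool.Agent.SuF
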