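import Mathlib

/-!
# MP_305fdd_al, surface groups, block F: invariants of vectors of `SL_2` over `F_2`

The ring of the invariants of `SL_2` acting on several vectors is generated by the brackets.
-/

set_option autoImplicit false
set_option linter.unusedSectionVars false

namespace Pool.Agent.SuF

open MvPolynomial

section defs

/-- the ring of functions of vectors `v_j`, `j ∈ J` -/
abbrev VR (J : Type) : Type := MvPolynomial (J × Fin 2) (ZMod 2)

/-- the multidegree of the variables -/
noncomputable def wt (J : Type) (s : J × Fin 2) : J →₀ ℕ := Finsupp.single s.1 1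

/-- multihomogeneous -/
def MH {J : Type} (f : VR J) (d : J →₀ ℕ) : Prop := IsWeightedHomogeneous (wt J) f d

/-- the bracket -/
noncomputable def br {J : Type} (i j : J) : VR J := X (i, 0) * X (j, 1) + X (i, 1) * X (j, 0)

/-- the monomials in the brackets -/
noncomputable def brm {J : Type} (L : List (J × J)) : VR J := (L.map fun p => br p.1 p.2).prod

/-- their multidegree -/
noncomputable def dg {J : Type} (L : List (J × J)) : J →₀ ℕ :=
  (L.map fun p => Finsupp.single p.1 1 + Finsupp.single p.2 1).sum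

/-- the span of the monomials of multidegree `d` in the brackets -/
noncomputable def BS {J : Type} (d : J →₀ ℕ) : Submodule (ZMod 2) (VR J) :=
  Submodule.span (ZMod 2) {f | ∃ L : List (J × J), dg L = d ∧ f = brm L}

variable {J : Type} {S : Type} [CommRing S] [Algebra (ZMod 2) S]

/-- evaluation at vectors -/
noncomputable def vev (v : J → Fin 2 → S) : VR J →ₐ[ZMod 2] S := aeval fun p => v p.1 p.2

theorem vev_X (v : J → Fin 2 → S) (j : J) (a : Fin 2) : vev v (X (j, a)) = v j a := by
  rw [vev, aeval_X]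

/-- invariant of `SL_2` -/
structure InvV (f : VR J) : Prop where
  D : ∀ (S : Type) [CommRing S] [Algebra (ZMod 2) S] (v : J → Fin 2 → S) (s : S),
    vev (fun j => ![v j 0 + s * v j 1, v j 1]) f = vev v f
  E : ∀ (S : Type) [CommRing S] [Algebra (ZMod 2) S] (v : J → Fin 2 → S) (s : S),
    vev (fun j => ![v j 0, v j 1 + s * v j 0]) f = vev v f

theorem InvV.add {f g : VR J} (hf : InvV f) (hg : InvV g) : InvV (f + g) :=
  ⟨fun S _ _ v s => by rw [map_add, map_add, hf.D, hg.D],
    fun S _ _ v s => by rw [map_add, map_add, hf.E, hg.E]⟩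

theorem InvV.sub {f g : VR J} (hf : InvV f) (hg : InvV g) : InvV (f - g) :=
  ⟨fun S _ _ v s => by rw [map_sub, map_sub, hf.D, hg.D],
    fun S _ _ v s => by rw [map_sub, map_sub, hf.E, hg.E]⟩

theorem InvV.mul {f g : VR J} (hf : InvV f) (hg : InvV g) : InvV (f * g) :=
  ⟨fun S _ _ v s => by rw [map_mul, map_mul, hf.D, hg.D],
    fun S _ _ v s => by rw [map_mul, map_mul, hf.E, hg.E]⟩

theorem InvV.zero : InvV (0 : VR J) :=
  ⟨fun S _ _ v s => by rw [map_zero, map_zero], fun S _ _ v s => by rw [map_zero, map_zero]⟩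

theorem InvV.one : InvV (1 : VR J) :=
  ⟨fun S _ _ v s => by rw [map_one, map_one], fun S _ _ v s => by rw [map_one, map_one]⟩

theorem two_zero' (A : Type) [CommRing A] [Algebra (ZMod 2) A] : (2 : A) = 0 := by
  have h : algebraMap (ZMod 2) A 2 = 2 := map_ofNat _ 2
  rw [← h, show (2 : ZMod 2) = 0 from rfl, map_zero]

theorem InvV.br (i j : J) : InvV (SuF.br i j) := by
  constructor
  · intro S _ _ v s
    have h2 := two_zero' S
    rw [SuF.br, map_add, map_mul, map_mul, map_add, map_mul, map_mul]
    simp only [vev_X, Matrix.cons_val_zero, Matrix.cons_val_one]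
    linear_combination (s * v i 1 * v j 1) * h2
  · intro S _ _ v s
    have h2 := two_zero' S
    rw [SuF.br, map_add, map_mul, map_mul, map_add, map_mul, map_mul]
    simp only [vev_X, Matrix.cons_val_zero, Matrix.cons_val_one]
    linear_combination (s * v i 0 * v j 0) * h2

theorem InvV.brm (L : List (J × J)) : InvV (SuF.brm L) := by
  induction L with
  | nil => exact InvV.one
  | cons p L ih =>
    have : SuF.brm (p :: L) = SuF.br p.1 p.2 * SuF.brm L := by
      rw [SuF.brm, List.map_cons, List.prod_cons]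
      rfl
    rw [this]
    exact (InvV.br _ _).mul ih

theorem invV_of_mem_BS {d : J →₀ ℕ} {f : VR J} (hf : f ∈ BS d) : InvV f := by
  refine Submodule.span_induction (p := fun f _ => InvV f) ?_ ?_ ?_ ?_ hf
  · rintro _ ⟨L, -, rfl⟩
    exact InvV.brm L
  · exact InvV.zero
  · intro f g _ _ hf hg
    exact hf.add hg
  · intro c f _ hf
    have hc : c = 0 ∨ c = 1 := by revert c; decide
    rcases hc with rfl | rfl
    · rw [zero_smul]; exact InvV.zero
    · rw [one_smul]; exact hf

/-! ## Change of the index set -/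

variable {J' : Type}

/-- the substitution of indices -/
noncomputable def rn (m : J → J') : VR J →ₐ[ZMod 2] VR J' := rename (Prod.map m id)

theorem rn_X (m : J → J') (j : J) (a : Fin 2) : rn m (X (j, a)) = X (m j, a) := by
  rw [rn, rename_X]
  rfl

theorem rn_br (m : J → J') (i j : J) : rn m (br i j) = br (m i) (m j) := by
  rw [br, map_add, map_mul, map_mul, rn_X, rn_X, rn_X, rn_X, br]

theorem rn_brm (m : J → J') (L : List (J × J)) : rn m (brm L) = brm (L.map (Prod.map m m)) := by
  rw [brm, map_list_prod, brm, List.map_map, List.map_map]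
  congr 1
  refine List.map_congr_left fun p _ => ?_
  simp [rn_br]

theorem dg_nil : dg ([] : List (J × J)) = 0 := by simp [dg]

theorem dg_cons (p : J × J) (L : List (J × J)) :
    dg (p :: L) = (Finsupp.single p.1 1 + Finsupp.single p.2 1) + dg L := by
  rw [dg, List.map_cons, List.sum_cons]
  rfl

theorem brm_nil : brm ([] : List (J × J)) = 1 := by simp [brm]

theorem brm_cons (p : J × J) (L : List (J × J)) : brm (p :: L) = br p.1 p.2 * brm L := by
  rw [brm, List.map_cons, List.prod_cons]
  rfl

theorem dg_map (m : J → J') (L : List (J × J)) :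
    dg (L.map (Prod.map m m)) = (dg L).mapDomain m := by
  induction L with
  | nil => rw [List.map_nil, dg_nil, dg_nil, Finsupp.mapDomain_zero]
  | cons p L ih =>
    rw [List.map_cons, dg_cons, dg_cons, ih,
      Finsupp.mapDomain_add, Finsupp.mapDomain_add, Finsupp.mapDomain_single,
      Finsupp.mapDomain_single]
    rfl

theorem vev_rn (m : J → J') (v : J' → Fin 2 → S) (f : VR J) :
    vev v (rn m f) = vev (fun j => v (m j)) f := by
  have h : ((vev v).comp (rn m) : VR J →ₐ[ZMod 2] S) = vev (fun j => v (m j)) := by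
    refine MvPolynomial.algHom_ext fun p => ?_
    obtain ⟨j, a⟩ := p
    rw [AlgHom.comp_apply, rn_X, vev_X, vev_X]
  exact AlgHom.congr_fun h f

theorem InvV.rn {f : VR J} (hf : InvV f) (m : J → J') : InvV (SuF.rn m f) :=
  ⟨fun S _ _ v s => by rw [vev_rn, vev_rn, hf.D S (fun j => v (m j)) s],
    fun S _ _ v s => by rw [vev_rn, vev_rn, hf.E S (fun j => v (m j)) s]⟩

theorem InvV.of_rn {f : VR J} (m : J → J') (n : J' → J) (hn : ∀ j, n (m j) = j)
    (hf : InvV (SuF.rn m f)) : InvV f := by
  have h : SuF.rn n (SuF.rn m f) = f := by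
    have h1 : ((SuF.rn n).comp (SuF.rn m) : VR J →ₐ[ZMod 2] VR J) = AlgHom.id _ _ := by
      refine MvPolynomial.algHom_ext fun p => ?_
      obtain ⟨j, a⟩ := p
      rw [AlgHom.comp_apply, rn_X, rn_X, hn, AlgHom.id_apply]
    exact AlgHom.congr_fun h1 f
  rw [← h]
  exact hf.rn n

theorem MH.ind {d : J →₀ ℕ} {P : VR J → Prop} (h0 : P 0)
    (hadd : ∀ f g, MH f d → MH g d → P f → P g → P (f + g))
    (hm : ∀ e : (J × Fin 2) →₀ ℕ, Finsupp.weight (wt J) e = d → P (monomial e 1)) {f : VR J}
    (hf : MH f d) : P f := by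
  refine IsWeightedHomogeneous.induction_on (motive := fun f _ => P f) h0 ?_ ?_ hf
  · intro p q hp hq h1 h2
    exact hadd p q hp hq h1 h2
  · intro e r hr
    have hc : r = 0 ∨ r = 1 := by revert r; decide
    rcases hc with rfl | rfl
    · rw [monomial_zero]; exact h0
    · exact hm e hr

theorem MH.mono {d : J →₀ ℕ} (e : (J × Fin 2) →₀ ℕ) (h : Finsupp.weight (wt J) e = d) :
    MH (monomial e (1 : ZMod 2)) d := isWeightedHomogeneous_monomial _ _ _ h

theorem MH.zero (d : J →₀ ℕ) : MH (0 : VR J) d := isWeightedHomogeneous_zero _ _ _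

theorem MH.add {d : J →₀ ℕ} {f g : VR J} (hf : MH f d) (hg : MH g d) : MH (f + g) d :=
  IsWeightedHomogeneous.add hf hg

theorem MH.sub {d : J →₀ ℕ} {f g : VR J} (hf : MH f d) (hg : MH g d) : MH (f - g) d := by
  rw [CharTwo.sub_eq_add]
  exact hf.add hg

theorem MH.mul {d d' : J →₀ ℕ} {f g : VR J} (hf : MH f d) (hg : MH g d') : MH (f * g) (d + d') :=
  IsWeightedHomogeneous.mul hf hg

theorem MH.br (i j : J) : MH (SuF.br i j) (Finsupp.single i 1 + Finsupp.single j 1) := by
  have h : ∀ (i : J) (a : Fin 2), MH (X (i, a) : VR J) (Finsupp.single i 1) := fun i a =>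
    isWeightedHomogeneous_X _ _ _
  exact ((h i 0).mul (h j 1)).add ((h i 1).mul (h j 0))

theorem MH.brm (L : List (J × J)) : MH (SuF.brm L) (dg L) := by
  induction L with
  | nil => rw [brm_nil, dg_nil]; exact isWeightedHomogeneous_one _ _
  | cons p L ih => rw [brm_cons, dg_cons]; exact (MH.br _ _).mul ih

theorem mh_of_mem_BS {d : J →₀ ℕ} {f : VR J} (hf : f ∈ BS d) : MH f d := by
  refine Submodule.span_induction (p := fun f _ => MH f d) ?_ ?_ ?_ ?_ hf
  · rintro _ ⟨L, rfl, rfl⟩
    exact MH.brm L
  · exact MH.zero d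
  · intro f g _ _ hf hg
    exact hf.add hg
  · intro c f _ hf
    have hc : c = 0 ∨ c = 1 := by revert c; decide
    rcases hc with rfl | rfl
    · rw [zero_smul]; exact MH.zero d
    · rw [one_smul]; exact hf

theorem weight_map (m : J → J') (e : (J × Fin 2) →₀ ℕ) :
    Finsupp.weight (wt J') (e.mapDomain (Prod.map m id)) = (Finsupp.weight (wt J) e).mapDomain m := by
  have h : (Finsupp.weight (wt J') : (J' × Fin 2 →₀ ℕ) →+ (J' →₀ ℕ)).comp
      (Finsupp.mapDomain.addMonoidHom (Prod.map m id)) =
      (Finsupp.mapDomain.addMonoidHom m).comp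
        (Finsupp.weight (wt J) : (J × Fin 2 →₀ ℕ) →+ (J →₀ ℕ)) := by
    refine Finsupp.addHom_ext fun p n => ?_
    simp only [AddMonoidHom.comp_apply, Finsupp.mapDomain.addMonoidHom_apply,
      Finsupp.mapDomain_single, Finsupp.weight_single, wt]
    rw [Finsupp.mapDomain_smul, Finsupp.mapDomain_single]
    rfl
  exact DFunLike.congr_fun h e

theorem MH.rn {f : VR J} {d : J →₀ ℕ} (hf : MH f d) (m : J → J') :
    MH (SuF.rn m f) (d.mapDomain m) := by
  refine MH.ind (P := fun f => MH (SuF.rn m f) (d.mapDomain m)) ?_ ?_ ?_ hf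
  · rw [map_zero]; exact MH.zero _
  · intro f g _ _ h1 h2
    rw [map_add]; exact h1.add h2
  · intro e he
    rw [SuF.rn, rename_monomial]
    refine MH.mono _ ?_
    rw [weight_map, he]

end defs

end Pool.Agent.SuF
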