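import Pool.Agent.Lib.MP_305fdd_al.Su.F.V1

/-!
# MP_305fdd_al, surface groups, block F: invariants of vectors of `SL_2` over `F_2`, second part
-/

set_option autoImplicit false
set_option linter.unusedSectionVars false

namespace Pool.Agent.SuF

open MvPolynomial

section scal

variable {J : Type} {S : Type} [CommRing S] [Algebra (ZMod 2) S]

theorem prod_weight (c : J → S) (e : (J × Fin 2) →₀ ℕ) :
    (Finsupp.weight (wt J) e).prod (fun j n => c j ^ n) = e.prod fun p n => c p.1 ^ n := by
  classical
  induction e using Finsupp.induction_linear with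
  | zero => simp
  | add e e' h h' =>
    rw [map_add, Finsupp.prod_add_index' (by simp) (by intro _ _ _; rw [pow_add]), h, h',
      Finsupp.prod_add_index' (by simp) (by intro _ _ _; rw [pow_add])]
  | single p n =>
    rw [Finsupp.weight_single, wt, Finsupp.smul_single, smul_eq_mul, mul_one,
      Finsupp.prod_single_index (by simp), Finsupp.prod_single_index (by simp)]

/-- scaling of the vectors -/
theorem vev_scal (c : J → S) (v : J → Fin 2 → S) {f : VR J} {d : J →₀ ℕ} (hf : MH f d) :
    vev (fun j a => c j * v j a) f = d.prod (fun j n => c j ^ n) * vev v f := by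
  refine MH.ind (P := fun f => vev (fun j a => c j * v j a) f =
    d.prod (fun j n => c j ^ n) * vev v f) ?_ ?_ ?_ hf
  · rw [map_zero, map_zero, mul_zero]
  · intro f g _ _ h1 h2
    rw [map_add, map_add, h1, h2, mul_add]
  · intro e he
    subst he
    rw [prod_weight, vev, vev, aeval_monomial, aeval_monomial, map_one, one_mul, one_mul,
      ← Finsupp.prod_mul]
    refine Finsupp.prod_congr fun p _ => ?_
    rw [mul_pow]

/-- the generic vectors -/
noncomputable def gv (J : Type) (j : J) (a : Fin 2) : VR J := X (j, a)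

theorem vev_gv (f : VR J) : vev (gv J) f = f := by
  have h : (vev (gv J) : VR J →ₐ[ZMod 2] VR J) = AlgHom.id _ _ := by
    refine MvPolynomial.algHom_ext fun p => ?_
    obtain ⟨j, a⟩ := p
    rw [vev_X]
    rfl
  exact AlgHom.congr_fun h f

theorem vev_hom {S' : Type} [CommRing S'] [Algebra (ZMod 2) S'] (v : J → Fin 2 → S)
    (φ : S →ₐ[ZMod 2] S') (f : VR J) : φ (vev v f) = vev (fun j a => φ (v j a)) f := by
  have h : (φ.comp (vev v) : VR J →ₐ[ZMod 2] S') = vev (fun j a => φ (v j a)) := by
    refine MvPolynomial.algHom_ext fun p => ?_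
    obtain ⟨j, a⟩ := p
    rw [AlgHom.comp_apply, vev_X, vev_X]
  exact AlgHom.congr_fun h f

/-- if `InvV (b g)` and `InvV b`, `b ≠ 0` then `InvV g` -/
theorem InvV.of_mul {b g : VR J} (hb : InvV b) (hb0 : b ≠ 0) (h : InvV (b * g)) : InvV g := by
  -- the generic point
  let G := MvPolynomial (Option (J × Fin 2)) (ZMod 2)
  let w : J → Fin 2 → G := fun j a => X (some (j, a))
  have hw : ∀ f : VR J, vev w f = rename some f := by
    intro f
    have h1 : (vev w : VR J →ₐ[ZMod 2] G) = rename some := by
      refine MvPolynomial.algHom_ext fun p => ?_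
      obtain ⟨j, a⟩ := p
      rw [vev_X, rename_X]
    exact AlgHom.congr_fun h1 f
  have hb1 : vev w b ≠ 0 := by
    rw [hw]
    intro h1
    apply hb0
    exact rename_injective some (Option.some_injective _) (by rw [h1, map_zero])
  have spec : ∀ (S : Type) [CommRing S] [Algebra (ZMod 2) S] (v : J → Fin 2 → S) (s : S),
      ∃ φ : G →ₐ[ZMod 2] S, (∀ j a, φ (w j a) = v j a) ∧ φ (X none) = s := by
    intro S _ _ v s
    refine ⟨aeval fun o => o.elim s fun p => v p.1 p.2, fun j a => ?_, ?_⟩
    · exact aeval_X _ _
    · exact aeval_X _ _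
  constructor
  · intro S _ _ v s
    have h1 := h.D G w (X none)
    rw [map_mul, map_mul, hb.D] at h1
    have h2 := mul_left_cancel₀ hb1 h1
    obtain ⟨φ, h3, h4⟩ := spec S v s
    have h5 := congrArg φ h2
    rw [vev_hom, vev_hom] at h5
    have h6 : (fun j a => φ ((![w j 0 + X none * w j 1, w j 1] : Fin 2 → G) a)) =
        fun j => ![v j 0 + s * v j 1, v j 1] := by
      funext j a
      fin_cases a
      · simp [h3, h4]
      · simp [h3]
    have h7 : (fun j a => φ (w j a)) = v := by
      funext j a
      exact h3 j a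
    rw [h6, h7] at h5
    exact h5
  · intro S _ _ v s
    have h1 := h.E G w (X none)
    rw [map_mul, map_mul, hb.E] at h1
    have h2 := mul_left_cancel₀ hb1 h1
    obtain ⟨φ, h3, h4⟩ := spec S v s
    have h5 := congrArg φ h2
    rw [vev_hom, vev_hom] at h5
    have h6 : (fun j a => φ ((![w j 0, w j 1 + X none * w j 0] : Fin 2 → G) a)) =
        fun j => ![v j 0, v j 1 + s * v j 0] := by
      funext j a
      fin_cases a
      · simp [h3]
      · simp [h3, h4]
    have h7 : (fun j a => φ (w j a)) = v := by
      funext j a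
      exact h3 j a
    rw [h6, h7] at h5
    exact h5

end scal

section comp

variable {J : Type}

open Classical in
theorem comp_mul {b : VR J} {e : J →₀ ℕ} (hb : MH b e) (d : J →₀ ℕ) (g : VR J) :
    weightedHomogeneousComponent (wt J) (e + d) (b * g) =
      b * weightedHomogeneousComponent (wt J) d g := by
  induction g using MvPolynomial.induction_on' with
  | monomial e' r =>
    have h1 : MH (monomial e' r) (Finsupp.weight (wt J) e') :=
      isWeightedHomogeneous_monomial _ _ _ rfl
    have h2 := hb.mul h1
    by_cases hd : Finsupp.weight (wt J) e' = d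
    · subst hd
      rw [weightedHomogeneousComponent_eq_self h2, weightedHomogeneousComponent_eq_self h1]
    · rw [IsWeightedHomogeneous.weightedHomogeneousComponent_ne _ h2,
        IsWeightedHomogeneous.weightedHomogeneousComponent_ne _ h1, mul_zero]
      · exact fun h3 => hd h3.symm
      · intro h3
        exact hd (add_left_cancel h3).symm
  | add f g h1 h2 => rw [mul_add, map_add, map_add, mul_add, h1, h2]

open Classical in
theorem comp_mul_none {b : VR J} {e : J →₀ ℕ} (hb : MH b e) (d : J →₀ ℕ)
    (hd : ¬ ∃ d', e + d' = d) (g : VR J) :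
    weightedHomogeneousComponent (wt J) d (b * g) = 0 := by
  induction g using MvPolynomial.induction_on' with
  | monomial e' r =>
    have h1 : MH (monomial e' r) (Finsupp.weight (wt J) e') :=
      isWeightedHomogeneous_monomial _ _ _ rfl
    have h2 := hb.mul h1
    rw [IsWeightedHomogeneous.weightedHomogeneousComponent_ne _ h2]
    intro h3
    exact hd ⟨_, h3.symm⟩
  | add f g h1 h2 => rw [mul_add, map_add, h1, h2, add_zero]

theorem exists_hom_factor {b f : VR J} {e d : J →₀ ℕ} (hb : MH b e) (hf : MH f d) (h : b ∣ f) :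
    f = 0 ∨ ∃ d' g, e + d' = d ∧ MH g d' ∧ f = b * g := by
  obtain ⟨g, rfl⟩ := h
  have h1 := weightedHomogeneousComponent_eq_self hf
  by_cases hd : ∃ d', e + d' = d
  · obtain ⟨d', rfl⟩ := hd
    right
    refine ⟨d', weightedHomogeneousComponent (wt J) d' g, rfl,
      weightedHomogeneousComponent_mem (wt J) g d', ?_⟩
    rw [← comp_mul hb, h1]
  · left
    rw [← h1]
    exact comp_mul_none hb d hd g

end comp

/-! ## One more vector -/

section opt

variable {K : Type} (k0 : K)

/-- the identification of the vector `none` with the vector `k0` -/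
def m0 (o : Option K) : K := o.getD k0

/-- the coefficient `1` except at `none` -/
def c1 {S : Type} [CommRing S] (c : S) (o : Option K) : S := o.elim c fun _ => 1

theorem prod_c1 {S : Type} [CommRing S] (c : S) (d : Option K →₀ ℕ) :
    d.prod (fun j n => c1 c j ^ n) = c ^ (d none) := by
  classical
  by_cases h : none ∈ d.support
  · rw [Finsupp.prod, Finset.prod_eq_single_of_mem none h]
    · rfl
    · intro o _ ho
      cases o with
      | none => exact absurd rfl ho
      | some k => simp [c1]
  · rw [Finsupp.notMem_support_iff.1 h, pow_zero, Finsupp.prod]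
    refine Finset.prod_eq_one fun o ho => ?_
    cases o with
    | none => exact absurd ho h
    | some k => simp [c1]

/-- `q ^ a f - y ^ a f(v_none = v_k0)` is divisible by the bracket. -/
theorem div_step {f : VR (Option K)} {d : Option K →₀ ℕ} (hf : MH f d) :
    br none (some k0) ∣ X (some k0, 1) ^ (d none) * f -
      X (none, 1) ^ (d none) * rn some (rn (m0 k0) f) := by
  have h1 := vev_scal (c1 (X (some k0, 1) : VR (Option K))) (gv (Option K)) hf
  have h2 := vev_scal (c1 (X (none, 1) : VR (Option K)))
    (fun o => gv (Option K) (some (m0 k0 o))) hf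
  rw [prod_c1, vev_gv] at h1
  have h3 : rn some (rn (m0 k0) f) = vev (fun o => gv (Option K) (some (m0 k0 o))) f := by
    rw [← vev_gv (rn some (rn (m0 k0) f)), vev_rn, vev_rn]
  rw [prod_c1, ← h3] at h2
  rw [← h1, ← h2]
  -- congruence modulo the bracket
  rw [← Ideal.mem_span_singleton, ← Ideal.Quotient.eq]
  have h4 : ∀ v : Option K → Fin 2 → VR (Option K),
      Ideal.Quotient.mk (Ideal.span {br none (some k0)}) (vev v f) =
        vev (fun j a => Ideal.Quotient.mk (Ideal.span {br none (some k0)}) (v j a)) f := fun v =>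
    vev_hom v (Ideal.Quotient.mkₐ (ZMod 2) _) f
  rw [h4, h4]
  congr 2
  funext o a
  rw [Ideal.Quotient.eq, Ideal.mem_span_singleton]
  cases o with
  | some k =>
    have : c1 (X (some k0, 1) : VR (Option K)) (some k) * gv (Option K) (some k) a -
      c1 (X (none, 1) : VR (Option K)) (some k) * gv (Option K) (some (m0 k0 (some k))) a = 0 := by
      simp [c1, m0]
    rw [this]
    exact dvd_zero _
  | none =>
    have h2 := two_zero' (VR (Option K))
    fin_cases a
    · refine Dvd.intro 1 ?_
      simp only [c1, m0, br, gv, Option.elim, Option.getD_none, Fin.zero_eta]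
      linear_combination (X (none, 1) * X (some k0, 0)) * h2
    · refine Dvd.intro 0 ?_
      simp only [c1, m0, br, gv, Option.elim, Option.getD_none, Fin.mk_one]
      ring

theorem br_dvd_of_pow (n : ℕ) (g : VR (Option K))
    (h : br none (some k0) ∣ X (some k0, 1) ^ n * g) : br none (some k0) ∣ g := by
  induction n with
  | zero => rwa [pow_zero, one_mul] at h
  | succ n ih =>
    apply ih
    obtain ⟨u, hu⟩ := h
    have hp : Prime (X (some k0, 1) : VR (Option K)) := X_prime
    have h1 : (X (some k0, 1) : VR (Option K)) ∣ X (none, 1) * X (some k0, 0) * u := by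
      refine ⟨X (some k0, 1) ^ n * g - X (none, 0) * u, ?_⟩
      rw [br] at hu
      linear_combination - hu
    have h2 : (X (some k0, 1) : VR (Option K)) ∣ u := by
      rcases hp.dvd_or_dvd h1 with h3 | h3
      · exfalso
        rcases hp.dvd_or_dvd h3 with h4 | h4
        · rw [X_dvd_X] at h4
          simp at h4
        · rw [X_dvd_X] at h4
          simp at h4
      · exact h3
    obtain ⟨w, rfl⟩ := h2
    refine ⟨w, ?_⟩
    apply mul_left_cancel₀ hp.ne_zero
    linear_combination hu

theorem br_dvd {f : VR (Option K)} {d : Option K →₀ ℕ} (hf : MH f d) (h0 : rn (m0 k0) f = 0) :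
    br none (some k0) ∣ f := by
  have h := div_step k0 hf
  rw [h0, map_zero, mul_zero, sub_zero] at h
  exact br_dvd_of_pow k0 _ _ h

/-- no dependence on the vector `none` in degree `0` -/
theorem eq_of_zero {f : VR (Option K)} {d : Option K →₀ ℕ} (hf : MH f d) (hd : d none = 0) :
    rn some (rn (m0 k0) f) = f := by
  have h1 := vev_scal (c1 (0 : VR (Option K))) (gv (Option K)) hf
  have h2 := vev_scal (c1 (0 : VR (Option K))) (fun o => gv (Option K) (some (m0 k0 o))) hf
  rw [prod_c1, vev_gv, hd, pow_zero, one_mul] at h1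
  have h3 : rn some (rn (m0 k0) f) = vev (fun o => gv (Option K) (some (m0 k0 o))) f := by
    rw [← vev_gv (rn some (rn (m0 k0) f)), vev_rn, vev_rn]
  rw [prod_c1, ← h3, hd, pow_zero, one_mul] at h2
  refine h2.symm.trans (Eq.trans ?_ h1)
  congr 2
  funext o a
  cases o <;> simp [c1, m0]

theorem mapDomain_inj {d d' : Option K →₀ ℕ} (h0 : d none = d' none)
    (h : d.mapDomain (m0 k0) = d'.mapDomain (m0 k0)) : d = d' := by
  classical
  -- write `d` as a sum
  have key : ∀ d : Option K →₀ ℕ, ∀ k, d.mapDomain (m0 k0) k =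
      d (some k) + if k = k0 then d none else 0 := by
    intro d k
    induction d using Finsupp.induction_linear with
    | zero => simp
    | add d d' h h' =>
      rw [Finsupp.mapDomain_add, Finsupp.add_apply, h, h', Finsupp.add_apply, Finsupp.add_apply]
      split_ifs <;> ring
    | single o n =>
      rw [Finsupp.mapDomain_single]
      cases o with
      | none =>
        by_cases hk : k = k0
        · subst hk
          simp [m0]
        · simp [m0, hk]
      | some k' => simp [m0, Finsupp.single_apply]
  ext o
  cases o with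
  | none => exact h0
  | some k =>
    have h1 := key d k
    have h2 := key d' k
    rw [h, h2, h0] at h1
    omega

open Classical in
/-- lifting of a monomial -/
theorem lift_list (L : List (K × K)) : ∀ a, a ≤ dg L k0 →
    ∃ L' : List (Option K × Option K), L'.map (Prod.map (m0 k0) (m0 k0)) = L ∧ dg L' none = a := by
  induction L with
  | nil =>
    intro a ha
    rw [dg_nil, Finsupp.zero_apply] at ha
    exact ⟨[], rfl, by rw [dg_nil, Finsupp.zero_apply]; omega⟩
  | cons p L ih =>
    intro a ha
    obtain ⟨i, j⟩ := p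
    rw [dg_cons, Finsupp.add_apply, Finsupp.add_apply, Finsupp.single_apply,
      Finsupp.single_apply] at ha
    change a ≤ (if i = k0 then 1 else 0) + (if j = k0 then 1 else 0) + dg L k0 at ha
    have key : ∀ (i : K) (r : ℕ), r ≤ (if i = k0 then 1 else 0) →
        ∃ o : Option K, m0 k0 o = i ∧ (Finsupp.single o 1 : Option K →₀ ℕ) none = r := by
      intro i r hr
      rcases Nat.eq_zero_or_pos r with rfl | hr0
      · exact ⟨some i, rfl, by simp⟩
      · have hi : i = k0 := by
          by_contra h
          rw [if_neg h] at hr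
          omega
        rw [if_pos hi] at hr
        refine ⟨none, by rw [hi]; rfl, ?_⟩
        rw [Finsupp.single_eq_same]
        omega
    obtain ⟨r1, r2, a', h1, h2, h3, h4⟩ : ∃ r1 r2 a', r1 ≤ (if i = k0 then 1 else 0) ∧
        r2 ≤ (if j = k0 then 1 else 0) ∧ a' ≤ dg L k0 ∧ a = r1 + r2 + a' := by
      refine ⟨min a (if i = k0 then 1 else 0), min (a - min a (if i = k0 then 1 else 0))
        (if j = k0 then 1 else 0), a - min a (if i = k0 then 1 else 0) -
          min (a - min a (if i = k0 then 1 else 0)) (if j = k0 then 1 else 0), min_le_right _ _,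
          min_le_right _ _, ?_, ?_⟩
      · omega
      · omega
    obtain ⟨i', hi1, hi2⟩ := key i r1 h1
    obtain ⟨j', hj1, hj2⟩ := key j r2 h2
    obtain ⟨L', hL1, hL2⟩ := ih a' h3
    refine ⟨(i', j') :: L', ?_, ?_⟩
    · rw [List.map_cons, hL1]
      simp [hi1, hj1]
    · rw [dg_cons, Finsupp.add_apply, Finsupp.add_apply, hi2, hj2, hL2, h4]

theorem lift_BS {d : Option K →₀ ℕ} {h : VR K} (hh : h ∈ BS (d.mapDomain (m0 k0))) :
    ∃ h' ∈ BS d, rn (m0 k0) h' = h := by
  refine Submodule.span_induction (p := fun h _ => ∃ h' ∈ BS d, rn (m0 k0) h' = h)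
    ?_ ?_ ?_ ?_ hh
  · rintro _ ⟨L, hL, rfl⟩
    have ha : d none ≤ dg L k0 := by
      classical
      rw [hL, Finsupp.mapDomain, Finsupp.sum_apply]
      by_cases hn : none ∈ d.support
      · have h1 := Finset.single_le_sum (f := fun o => (Finsupp.single (m0 k0 o) (d o) : K →₀ ℕ) k0)
          (fun _ _ => Nat.zero_le _) hn
        have h2 : (Finsupp.single (m0 k0 none) (d none) : K →₀ ℕ) k0 = d none := by simp [m0]
        rw [h2] at h1
        exact h1
      · rw [Finsupp.notMem_support_iff.1 hn]
        exact Nat.zero_le _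
    obtain ⟨L', hL1, hL2⟩ := lift_list k0 L (d none) ha
    refine ⟨brm L', Submodule.subset_span ⟨L', ?_, rfl⟩, ?_⟩
    · refine mapDomain_inj k0 hL2 ?_
      rw [← dg_map, hL1, hL]
    · rw [rn_brm, hL1]
  · exact ⟨0, zero_mem _, map_zero _⟩
  · rintro f g _ _ ⟨f', hf1, hf2⟩ ⟨g', hg1, hg2⟩
    exact ⟨f' + g', add_mem hf1 hg1, by rw [map_add, hf2, hg2]⟩
  · rintro c f _ ⟨f', hf1, hf2⟩
    exact ⟨c • f', Submodule.smul_mem _ _ hf1, by rw [map_smul, hf2]⟩

end opt

end Pool.Agent.SuF
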