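import Pool.Agent.Lib.MP_305fdd_al.Su.F.V2

/-!
# MP_305fdd_al, surface groups, block F: the first fundamental theorem for vectors of `SL_2`
-/

set_option autoImplicit false
set_option linter.unusedSectionVars false

namespace Pool.Agent.SuF

open MvPolynomial

/-- the first fundamental theorem for the vectors `v_k`, `k ∈ K` -/
def FV (K : Type) : Prop := ∀ (d : K →₀ ℕ) (f : VR K), MH f d → InvV f → f ∈ BS d

theorem rn_BS {J J' : Type} (m : J → J') {d : J →₀ ℕ} {f : VR J} (hf : f ∈ BS d) :
    rn m f ∈ BS (d.mapDomain m) := by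
  refine Submodule.span_induction (p := fun f _ => rn m f ∈ BS (d.mapDomain m)) ?_ ?_ ?_ ?_ hf
  · rintro _ ⟨L, rfl, rfl⟩
    rw [rn_brm]
    exact Submodule.subset_span ⟨_, dg_map m L, rfl⟩
  · rw [map_zero]; exact zero_mem _
  · intro f g _ _ hf hg
    rw [map_add]; exact add_mem hf hg
  · intro c f _ hf
    rw [map_smul]; exact Submodule.smul_mem _ _ hf

theorem br_mul_BS {J : Type} (i j : J) {d : J →₀ ℕ} {f : VR J} (hf : f ∈ BS d) :
    br i j * f ∈ BS (Finsupp.single i 1 + Finsupp.single j 1 + d) := by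
  refine Submodule.span_induction (p := fun f _ =>
    br i j * f ∈ BS (Finsupp.single i 1 + Finsupp.single j 1 + d)) ?_ ?_ ?_ ?_ hf
  · rintro _ ⟨L, rfl, rfl⟩
    exact Submodule.subset_span ⟨(i, j) :: L, by rw [dg_cons], by rw [brm_cons]⟩
  · rw [mul_zero]; exact zero_mem _
  · intro f g _ _ hf hg
    rw [mul_add]; exact add_mem hf hg
  · intro c f _ hf
    rw [mul_smul_comm]; exact Submodule.smul_mem _ _ hf

theorem FV.equiv {K K' : Type} (e : K ≃ K') (h : FV K) : FV K' := by
  intro d f hf hi
  have h1 : rn e (rn e.symm f) = f := by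
    have h2 : ((rn e).comp (rn e.symm) : VR K' →ₐ[ZMod 2] VR K') = AlgHom.id _ _ := by
      refine MvPolynomial.algHom_ext fun p => ?_
      obtain ⟨j, a⟩ := p
      rw [AlgHom.comp_apply, rn_X, rn_X, Equiv.apply_symm_apply, AlgHom.id_apply]
    exact AlgHom.congr_fun h2 f
  have h2 := h _ _ (hf.rn e.symm) (hi.rn e.symm)
  have h3 := rn_BS e h2
  rw [h1, ← Finsupp.mapDomain_comp] at h3
  have h4 : (e ∘ e.symm : K' → K') = id := by
    funext x
    simp
  rw [h4, Finsupp.mapDomain_id] at h3
  exact h3

theorem mem_BS_zero {J : Type} (c : ZMod 2) : (C c : VR J) ∈ BS (0 : J →₀ ℕ) := by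
  have h : (C c : VR J) = c • (1 : VR J) := by
    rw [MvPolynomial.smul_eq_C_mul, mul_one]
  rw [h]
  exact Submodule.smul_mem _ _ (Submodule.subset_span ⟨[], dg_nil, brm_nil.symm⟩)

theorem FV.empty {K : Type} [IsEmpty K] : FV K := by
  intro d f _ _
  have hd : d = 0 := by
    ext k
    exact isEmptyElim k
  obtain ⟨c, rfl⟩ := C_surjective (R := ZMod 2) (K × Fin 2) f
  rw [hd]
  exact mem_BS_zero c

/-- one vector -/
theorem FV.single {K : Type} [IsEmpty K] : FV (Option K) := by
  intro d f hf hi
  have hd : d = Finsupp.single none (d none) := by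
    refine Finsupp.ext fun o => ?_
    cases o with
    | none => simp
    | some k => exact isEmptyElim k
  -- the function `f(c v) = c ^ a f(v)`
  have hsc : ∀ {S : Type} [CommRing S] [Algebra (ZMod 2) S] (c : S) (v : Option K → Fin 2 → S),
      vev (fun o a => c * v o a) f = c ^ (d none) * vev v f := by
    intro S _ _ c v
    have h := vev_scal (c1 c) v hf
    rw [prod_c1] at h
    rw [← h]
    congr 2
    funext o a
    cases o with
    | none => rfl
    | some k => exact isEmptyElim k
  -- the fraction field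
  let Q := FractionRing (VR (Option K))
  let ιq : VR (Option K) →ₐ[ZMod 2] Q := IsScalarTower.toAlgHom (ZMod 2) (VR (Option K)) Q
  have hinj : Function.Injective ιq := IsFractionRing.injective (VR (Option K)) Q
  let x : Q := ιq (X (none, 0))
  let y : Q := ιq (X (none, 1))
  have hx : x ≠ 0 := by
    intro h
    exact X_ne_zero (R := ZMod 2) ((none, 0) : Option K × Fin 2)
      (hinj (h.trans (map_zero _).symm))
  have hv : vev (fun _ => ![x, y]) f = ιq f := by
    have h1 := vev_hom (gv (Option K)) ιq f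
    rw [vev_gv] at h1
    rw [h1]
    congr 2
    funext o a
    cases o with
    | none => fin_cases a <;> rfl
    | some k => exact isEmptyElim k
  have h1 := hi.E Q (fun _ => ![x, 0]) (y / x)
  have h2 : (fun _ : Option K => (![(![x, 0] : Fin 2 → Q) 0, (![x, 0] : Fin 2 → Q) 1 + y / x *
      (![x, 0] : Fin 2 → Q) 0] : Fin 2 → Q)) = fun _ => ![x, y] := by
    funext o a
    fin_cases a
    · simp
    · simp [div_mul_cancel₀ y hx]
  rw [h2, hv] at h1
  have h3 := hsc x (fun _ => (![1, 0] : Fin 2 → Q))
  have h4 : (fun (_ : Option K) a => x * (![1, 0] : Fin 2 → Q) a) = fun _ => ![x, 0] := by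
    funext o a
    fin_cases a <;> simp
  rw [h4, ← h1] at h3
  -- the value at `(1, 0)` is in `F_2`
  let α : ZMod 2 := vev (fun _ : Option K => (![1, 0] : Fin 2 → ZMod 2)) f
  have h5 : vev (fun _ : Option K => (![1, 0] : Fin 2 → Q)) f = algebraMap (ZMod 2) Q α := by
    have h6 := vev_hom (fun _ : Option K => (![1, 0] : Fin 2 → ZMod 2)) (Algebra.ofId (ZMod 2) Q) f
    have h7 : (fun (_ : Option K) a => (Algebra.ofId (ZMod 2) Q) ((![1, 0] : Fin 2 → ZMod 2) a)) =
        fun _ => (![1, 0] : Fin 2 → Q) := by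
      funext o a
      fin_cases a <;> simp
    rw [h7] at h6
    exact h6.symm
  rw [h5] at h3
  have h6 : f = X (none, 0) ^ (d none) * C α := by
    apply hinj
    rw [h3, map_mul, map_pow]
    congr 1
  rcases Nat.eq_zero_or_pos (d none) with h0 | h0
  · rw [h6, h0, pow_zero, one_mul]
    have hd0 : d = 0 := by rw [hd, h0, Finsupp.single_zero]
    rw [hd0]
    exact mem_BS_zero α
  · -- evaluate at `(0, 1)` and `(1, 1)`
    have h7 := hi.D (ZMod 2) (fun _ => ![0, 1]) 1
    rw [h6, map_mul, map_mul, map_pow, map_pow, vev_X, vev_X] at h7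
    simp only [Matrix.cons_val_zero, Matrix.cons_val_one, zero_pow (Nat.pos_iff_ne_zero.1 h0),
      zero_mul, mul_one, zero_add, one_pow, one_mul] at h7
    have h8 : vev (fun _ : Option K => (![1, 1] : Fin 2 → ZMod 2)) (C α) = α := by
      rw [vev, aeval_C]
      rfl
    rw [h8] at h7
    rw [h6, h7, map_zero, mul_zero]
    exact zero_mem _

theorem br_ne_zero {J : Type} {i j : J} (hij : i ≠ j) : br i j ≠ 0 := by
  classical
  intro h
  have h1 : vev (fun k a => if k = i ∧ a = 0 ∨ k = j ∧ a = 1 then (1 : ZMod 2) else 0) (br i j) = 1 := by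
    rw [br, map_add, map_mul, map_mul, vev_X, vev_X, vev_X, vev_X]
    simp [hij, hij.symm]
  rw [h, map_zero] at h1
  exact zero_ne_one h1

theorem FV.option {K : Type} (k0 : K) (hK : FV K) : FV (Option K) := by
  suffices H : ∀ (a : ℕ) (d : Option K →₀ ℕ), d none = a → ∀ f : VR (Option K), MH f d → InvV f →
      f ∈ BS d from fun d f hf hi => H _ d rfl f hf hi
  intro a
  induction a with
  | zero =>
    intro d hd f hf hi
    have h1 := eq_of_zero k0 hf hd
    have h2 := rn_BS some (hK _ _ (hf.rn (m0 k0)) (hi.rn (m0 k0)))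
    rw [h1] at h2
    have h3 : ((d.mapDomain (m0 k0)).mapDomain some : Option K →₀ ℕ) = d := by
      rw [← Finsupp.mapDomain_comp]
      refine (Finsupp.mapDomain_congr (g := id) fun o ho => ?_).trans Finsupp.mapDomain_id
      cases o with
      | none => exact absurd hd (Finsupp.mem_support_iff.1 ho)
      | some k => rfl
    rw [h3] at h2
    exact h2
  | succ a ih =>
    intro d hd f hf hi
    obtain ⟨h', hh1, hh2⟩ := lift_BS k0 (d := d) (hK _ _ (hf.rn (m0 k0)) (hi.rn (m0 k0)))
    have h1 : MH (f - h') d := hf.sub (mh_of_mem_BS hh1)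
    have h2 : InvV (f - h') := hi.sub (invV_of_mem_BS hh1)
    have h3 : rn (m0 k0) (f - h') = 0 := by rw [map_sub, hh2, sub_self]
    have h4 := br_dvd k0 h1 h3
    have h5 : f - h' ∈ BS d := by
      rcases exists_hom_factor (MH.br none (some k0)) h1 h4 with h6 | ⟨d', g, hd', hg, h6⟩
      · rw [h6]; exact zero_mem _
      · rw [h6] at h2
        have h7 := InvV.of_mul (InvV.br none (some k0)) (br_ne_zero (by simp)) h2
        have h8 : d' none = a := by
          have h9 := DFunLike.congr_fun hd' none
          rw [Finsupp.add_apply, Finsupp.add_apply, Finsupp.single_eq_same, hd,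
            Finsupp.single_eq_of_ne (by simp)] at h9
          omega
        rw [h6, ← hd']
        exact br_mul_BS _ _ (ih d' h8 g hg h7)
    have h6 : f = (f - h') + h' := by ring
    rw [h6]
    exact add_mem h5 hh1

/-- **the first fundamental theorem for vectors** -/
theorem fft_vec (K : Type) [Fintype K] : FV K := by
  classical
  refine Fintype.induction_empty_option (P := fun K _ => FV K) ?_ ?_ ?_ K
  · intro α β _ e h
    exact h.equiv e
  · exact FV.empty
  · intro α _ h
    rcases isEmpty_or_nonempty α with hα | ⟨⟨k0⟩⟩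
    · exact FV.single
    · exact h.option k0

end Pool.Agent.SuF
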