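import Pool.Agent.Lib.MP_305fdd_al.Su.F.V3
import Pool.Agent.Lib.MP_305fdd_al.Su.F.GpMain

/-!
# MP_305fdd_al, surface groups, block F: leading forms of traces

`rk` is the restriction to the matrices `x_i = u_i v_i^T J` of rank one.  Every balanced monomial in
the brackets is `rk` of a product of traces.
-/

set_option autoImplicit false
set_option linter.unusedSectionVars false

namespace Pool.Agent.SuF

open MvPolynomial

section letters

variable {I : Type} [Fintype I]

/-- the index of the vector `u_i` -/
def f1 (s : I × Fin 2 × Fin 2) : (I × Fin 2) × Fin 2 := ((s.1, 0), s.2.1)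

/-- the index of the vector `v_i` -/
def f2 (s : I × Fin 2 × Fin 2) : (I × Fin 2) × Fin 2 := ((s.1, 1), 1 - s.2.2)

/-- the restriction to matrices of rank one -/
noncomputable def rk : PR I →ₐ[ZMod 2] VR (I × Fin 2) := aeval fun s => X (f1 s) * X (f2 s)

theorem rk_X (i : I) (a b : Fin 2) :
    rk (X (i, a, b)) = (X ((i, 0), a) * X ((i, 1), 1 - b) : VR (I × Fin 2)) := by
  rw [rk, aeval_X]
  rfl

/-- the head of a letter -/
def hd (h : I × Fin 2) : I × Fin 2 := h

/-- the tail of a letter -/
def tl (h : I × Fin 2) : I × Fin 2 := (h.1, 1 - h.2)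

theorem tl_tl (h : I × Fin 2) : tl (tl h) = h := by
  obtain ⟨i, a⟩ := h
  have : ∀ a : Fin 2, 1 - (1 - a) = a := by decide
  rw [tl, tl, this]

/-- the matrix of a letter -/
noncomputable def lM (h : I × Fin 2) : Matrix (Fin 2) (Fin 2) (PR I) :=
  if h.2 = 0 then gx h.1 else (gx h.1).adjugate

theorem rk_lM (h : I × Fin 2) (a b : Fin 2) :
    rk (lM h a b) = (X (hd h, a) * X (tl h, 1 - b) : VR (I × Fin 2)) := by
  obtain ⟨i, e⟩ := h
  fin_cases e
  · simp only [lM, hd, tl, Fin.zero_eta, if_true]
    exact rk_X i a b
  · simp only [lM, hd, tl, Fin.mk_one, one_ne_zero, if_false, Matrix.adjugate_fin_two]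
    fin_cases a <;> fin_cases b
    · exact (rk_X i 1 1).trans (mul_comm _ _)
    · simp only [Fin.zero_eta, Fin.mk_one, Matrix.of_apply, Matrix.cons_val', Matrix.cons_val_zero,
        Matrix.cons_val_one, Matrix.cons_val_fin_one, map_neg]
      rw [CharTwo.neg_eq]
      exact (rk_X i 0 1).trans (mul_comm _ _)
    · simp only [Fin.zero_eta, Fin.mk_one, Matrix.of_apply, Matrix.cons_val', Matrix.cons_val_zero,
        Matrix.cons_val_one, Matrix.cons_val_fin_one, map_neg]
      rw [CharTwo.neg_eq]
      exact (rk_X i 1 0).trans (mul_comm _ _)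
    · exact (rk_X i 0 0).trans (mul_comm _ _)

/-- the matrix of a word -/
noncomputable def wM (W : List (I × Fin 2)) : Matrix (Fin 2) (Fin 2) (PR I) := (W.map lM).prod

theorem wM_cons (h : I × Fin 2) (W : List (I × Fin 2)) : wM (h :: W) = lM h * wM W := by
  rw [wM, List.map_cons, List.prod_cons]
  rfl

theorem wM_nil : (wM [] : Matrix (Fin 2) (Fin 2) (PR I)) = 1 := by simp [wM]

/-- the brackets along a chain -/
noncomputable def val (a : I × Fin 2) : List (I × Fin 2) → I × Fin 2 → VR (I × Fin 2)
  | [], b => br a b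
  | h :: W, b => br a (hd h) * val (tl h) W b

theorem br_comm (i j : I × Fin 2) : (br i j : VR (I × Fin 2)) = br j i := by
  rw [br, br]; ring

theorem val_append (a b : I × Fin 2) (h : I × Fin 2) (W W' : List (I × Fin 2)) :
    val a W (hd h) * val (tl h) W' b = val a (W ++ h :: W') b := by
  induction W generalizing a with
  | nil => rfl
  | cons k W ih => rw [List.cons_append, val, val, mul_assoc, ih]

/-- the inverse word -/
def inv (W : List (I × Fin 2)) : List (I × Fin 2) := (W.map tl).reverse

theorem length_inv (W : List (I × Fin 2)) : (inv W).length = W.length := by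
  rw [inv, List.length_reverse, List.length_map]

theorem val_inv (a b : I × Fin 2) (W : List (I × Fin 2)) : val a W b = val b (inv W) a := by
  induction W generalizing a with
  | nil => exact br_comm a b
  | cons h W ih =>
    have h1 := val_append b a (tl h) (inv W) []
    have h2 : inv (h :: W) = inv W ++ [tl h] := by
      rw [inv, List.map_cons, List.reverse_cons]
      rfl
    rw [h2, ← h1, val, val, ih (tl h), tl_tl, mul_comm, br_comm a]
    rfl

/-- the entries of a word after the restriction to rank one -/
theorem rk_wM (h : I × Fin 2) (W : List (I × Fin 2)) (v : Fin 2 → VR (I × Fin 2)) (a : Fin 2)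
    (c : I × Fin 2) (hv : ∀ b, v b = X (c, b)) :
    ∑ b, rk (wM (h :: W) a b) * v b = X (hd h, a) * val (tl h) W c := by
  induction W generalizing h a with
  | nil =>
    rw [wM_cons, wM_nil, mul_one, Fin.sum_univ_two, rk_lM, rk_lM, hv, hv, val, br]
    simp only [sub_zero, sub_self]
    ring
  | cons k W ih =>
    rw [wM_cons]
    have h1 : ∀ b, rk ((lM h * wM (k :: W)) a b) = rk (lM h a 0) * rk (wM (k :: W) 0 b) +
        rk (lM h a 1) * rk (wM (k :: W) 1 b) := by
      intro b
      rw [Matrix.mul_apply, Fin.sum_univ_two, map_add, map_mul, map_mul]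
    simp only [h1, add_mul, mul_assoc]
    rw [Finset.sum_add_distrib, ← Finset.mul_sum, ← Finset.mul_sum, ih, ih, rk_lM, rk_lM, val, br]
    simp only [sub_zero, sub_self]
    ring

/-- the trace of a word after the restriction to rank one -/
theorem rk_tr (h : I × Fin 2) (W : List (I × Fin 2)) :
    rk (wM (h :: W)).trace = val (tl h) W (hd h) := by
  cases W with
  | nil =>
    rw [wM_cons, wM_nil, mul_one, Matrix.trace_fin_two, map_add, rk_lM, rk_lM, val, br]
    simp only [sub_zero, sub_self]
    ring
  | cons k W =>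
    rw [wM_cons, Matrix.trace_mul_comm, Matrix.trace_fin_two, Matrix.mul_apply, Matrix.mul_apply,
      Fin.sum_univ_two, Fin.sum_univ_two, map_add, map_add, map_add, map_mul, map_mul, map_mul,
      map_mul, rk_lM, rk_lM, rk_lM, rk_lM]
    simp only [sub_zero, sub_self]
    have e0 := rk_wM k W (fun b => X (hd h, b)) 0 (hd h) (fun b => rfl)
    have e1 := rk_wM k W (fun b => X (hd h, b)) 1 (hd h) (fun b => rfl)
    rw [Fin.sum_univ_two] at e0 e1
    rw [val, br]
    linear_combination X (tl h, 1) * e0 + X (tl h, 0) * e1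

end letters

end Pool.Agent.SuF
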