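import Pool.Agent.Lib.MP_305fdd_al.Su.F.W1

/-!
# MP_305fdd_al, surface groups, block F: balanced monomials in the brackets are leading forms of
products of traces
-/

set_option autoImplicit false
set_option linter.unusedSectionVars false

namespace Pool.Agent.SuF

open MvPolynomial

section

variable {I : Type} [Fintype I]

variable (I) in
/-- the algebra generated by the traces -/
noncomputable def TA : Subalgebra (ZMod 2) (AR I) := Algebra.adjoin (ZMod 2) (Set.range rT)

theorem rT_mem (w : FreeGroup I) : rT w ∈ TA I := Algebra.subset_adjoin ⟨w, rfl⟩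

/-- `h` is the leading form of an element of degree `k` of the algebra of traces -/
def LF (k : ℕ) (h : VR (I × Fin 2)) : Prop :=
  ∃ F : PR I, F.IsHomogeneous k ∧ rk F = h ∧ amk F ∈ TA I

theorem LF.one : LF 0 (1 : VR (I × Fin 2)) :=
  ⟨1, isHomogeneous_one _ _, map_one _, by rw [map_one]; exact one_mem _⟩

theorem LF.zero (k : ℕ) : LF k (0 : VR (I × Fin 2)) :=
  ⟨0, isHomogeneous_zero _ _ _, map_zero _, by rw [map_zero]; exact zero_mem _⟩

theorem LF.mul {k l : ℕ} {h h' : VR (I × Fin 2)} (H : LF k h) (H' : LF l h') :
    LF (k + l) (h * h') := by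
  obtain ⟨F, h1, h2, h3⟩ := H
  obtain ⟨G, h4, h5, h6⟩ := H'
  exact ⟨F * G, h1.mul h4, by rw [map_mul, h2, h5], by rw [map_mul]; exact mul_mem h3 h6⟩

theorem LF.add {k : ℕ} {h h' : VR (I × Fin 2)} (H : LF k h) (H' : LF k h') :
    LF k (h + h') := by
  obtain ⟨F, h1, h2, h3⟩ := H
  obtain ⟨G, h4, h5, h6⟩ := H'
  exact ⟨F + G, h1.add h4, by rw [map_add, h2, h5], by rw [map_add]; exact add_mem h3 h6⟩

/-- the group element of a letter -/
def lg (h : I × Fin 2) : FreeGroup I := if h.2 = 0 then FreeGroup.of h.1 else (FreeGroup.of h.1)⁻¹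

theorem lM_map (h : I × Fin 2) : (lM h).map amk = rM (lg h) := by
  rw [lM, lg]
  split_ifs with h0
  · rw [rM_of]
  · rw [rM_inv, rM_of]
    exact (RingHom.map_adjugate amk (gx h.1))

theorem wM_map (W : List (I × Fin 2)) : (wM W).map amk = rM (W.map lg).prod := by
  induction W with
  | nil =>
    rw [wM_nil, List.map_nil, List.prod_nil, rM_one]
    exact Matrix.map_one _ (map_zero _) (map_one _)
  | cons h W ih =>
    rw [wM_cons, List.map_cons, List.prod_cons, rM_mul, ← ih, ← lM_map, Matrix.map_mul]

theorem hom_lM (h : I × Fin 2) (a b : Fin 2) : (lM h a b).IsHomogeneous 1 := by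
  rw [lM]
  split_ifs with h0
  · exact isHomogeneous_X _ _
  · rw [Matrix.adjugate_fin_two]
    fin_cases a <;> fin_cases b
    · exact isHomogeneous_X _ _
    · exact (isHomogeneous_X _ _).neg
    · exact (isHomogeneous_X _ _).neg
    · exact isHomogeneous_X _ _

theorem hom_wM (W : List (I × Fin 2)) (a b : Fin 2) : (wM W a b).IsHomogeneous W.length := by
  induction W generalizing a b with
  | nil =>
    rw [wM_nil, Matrix.one_apply, List.length_nil]
    split_ifs
    · exact isHomogeneous_one _ _
    · exact isHomogeneous_zero _ _ _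
  | cons h W ih =>
    rw [wM_cons, Matrix.mul_apply, List.length_cons, add_comm]
    exact IsHomogeneous.sum _ _ _ fun c _ => (hom_lM h a c).mul (ih c b)

/-- the closed chains -/
theorem LF.tr (h : I × Fin 2) (W : List (I × Fin 2)) :
    LF (W.length + 1) (val (tl h) W (hd h)) := by
  refine ⟨(wM (h :: W)).trace, ?_, rk_tr h W, ?_⟩
  · rw [Matrix.trace_fin_two]
    exact (hom_wM (h :: W) 0 0).add (hom_wM (h :: W) 1 1)
  · have h1 : amk (wM (h :: W)).trace = rT ((h :: W).map lg).prod := by
      rw [rT, ← wM_map, Matrix.trace_fin_two, Matrix.trace_fin_two, map_add]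
      rfl
    rw [h1]
    exact rT_mem _

/-- open chains -/
abbrev Ch (I : Type) : Type := (I × Fin 2) × List (I × Fin 2) × (I × Fin 2)

/-- the value of an open chain -/
noncomputable def vT (t : Ch I) : VR (I × Fin 2) := val t.1 t.2.1 t.2.2

/-- the number of ends -/
noncomputable def en (L : List (Ch I)) : (I × Fin 2) →₀ ℕ :=
  (L.map fun t => Finsupp.single t.1 1 + Finsupp.single t.2.2 1).sum

theorem en_cons (t : Ch I) (L : List (Ch I)) :
    en (t :: L) = (Finsupp.single t.1 1 + Finsupp.single t.2.2 1) + en L := by
  rw [en, List.map_cons, List.sum_cons]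
  rfl

theorem en_perm {L L' : List (Ch I)} (h : L.Perm L') : en L = en L' :=
  List.Perm.sum_eq (h.map _)

theorem exists_end {L : List (Ch I)} {h : I × Fin 2} (hL : 0 < en L h) :
    ∃ t ∈ L, t.1 = h ∨ t.2.2 = h := by
  classical
  induction L with
  | nil => simp [en] at hL
  | cons t L ih =>
    by_cases h1 : t.1 = h
    · exact ⟨t, List.mem_cons_self, Or.inl h1⟩
    by_cases h2 : t.2.2 = h
    · exact ⟨t, List.mem_cons_self, Or.inr h2⟩
    rw [en_cons, Finsupp.add_apply, Finsupp.add_apply, Finsupp.single_apply, Finsupp.single_apply,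
      if_neg h1, if_neg h2, zero_add, zero_add] at hL
    obtain ⟨t', h3, h4⟩ := ih hL
    exact ⟨t', List.mem_cons_of_mem _ h3, h4⟩

theorem tl_ne (h : I × Fin 2) : tl h ≠ h := by
  obtain ⟨i, a⟩ := h
  intro h1
  have h2 := congrArg Prod.snd h1
  have h3 : ∀ a : Fin 2, 1 - a ≠ a := by decide
  exact h3 a h2

theorem balanced_of_cons {L : List (Ch I)} {h : I × Fin 2} {W : List (I × Fin 2)}
    (hL : ∀ k, en ((tl h, W, h) :: L) k = en ((tl h, W, h) :: L) (tl k)) :
    ∀ k, en L k = en L (tl k) := by
  classical
  intro k
  have h1 := hL k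
  rw [en_cons] at h1
  simp only [Finsupp.add_apply, Finsupp.single_apply] at h1
  have e1 : (h = tl k) ↔ (tl h = k) := by
    constructor
    · rintro rfl; exact tl_tl k
    · rintro rfl; exact (tl_tl h).symm
  have e2 : (tl h = tl k) ↔ (h = k) := by
    constructor
    · intro h2
      have := congrArg tl h2
      rwa [tl_tl, tl_tl] at this
    · rintro rfl; rfl
  rw [if_congr e1 rfl rfl, if_congr e2 rfl rfl] at h1
  omega

/-- merging of two chains -/
theorem en_merge {L : List (Ch I)} {a b h : I × Fin 2} {W W' : List (I × Fin 2)}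
    (hL : ∀ k, en ((a, W, h) :: (tl h, W', b) :: L) k = en ((a, W, h) :: (tl h, W', b) :: L) (tl k)) :
    ∀ k, en ((a, W ++ h :: W', b) :: L) k = en ((a, W ++ h :: W', b) :: L) (tl k) := by
  classical
  intro k
  have h1 := hL k
  rw [en_cons, en_cons] at h1
  rw [en_cons]
  simp only [Finsupp.add_apply, Finsupp.single_apply] at h1 ⊢
  have e1 : (h = tl k) ↔ (tl h = k) := by
    constructor
    · rintro rfl; exact tl_tl k
    · rintro rfl; exact (tl_tl h).symm
  have e2 : (tl h = tl k) ↔ (h = k) := by
    constructor
    · intro h2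
      have := congrArg tl h2
      rwa [tl_tl, tl_tl] at this
    · rintro rfl; rfl
  rw [if_congr e1 rfl rfl, if_congr e2 rfl rfl] at h1
  omega

/-- **balanced products of open chains are leading forms** -/
theorem LF.chains (n : ℕ) : ∀ L : List (Ch I), L.length = n → (∀ k, en L k = en L (tl k)) →
    LF (L.map fun t => t.2.1.length + 1).sum (L.map vT).prod := by
  classical
  induction n with
  | zero =>
    intro L hL _
    rw [List.length_eq_zero_iff.1 hL]
    exact LF.one
  | succ n ih =>
    intro L hL hb
    obtain ⟨⟨a, W, h⟩, L, rfl⟩ : ∃ t L', L = t :: L' := by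
      cases L with
      | nil => simp at hL
      | cons t L' => exact ⟨t, L', rfl⟩
    have hL' : L.length = n := by
      rw [List.length_cons] at hL
      omega
    by_cases ha : a = tl h
    · subst ha
      rw [List.map_cons, List.map_cons, List.sum_cons, List.prod_cons]
      exact (LF.tr h W).mul (ih L hL' (balanced_of_cons hb))
    · -- another end equal to `tl h`
      have h1 : 0 < en L (tl h) := by
        have h2 := hb h
        rw [en_cons, Finsupp.add_apply, Finsupp.add_apply, Finsupp.add_apply, Finsupp.add_apply] at h2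
        simp only [Finsupp.single_apply, if_true] at h2
        rw [if_neg ha, if_neg (fun h3 : h = tl h => tl_ne h h3.symm)] at h2
        omega
      obtain ⟨t, ht, ht'⟩ := exists_end h1
      -- normalise the second chain
      obtain ⟨W', b, L'', hp, hv, hl⟩ : ∃ (W' : List (I × Fin 2)) (b : I × Fin 2) (L'' : List (Ch I)),
          (∀ k, en L k = en ((tl h, W', b) :: L'') k) ∧
          (L.map vT).prod = val (tl h) W' b * (L''.map vT).prod ∧
          (L.length = L''.length + 1 ∧ (L.map fun t => t.2.1.length + 1).sum =
            (W'.length + 1) + (L''.map fun t => t.2.1.length + 1).sum) := by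
        have hperm := List.perm_cons_erase ht
        have e1 : (L.map vT).prod = vT t * ((L.erase t).map vT).prod := by
          rw [(hperm.map vT).prod_eq, List.map_cons, List.prod_cons]
        have e2 : (L.map fun t => t.2.1.length + 1).sum = (t.2.1.length + 1) +
            ((L.erase t).map fun t => t.2.1.length + 1).sum := by
          rw [(hperm.map _).sum_eq, List.map_cons, List.sum_cons]
        have e3 : L.length = (L.erase t).length + 1 := by
          rw [hperm.length_eq, List.length_cons]
        have e4 := en_perm hperm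
        rcases ht' with h3 | h3
        · refine ⟨t.2.1, t.2.2, L.erase t, ?_, ?_, e3, e2⟩
          · intro k
            rw [e4, en_cons, en_cons, ← h3]
          · rw [e1, vT, h3]
        · refine ⟨inv t.2.1, t.1, L.erase t, ?_, ?_, e3, ?_⟩
          · intro k
            rw [e4, en_cons, en_cons, ← h3, add_comm (Finsupp.single t.1 1)]
          · rw [e1, vT, h3, ← val_inv]
          · rw [e2, length_inv]
      have h4 := ih ((a, W ++ h :: W', b) :: L'') (by rw [List.length_cons]; omega)
        (en_merge (by
          intro k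
          have h5 := hb k
          simp only [en_cons, Finsupp.add_apply, hp] at h5 ⊢
          exact h5))
      rw [List.map_cons, List.map_cons, List.sum_cons, List.prod_cons] at h4 ⊢
      rw [hl.2, hv]
      have h5 : vT (a, W, h) * (val (tl h) W' b * (L''.map vT).prod) =
          vT (a, W ++ h :: W', b) * (L''.map vT).prod := by
        rw [← mul_assoc]
        congr 1
        exact val_append a b h W W'
      rw [h5]
      have h6 : (a, W, h).2.1.length + 1 + (W'.length + 1 + (L''.map fun t => t.2.1.length + 1).sum) =
          (a, W ++ h :: W', b).2.1.length + 1 + (L''.map fun t => t.2.1.length + 1).sum := by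
        simp only [List.length_append, List.length_cons]
        omega
      rw [h6]
      exact h4

/-- balanced monomials in the brackets are leading forms -/
theorem LF.brm (L : List ((I × Fin 2) × (I × Fin 2))) (hL : ∀ k, dg L k = dg L (tl k)) :
    LF L.length (SuF.brm L) := by
  have h1 := LF.chains _ (L.map fun p => (p.1, ([] : List (I × Fin 2)), p.2)) rfl ?_
  · have e1 : ((L.map fun p => (p.1, ([] : List (I × Fin 2)), p.2)).map
        fun t => t.2.1.length + 1).sum = L.length := by
      rw [List.map_map]
      have : ((fun t : Ch I => t.2.1.length + 1) ∘ fun p : (I × Fin 2) × (I × Fin 2) =>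
          (p.1, ([] : List (I × Fin 2)), p.2)) = fun _ => 1 := by
        funext p
        rfl
      rw [this]
      simp
    have e2 : ((L.map fun p => (p.1, ([] : List (I × Fin 2)), p.2)).map vT).prod = SuF.brm L := by
      rw [List.map_map]
      rfl
    rw [e1, e2] at h1
    exact h1
  · have e3 : en (L.map fun p => (p.1, ([] : List (I × Fin 2)), p.2)) = dg L := by
      rw [en, dg, List.map_map]
      rfl
    rw [e3]
    exact hL

end

end Pool.Agent.SuF
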