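import Pool.Agent.Lib.MP_305fdd_al.Su.F.W2

/-!
# MP_305fdd_al, surface groups, block F: the kernel of the restriction to rank one
-/

set_option autoImplicit false
set_option linter.unusedSectionVars false

namespace Pool.Agent.SuF

open MvPolynomial

section

variable {I : Type} [Fintype I]

/-- `f` has degree less than `n` -/
def Fl : ℕ → AR I → Prop
  | 0, f => f = 0
  | n + 1, f => ∃ (f' : AR I) (F : PR I), Fl n f' ∧ F.IsHomogeneous n ∧ f = f' + amk F

theorem Fl.zero (n : ℕ) : Fl n (0 : AR I) := by
  induction n with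
  | zero => rfl
  | succ n ih => exact ⟨0, 0, ih, isHomogeneous_zero _ _ _, by rw [map_zero, add_zero]⟩

theorem Fl.add {n : ℕ} {f g : AR I} (hf : Fl n f) (hg : Fl n g) : Fl n (f + g) := by
  induction n generalizing f g with
  | zero =>
    have h1 : f = 0 := hf
    have h2 : g = 0 := hg
    rw [h1, h2, add_zero]
    rfl
  | succ n ih =>
    obtain ⟨f', F, h1, h2, h3⟩ := hf
    obtain ⟨g', G, h4, h5, h6⟩ := hg
    refine ⟨f' + g', F + G, ih h1 h4, h2.add h5, ?_⟩
    rw [h3, h6, map_add]
    ring

theorem Fl.succ {n : ℕ} {f : AR I} (hf : Fl n f) : Fl (n + 1) f :=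
  ⟨f, 0, hf, isHomogeneous_zero _ _ _, by rw [map_zero, add_zero]⟩

theorem Fl.le {n m : ℕ} (h : n ≤ m) {f : AR I} (hf : Fl n f) : Fl m f := by
  induction h with
  | refl => exact hf
  | step _ ih => exact ih.succ

theorem Fl.hom {n : ℕ} {F : PR I} (hF : F.IsHomogeneous n) : Fl (n + 1) (amk F) :=
  ⟨0, F, Fl.zero n, hF, by rw [zero_add]⟩

theorem Fl.sum {n : ℕ} {α : Type} (s : Finset α) (f : α → AR I) (h : ∀ a ∈ s, Fl n (f a)) :
    Fl n (∑ a ∈ s, f a) := by
  classical
  induction s using Finset.induction_on with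
  | empty => rw [Finset.sum_empty]; exact Fl.zero n
  | insert a s ha ih =>
    rw [Finset.sum_insert ha]
    exact (h a (Finset.mem_insert_self _ _)).add (ih fun b hb => h b (Finset.mem_insert_of_mem hb))

theorem exists_Fl (f : AR I) : ∃ n, Fl n f := by
  obtain ⟨F, rfl⟩ := amk_surj f
  have h : amk F = ∑ n ∈ Finset.range (F.totalDegree + 1), amk (homogeneousComponent n F) := by
    rw [← map_sum, sum_homogeneousComponent]
  refine ⟨F.totalDegree + 1, ?_⟩
  rw [h]
  refine Fl.sum _ _ fun n hn => ?_
  exact (Fl.hom (homogeneousComponent_isHomogeneous n F)).le (by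
    have := Finset.mem_range.1 hn
    omega)

/-- the exponent of the restriction to rank one -/
noncomputable def rr : ((I × Fin 2 × Fin 2) →₀ ℕ) →+ (((I × Fin 2) × Fin 2) →₀ ℕ) :=
  Finsupp.mapDomain.addMonoidHom f1 + Finsupp.mapDomain.addMonoidHom f2

theorem rr_single (s : I × Fin 2 × Fin 2) (n : ℕ) :
    rr (Finsupp.single s n) = Finsupp.single (f1 s) n + Finsupp.single (f2 s) n := by
  rw [rr, AddMonoidHom.add_apply, Finsupp.mapDomain.addMonoidHom_apply,
    Finsupp.mapDomain.addMonoidHom_apply, Finsupp.mapDomain_single, Finsupp.mapDomain_single]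

theorem rk_mono (e : (I × Fin 2 × Fin 2) →₀ ℕ) :
    rk (monomial e 1) = (monomial (rr e) 1 : VR (I × Fin 2)) := by
  induction e using Finsupp.induction_linear with
  | zero =>
    rw [map_zero]
    exact map_one _
  | add e e' h h' =>
    have h1 : ∀ {τ : Type} (e e' : τ →₀ ℕ), (monomial (e + e') (1 : ZMod 2)) =
        monomial e 1 * monomial e' 1 := by
      intro τ e e'
      rw [monomial_mul, one_mul]
    rw [h1, map_mul, h, h', map_add, h1]
  | single s n =>
    rw [rr_single]
    have h1 : (monomial (Finsupp.single s n) (1 : ZMod 2)) = X s ^ n := by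
      rw [X_pow_eq_monomial]
    have h2 : (monomial (Finsupp.single (f1 s) n + Finsupp.single (f2 s) n) (1 : ZMod 2)) =
        X (f1 s) ^ n * X (f2 s) ^ n := by
      rw [X_pow_eq_monomial, X_pow_eq_monomial, monomial_mul, one_mul]
    rw [h1, h2, map_pow, rk, aeval_X, mul_pow]

theorem rr_apply0 (e : (I × Fin 2 × Fin 2) →₀ ℕ) (i : I) (a : Fin 2) :
    rr e ((i, 0), a) = e (i, a, 0) + e (i, a, 1) := by
  classical
  induction e using Finsupp.induction_linear with
  | zero => simp
  | add e e' h h' =>
    rw [map_add, Finsupp.add_apply, h, h', Finsupp.add_apply, Finsupp.add_apply]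
    ring
  | single s n =>
    obtain ⟨j, b, c⟩ := s
    rw [rr_single, Finsupp.add_apply]
    simp only [Finsupp.single_apply, f1, f2, Prod.mk.injEq]
    fin_cases c <;> simp

theorem rr_apply1 (e : (I × Fin 2 × Fin 2) →₀ ℕ) (i : I) (c : Fin 2) :
    rr e ((i, 1), c) = e (i, 0, 1 - c) + e (i, 1, 1 - c) := by
  classical
  induction e using Finsupp.induction_linear with
  | zero => simp
  | add e e' h h' =>
    rw [map_add, Finsupp.add_apply, h, h', Finsupp.add_apply, Finsupp.add_apply]
    ring
  | single s n =>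
    obtain ⟨j, b, d⟩ := s
    rw [rr_single, Finsupp.add_apply]
    simp only [Finsupp.single_apply, f1, f2, Prod.mk.injEq]
    fin_cases b <;> fin_cases c <;> fin_cases d <;> simp

/-- standard exponents -/
def Std (e : (I × Fin 2 × Fin 2) →₀ ℕ) : Prop := ∀ i, e (i, 0, 1) = 0 ∨ e (i, 1, 0) = 0

theorem rr_inj {e e' : (I × Fin 2 × Fin 2) →₀ ℕ} (h : Std e) (h' : Std e') (hr : rr e = rr e') :
    e = e' := by
  have h0 : ∀ i a, e (i, a, 0) + e (i, a, 1) = e' (i, a, 0) + e' (i, a, 1) := by
    intro i a
    rw [← rr_apply0, ← rr_apply0, hr]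
  have h1 : ∀ i c, e (i, 0, 1 - c) + e (i, 1, 1 - c) = e' (i, 0, 1 - c) + e' (i, 1, 1 - c) := by
    intro i a
    rw [← rr_apply1, ← rr_apply1, hr]
  refine Finsupp.ext fun s => ?_
  obtain ⟨i, a, b⟩ := s
  have a0 := h0 i 0
  have a1 := h0 i 1
  have c0 := h1 i 0
  have c1 := h1 i 1
  simp only [sub_zero, sub_self] at c0 c1
  have s0 := h i
  have s1 := h' i
  fin_cases a <;> fin_cases b <;> simp only [Fin.zero_eta, Fin.mk_one] <;> omega

theorem char2_add {A : Type} [CommRing A] [Algebra (ZMod 2) A] {a b c : A} (h : a = b + c) :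
    a + b = c := by
  have h2 := two_zero A
  linear_combination h + b * h2

/-- every monomial is congruent to a standard one -/
theorem exists_std (N : ℕ) : ∀ e : (I × Fin 2 × Fin 2) →₀ ℕ, ∑ i, e (i, 0, 1) = N →
    ∃ e', Std e' ∧ e'.degree = e.degree ∧ rr e' = rr e ∧
      Fl e.degree (amk (monomial e 1) + amk (monomial e' 1)) := by
  classical
  induction N using Nat.strong_induction_on with
  | _ N ih =>
    intro e he
    by_cases hs : Std e
    · refine ⟨e, hs, rfl, rfl, ?_⟩
      rw [addSelf]
      exact Fl.zero _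
    · rw [Std] at hs
      push Not at hs
      obtain ⟨i, h1, h2⟩ := hs
      let e1 := e - Finsupp.single (i, 0, 1) 1 - Finsupp.single (i, 1, 0) 1
      have hle : Finsupp.single (i, (0 : Fin 2), (1 : Fin 2)) 1 + Finsupp.single (i, 1, 0) 1 ≤ e := by
        intro s
        rw [Finsupp.add_apply, Finsupp.single_apply, Finsupp.single_apply]
        by_cases hs1 : (i, (0 : Fin 2), (1 : Fin 2)) = s
        · subst hs1
          rw [if_pos rfl, if_neg (by simp)]
          omega
        · rw [if_neg hs1]
          by_cases hs2 : (i, (1 : Fin 2), (0 : Fin 2)) = s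
          · subst hs2
            rw [if_pos rfl]
            omega
          · rw [if_neg hs2]
            omega
      have he1 : e = e1 + (Finsupp.single (i, 0, 1) 1 + Finsupp.single (i, 1, 0) 1) := by
        change e = e - Finsupp.single (i, 0, 1) 1 - Finsupp.single (i, 1, 0) 1 + _
        rw [tsub_tsub, tsub_add_cancel_of_le hle]
      let e2 := e1 + (Finsupp.single (i, 0, 0) 1 + Finsupp.single (i, 1, 1) 1)
      have hd : e2.degree = e.degree := by
        rw [he1]
        simp only [e2, map_add, Finsupp.degree_single]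
      have hd1 : e.degree = e1.degree + 2 := by
        rw [he1]
        simp only [map_add, Finsupp.degree_single]
      have hr : rr e2 = rr e := by
        rw [he1]
        simp only [e2, map_add, rr_single, f1, f2, sub_zero, sub_self]
        abel
      have hN : ∑ j, e2 (j, 0, 1) < N := by
        rw [← he]
        refine Finset.sum_lt_sum (fun j _ => ?_) ⟨i, Finset.mem_univ _, ?_⟩
        · have h3 := DFunLike.congr_fun he1 (j, 0, 1)
          rw [h3]
          simp only [e2, Finsupp.add_apply, Finsupp.single_apply, Prod.mk.injEq]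
          simp
        · have h3 := DFunLike.congr_fun he1 (i, 0, 1)
          rw [h3]
          simp [e2]
      obtain ⟨e', h4, h5, h6, h7⟩ := ih _ hN e2 rfl
      refine ⟨e', h4, h5.trans hd, h6.trans hr, ?_⟩
      have h8 : amk (monomial e 1) = amk (monomial e2 1) + amk (monomial e1 (1 : ZMod 2)) := by
        have hm : ∀ s s' : I × Fin 2 × Fin 2,
            (monomial (e1 + (Finsupp.single s 1 + Finsupp.single s' 1)) (1 : ZMod 2)) =
            monomial e1 1 * (X s * X s') := by
          intro s s'
          rw [X, X, monomial_mul, monomial_mul, one_mul, one_mul]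
        have hdet : amk (gr i) = 0 := (amk_eq_zero _).2 (mem_idl gr i)
        rw [gr, Matrix.det_fin_two, map_add, map_sub, map_one] at hdet
        conv_lhs => rw [he1]
        change _ = amk (monomial (e1 + (Finsupp.single (i, 0, 0) 1 + Finsupp.single (i, 1, 1) 1)) 1)
          + _
        rw [hm, hm, map_mul, map_mul]
        have h2 := two_zero (AR I)
        simp only [gx, map_mul] at hdet
        rw [map_mul, map_mul]
        linear_combination - amk (monomial e1 1) * hdet
      have h9 : amk (monomial e 1) + amk (monomial e' (1 : ZMod 2)) =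
          (amk (monomial e2 1) + amk (monomial e' 1)) + amk (monomial e1 1) := by
        rw [h8]; ring
      rw [h9]
      refine (hd ▸ h7).add ?_
      have h10 := Fl.hom (isHomogeneous_monomial (1 : ZMod 2) (rfl : e1.degree = e1.degree))
      exact h10.le (by omega)

theorem rk_monomial (e : (I × Fin 2 × Fin 2) →₀ ℕ) (c : ZMod 2) :
    rk (monomial e c) = (monomial (rr e) c : VR (I × Fin 2)) := by
  rcases zmod2_cases c with rfl | rfl
  · rw [monomial_zero, monomial_zero, map_zero]
  · exact rk_mono e

theorem coeff_rk (F : PR I) (hF : ∀ e ∈ F.support, Std e) {e : (I × Fin 2 × Fin 2) →₀ ℕ}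
    (he : Std e) : coeff (rr e) (rk F : VR (I × Fin 2)) = coeff e F := by
  classical
  have h1 : (rk F : VR (I × Fin 2)) = ∑ e' ∈ F.support, monomial (rr e') (coeff e' F) := by
    conv_lhs => rw [F.as_sum]
    rw [map_sum]
    exact Finset.sum_congr rfl fun e' _ => rk_monomial _ _
  have h2 : ∑ e' ∈ F.support, coeff (rr e) (monomial (rr e') (coeff e' F) : VR (I × Fin 2)) =
      ∑ e' ∈ F.support, if e' = e then coeff e' F else 0 := by
    refine Finset.sum_congr rfl fun e' he' => ?_
    rw [coeff_monomial]
    refine if_congr ⟨fun h => rr_inj (hF _ he') he h, fun h => by rw [h]⟩ rfl rfl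
  rw [h1, coeff_sum, h2, Finset.sum_ite_eq']
  by_cases h : e ∈ F.support
  · rw [if_pos h]
  · rw [if_neg h, notMem_support_iff.1 h]

/-- the kernel of the restriction to rank one -/
theorem ker_rk {n : ℕ} {F : PR I} (hF : F.IsHomogeneous n) (h0 : (rk F : VR (I × Fin 2)) = 0) :
    Fl n (amk F) := by
  classical
  have hst : ∀ e : (I × Fin 2 × Fin 2) →₀ ℕ, ∃ e', Std e' ∧ e'.degree = e.degree ∧ rr e' = rr e ∧
      Fl e.degree (amk (monomial e 1) + amk (monomial e' 1)) := fun e => exists_std _ e rfl
  choose st h1 h2 h3 h4 using hst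
  have hF1 : F = ∑ e ∈ F.support, monomial e 1 := by
    conv_lhs => rw [F.as_sum]
    refine Finset.sum_congr rfl fun e he => ?_
    rcases zmod2_cases (coeff e F) with h | h
    · exact absurd h (mem_support_iff.1 he)
    · rw [h]
  have hF2 : amk F + amk (∑ e ∈ F.support, monomial (st e) 1) =
      ∑ e ∈ F.support, (amk (monomial e 1) + amk (monomial (st e) 1)) := by
    have h5 : amk F = ∑ e ∈ F.support, amk (monomial e 1) := by
      rw [← map_sum, ← hF1]
    rw [h5, map_sum, Finset.sum_add_distrib]
  have hdeg : ∀ e ∈ F.support, e.degree = n := by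
    intro e he
    by_contra h
    exact mem_support_iff.1 he (hF.coeff_eq_zero h)
  have hF3 : Fl n (amk F + amk (∑ e ∈ F.support, monomial (st e) 1)) := by
    rw [hF2]
    refine Fl.sum _ _ fun e he => ?_
    have := h4 e
    rwa [hdeg e he] at this
  have hr : (rk (∑ e ∈ F.support, monomial (st e) 1) : VR (I × Fin 2)) = 0 := by
    rw [← h0]
    conv_rhs => rw [hF1]
    rw [map_sum, map_sum]
    refine Finset.sum_congr rfl fun e _ => ?_
    rw [rk_mono, rk_mono, h3]
  have hz : (∑ e ∈ F.support, monomial (st e) 1 : PR I) = 0 := by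
    have hs : ∀ e' ∈ (∑ e ∈ F.support, monomial (st e) 1 : PR I).support, Std e' := by
      intro e' he'
      obtain ⟨e, _, h6⟩ := Finset.mem_biUnion.1 (support_sum he')
      rw [support_monomial] at h6
      split_ifs at h6 with h7
      · simp at h6
      · rw [Finset.mem_singleton.1 h6]
        exact h1 e
    ext e'
    by_cases h : e' ∈ (∑ e ∈ F.support, monomial (st e) 1 : PR I).support
    · rw [← coeff_rk _ hs (hs _ h), hr, coeff_zero, coeff_zero]
    · rw [notMem_support_iff.1 h, coeff_zero]
  rw [hz, map_zero, add_zero] at hF3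
  exact hF3

end

end Pool.Agent.SuF
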