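import Pool.Agent.Lib.MP_305fdd_al.Su.F.W3

/-!
# MP_305fdd_al, surface groups, block F: the leading form of an invariant is an invariant
-/

set_option autoImplicit false
set_option linter.unusedSectionVars false

namespace Pool.Agent.SuF

open MvPolynomial

section gen

/-- the ring of the generic point with a parameter -/
abbrev GR (J : Type) : Type := MvPolynomial (Option (J × Fin 2)) (ZMod 2)

/-- the generic vectors -/
noncomputable def gw (J : Type) (j : J) (a : Fin 2) : GR J := X (some (j, a))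

variable {J : Type}

theorem InvV.of_gen {f : VR J}
    (hD : vev (fun j => ![gw J j 0 + X none * gw J j 1, gw J j 1]) f = vev (gw J) f)
    (hE : vev (fun j => ![gw J j 0, gw J j 1 + X none * gw J j 0]) f = vev (gw J) f) : InvV f := by
  have spec : ∀ (S : Type) [CommRing S] [Algebra (ZMod 2) S] (v : J → Fin 2 → S) (s : S),
      ∃ φ : GR J →ₐ[ZMod 2] S, (∀ j a, φ (gw J j a) = v j a) ∧ φ (X none) = s := by
    intro S _ _ v s
    refine ⟨aeval fun o => o.elim s fun p => v p.1 p.2, fun j a => ?_, ?_⟩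
    · exact aeval_X _ _
    · exact aeval_X _ _
  constructor
  · intro S _ _ v s
    obtain ⟨φ, h3, h4⟩ := spec S v s
    have h5 := congrArg φ hD
    rw [vev_hom, vev_hom] at h5
    have h6 : (fun j a => φ ((![gw J j 0 + X none * gw J j 1, gw J j 1] : Fin 2 → GR J) a)) =
        fun j => ![v j 0 + s * v j 1, v j 1] := by
      funext j a
      fin_cases a
      · simp [h3, h4]
      · simp [h3]
    have h7 : (fun j a => φ (gw J j a)) = v := by
      funext j a
      exact h3 j a
    rw [h6, h7] at h5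
    exact h5
  · intro S _ _ v s
    obtain ⟨φ, h3, h4⟩ := spec S v s
    have h5 := congrArg φ hE
    rw [vev_hom, vev_hom] at h5
    have h6 : (fun j a => φ ((![gw J j 0, gw J j 1 + X none * gw J j 0] : Fin 2 → GR J) a)) =
        fun j => ![v j 0, v j 1 + s * v j 0] := by
      funext j a
      fin_cases a
      · simp [h3]
      · simp [h3, h4]
    have h7 : (fun j a => φ (gw J j a)) = v := by
      funext j a
      exact h3 j a
    rw [h6, h7] at h5
    exact h5

end gen

section lead

variable {I : Type} [Fintype I]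

theorem pev_smul {S : Type} [CommRing S] [Algebra (ZMod 2) S] (c : S)
    (x : I → Matrix (Fin 2) (Fin 2) S) {n : ℕ} {F : PR I} (hF : F.IsHomogeneous n) :
    pev (fun i => c • x i) F = c ^ n * pev x F := by
  have h1 : ∀ y : I → Matrix (Fin 2) (Fin 2) S,
      pev y F = ∑ e ∈ F.support, pev y (monomial e (coeff e F)) := by
    intro y
    conv_lhs => rw [F.as_sum]
    rw [map_sum]
  rw [h1, h1, Finset.mul_sum]
  refine Finset.sum_congr rfl fun e he => ?_
  have hd : e.degree = n := by
    by_contra h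
    exact mem_support_iff.1 he (hF.coeff_eq_zero h)
  rw [pev, pev, aeval_monomial, aeval_monomial, mul_left_comm]
  congr 1
  rw [← hd, Finsupp.degree_apply, ← Finset.prod_pow_eq_pow_sum, Finsupp.prod, Finsupp.prod,
    ← Finset.prod_mul_distrib]
  refine Finset.prod_congr rfl fun s _ => ?_
  rw [Matrix.smul_apply, smul_eq_mul, mul_pow]

theorem pev_rk {S : Type} [CommRing S] [Algebra (ZMod 2) S] (x : I → Matrix (Fin 2) (Fin 2) S)
    (v : I × Fin 2 → Fin 2 → S) (h : ∀ i a b, x i a b = v (i, 0) a * v (i, 1) (1 - b))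
    (F : PR I) : pev x F = vev v (rk F) := by
  have h1 : (pev x : PR I →ₐ[ZMod 2] S) = (vev v).comp rk := by
    refine MvPolynomial.algHom_ext fun s => ?_
    obtain ⟨i, a, b⟩ := s
    rw [pev_X, AlgHom.comp_apply, rk_X, map_mul, vev_X, vev_X, h]
  exact AlgHom.congr_fun h1 F

variable {R L : Type} [CommRing R] [Algebra (ZMod 2) R] [CommRing L] [Algebra (ZMod 2) L]

theorem ev_hom_pow (ι : Polynomial R →+* L) (y : I → Matrix.SpecialLinearGroup (Fin 2) L)
    (M : I → Matrix (Fin 2) (Fin 2) (Polynomial R))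
    (h : ∀ i, ι Polynomial.X • (y i).1 = (M i).map ι) {n : ℕ} {F : PR I} (hF : F.IsHomogeneous n) :
    ι Polynomial.X ^ n * ev y (amk F) = ι (pev M F) := by
  rw [ev_mk, ← pev_smul _ _ hF, pev_comp]
  congr 2
  funext i
  exact h i

theorem Fl.ev_pow (ι : Polynomial R →+* L) (y : I → Matrix.SpecialLinearGroup (Fin 2) L)
    (M : I → Matrix (Fin 2) (Fin 2) (Polynomial R))
    (h : ∀ i, ι Polynomial.X • (y i).1 = (M i).map ι) (n : ℕ) : ∀ f : AR I, Fl n f →
    ∃ p : Polynomial R, ι Polynomial.X ^ n * ev y f = ι (Polynomial.X * p) := by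
  induction n with
  | zero =>
    intro f hf
    have hf0 : f = 0 := hf
    exact ⟨0, by rw [hf0, map_zero, mul_zero, mul_zero, map_zero]⟩
  | succ n ih =>
    intro f hf
    obtain ⟨f', F, h1, h2, h3⟩ := hf
    obtain ⟨p, hp⟩ := ih f' h1
    refine ⟨Polynomial.X * p + pev M F, ?_⟩
    have h4 := ev_hom_pow ι y M h h2
    rw [h3, map_add, map_mul ι, map_add ι, ← hp, ← h4]
    ring

theorem lead_eq (ι : Polynomial R →+* L) (hι : Function.Injective ι)
    (y y' : I → Matrix.SpecialLinearGroup (Fin 2) L)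
    (M M' : I → Matrix (Fin 2) (Fin 2) (Polynomial R))
    (h : ∀ i, ι Polynomial.X • (y i).1 = (M i).map ι)
    (h' : ∀ i, ι Polynomial.X • (y' i).1 = (M' i).map ι) {n : ℕ} {f' : AR I} {F : PR I}
    (hf : Fl n f') (hF : F.IsHomogeneous n) (he : ev y (f' + amk F) = ev y' (f' + amk F)) :
    pev (fun i => (M i).map Polynomial.constantCoeff) F =
      pev (fun i => (M' i).map Polynomial.constantCoeff) F := by
  obtain ⟨p, hp⟩ := hf.ev_pow ι y M h
  obtain ⟨p', hp'⟩ := hf.ev_pow ι y' M' h'
  have h1 := ev_hom_pow ι y M h hF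
  have h2 := ev_hom_pow ι y' M' h' hF
  have h3 : ι (Polynomial.X * p + pev M F) = ι (Polynomial.X * p' + pev M' F) := by
    rw [map_add ι, map_add ι, ← hp, ← hp', ← h1, ← h2, ← mul_add, ← mul_add, ← map_add, ← map_add, he]
  have h4 := congrArg Polynomial.constantCoeff (hι h3)
  have h5 : ∀ q r : Polynomial R, Polynomial.constantCoeff (Polynomial.X * q + r) =
      Polynomial.constantCoeff r := by
    intro q r
    rw [map_add, map_mul, Polynomial.constantCoeff_apply, Polynomial.coeff_X_zero, zero_mul,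
      zero_add]
  rw [h5, h5, pev_comp, pev_comp] at h4
  exact h4

theorem conj12 (s : R) (M : Matrix (Fin 2) (Fin 2) (Polynomial R)) (u v : Fin 2 → R)
    (h : ∀ a b, M.map Polynomial.constantCoeff a b = u a * v (1 - b)) (a b : Fin 2) :
    ((e12 (Polynomial.C s)).1 * M * (e12 (Polynomial.C s))⁻¹.1).map Polynomial.constantCoeff a b =
      (![u 0 + s * u 1, u 1] : Fin 2 → R) a * (![v 0 + s * v 1, v 1] : Fin 2 → R) (1 - b) := by
  have h1 : (e12 (Polynomial.C s)).1.map Polynomial.constantCoeff =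
      (!![1, s; 0, 1] : Matrix (Fin 2) (Fin 2) R) := by
    ext a b
    fin_cases a <;> fin_cases b <;> simp [e12]
  rw [e12_inv, Matrix.map_mul, Matrix.map_mul, h1, Matrix.mul_apply, Fin.sum_univ_two,
    Matrix.mul_apply, Fin.sum_univ_two, Matrix.mul_apply, Fin.sum_univ_two, h, h, h, h]
  fin_cases a <;> fin_cases b <;> simp <;> ring

theorem conj21 (s : R) (M : Matrix (Fin 2) (Fin 2) (Polynomial R)) (u v : Fin 2 → R)
    (h : ∀ a b, M.map Polynomial.constantCoeff a b = u a * v (1 - b)) (a b : Fin 2) :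
    ((e21 (Polynomial.C s)).1 * M * (e21 (Polynomial.C s))⁻¹.1).map Polynomial.constantCoeff a b =
      (![u 0, u 1 + s * u 0] : Fin 2 → R) a * (![v 0, v 1 + s * v 0] : Fin 2 → R) (1 - b) := by
  have h1 : (e21 (Polynomial.C s)).1.map Polynomial.constantCoeff =
      (!![1, 0; s, 1] : Matrix (Fin 2) (Fin 2) R) := by
    ext a b
    fin_cases a <;> fin_cases b <;> simp [e21]
  rw [e21_inv, Matrix.map_mul, Matrix.map_mul, h1, Matrix.mul_apply, Fin.sum_univ_two,
    Matrix.mul_apply, Fin.sum_univ_two, Matrix.mul_apply, Fin.sum_univ_two, h, h, h, h]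
  fin_cases a <;> fin_cases b <;> simp <;> ring

/-- **the leading form of an invariant is an invariant** -/
theorem lead_inv {n : ℕ} {f' : AR I} {F : PR I} (hf : Fl n f') (hF : F.IsHomogeneous n)
    (hi : IsInv (f' + amk F)) : InvV (rk F : VR (I × Fin 2)) := by
  let K := FractionRing (GR (I × Fin 2))
  let κ : GR (I × Fin 2) →ₐ[ZMod 2] K := IsScalarTower.toAlgHom (ZMod 2) (GR (I × Fin 2)) K
  have hκ : Function.Injective κ := IsFractionRing.injective (GR (I × Fin 2)) K
  let L := FractionRing (Polynomial K)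
  let ι : Polynomial K →+* L := algebraMap (Polynomial K) L
  have hι : Function.Injective ι := IsFractionRing.injective (Polynomial K) L
  let w : I × Fin 2 → Fin 2 → K := fun j a => κ (gw (I × Fin 2) j a)
  have hw : ∀ j a, w j a ≠ 0 := by
    intro j a h
    exact X_ne_zero (R := ZMod 2) (some (j, a)) (hκ (h.trans (map_zero _).symm))
  let M : I → Matrix (Fin 2) (Fin 2) (Polynomial K) := fun i =>
    !![Polynomial.C (w (i, 0) 0 * w (i, 1) 1), Polynomial.C (w (i, 0) 0 * w (i, 1) 0);
      Polynomial.C (w (i, 0) 1 * w (i, 1) 1) + Polynomial.C (w (i, 0) 0 * w (i, 1) 0)⁻¹ *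
        Polynomial.X ^ 2, Polynomial.C (w (i, 0) 1 * w (i, 1) 0)]
  have hM : ∀ i, (M i).det = Polynomial.X ^ 2 := by
    intro i
    have h2 := two_zero (Polynomial K)
    have h3 : Polynomial.C (w (i, 0) 0 * w (i, 1) 0) * Polynomial.C (w (i, 0) 0 * w (i, 1) 0)⁻¹ =
        (1 : Polynomial K) := by
      rw [← Polynomial.C_mul, mul_inv_cancel₀ (mul_ne_zero (hw _ _) (hw _ _)), Polynomial.C_1]
    have h4 : Polynomial.C (w (i, 0) 0 * w (i, 1) 1) * Polynomial.C (w (i, 0) 1 * w (i, 1) 0) =
        Polynomial.C (w (i, 0) 0 * w (i, 1) 0) * Polynomial.C (w (i, 0) 1 * w (i, 1) 1) := by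
      rw [← Polynomial.C_mul, ← Polynomial.C_mul]
      congr 1
      ring
    rw [Matrix.det_fin_two_of]
    linear_combination h4 - Polynomial.X ^ 2 * h3 - Polynomial.X ^ 2 * h2
  have hX : ι Polynomial.X ≠ 0 := by
    intro h
    exact Polynomial.X_ne_zero (hι (h.trans (map_zero _).symm))
  let y : I → Matrix.SpecialLinearGroup (Fin 2) L := fun i =>
    ⟨(ι Polynomial.X)⁻¹ • (M i).map ι, by
      have h1 : ((M i).map ι).det = ι Polynomial.X ^ 2 := by
        rw [← map_pow, ← hM i]
        exact (RingHom.map_det ι (M i)).symm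
      rw [Matrix.det_smul, h1, Fintype.card_fin, ← mul_pow, inv_mul_cancel₀ hX, one_pow]⟩
  have hy : ∀ i, ι Polynomial.X • (y i).1 = (M i).map ι := by
    intro i
    change ι Polynomial.X • ((ι Polynomial.X)⁻¹ • (M i).map ι) = _
    rw [smul_smul, mul_inv_cancel₀ hX, one_smul]
  -- conjugation by a matrix
  have key : ∀ (g : Matrix.SpecialLinearGroup (Fin 2) (Polynomial K)),
      ev (fun i => Matrix.SpecialLinearGroup.map ι g * y i * (Matrix.SpecialLinearGroup.map ι g)⁻¹)
        (f' + amk F) = ev y (f' + amk F) →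
      pev (fun i => (g.1 * M i * g⁻¹.1).map Polynomial.constantCoeff) F =
        pev (fun i => (M i).map Polynomial.constantCoeff) F := by
    intro g hg
    refine lead_eq ι hι _ y (fun i => g.1 * M i * g⁻¹.1) M ?_ hy hf hF hg
    intro i
    have h1 : (Matrix.SpecialLinearGroup.map ι g * y i * (Matrix.SpecialLinearGroup.map ι g)⁻¹).1 =
        g.1.map ι * (y i).1 * (g⁻¹.1).map ι := by
      rw [← map_inv]
      rfl
    have h2 : (g.1 * M i * g⁻¹.1).map ι = g.1.map ι * (ι Polynomial.X • (y i).1) *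
        (g⁻¹.1).map ι := by
      rw [hy i, Matrix.map_mul, Matrix.map_mul]
    rw [h1, h2]
    generalize (y i).1 = z
    rw [Matrix.mul_smul, Matrix.smul_mul]
  have hA : ∀ i a b, (M i).map Polynomial.constantCoeff a b = w (i, 0) a * w (i, 1) (1 - b) := by
    intro i a b
    fin_cases a <;> fin_cases b <;> simp [M]
  -- back to the generic ring
  have hv : ∀ v : I × Fin 2 → Fin 2 → GR (I × Fin 2), vev (fun j a => κ (v j a)) (rk F) =
      κ (vev v (rk F : VR (I × Fin 2))) := fun v => (vev_hom v κ _).symm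
  have hgen : pev (fun i => (M i).map Polynomial.constantCoeff) F =
      κ (vev (gw (I × Fin 2)) (rk F : VR (I × Fin 2))) := by
    rw [← hv]
    exact pev_rk _ _ hA F
  refine InvV.of_gen (hκ ?_) (hκ ?_)
  · rw [← hgen, ← key (e12 (Polynomial.C (κ (X none)))), ← hv]
    · refine (pev_rk _ _ (fun i a b => ?_) F).symm
      rw [conj12 _ _ _ _ (hA i)]
      have h1 : ∀ j a, κ ((![gw (I × Fin 2) j 0 + X none * gw (I × Fin 2) j 1,
          gw (I × Fin 2) j 1] : Fin 2 → GR (I × Fin 2)) a) =
          (![w j 0 + κ (X none) * w j 1, w j 1] : Fin 2 → K) a := by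
        intro j a
        fin_cases a
        · exact (map_add κ _ _).trans (congrArg (w j 0 + ·) (map_mul κ _ _))
        · rfl
      rw [h1, h1]
    · rw [map_e12]
      exact hi.D _ _ _
  · rw [← hgen, ← key (e21 (Polynomial.C (κ (X none)))), ← hv]
    · refine (pev_rk _ _ (fun i a b => ?_) F).symm
      rw [conj21 _ _ _ _ (hA i)]
      have h1 : ∀ j a, κ ((![gw (I × Fin 2) j 0, gw (I × Fin 2) j 1 + X none *
          gw (I × Fin 2) j 0] : Fin 2 → GR (I × Fin 2)) a) =
          (![w j 0, w j 1 + κ (X none) * w j 0] : Fin 2 → K) a := by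
        intro j a
        fin_cases a
        · rfl
        · exact (map_add κ _ _).trans (congrArg (w j 1 + ·) (map_mul κ _ _))
      rw [h1, h1]
    · have h1 : Matrix.SpecialLinearGroup.map ι (e21 (Polynomial.C (κ (X none)))) =
          e21 (ι (Polynomial.C (κ (X none)))) := by
        rw [e21_eq, map_mul, map_mul, map_inv, map_om, map_e12, ← e21_eq]
      rw [h1]
      exact hi.E _ _

end lead

end Pool.Agent.SuF
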