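import Pool.Agent.Lib.MP_305fdd_al.Su.F.W4

/-!
# MP_305fdd_al, surface groups, block F: the first fundamental theorem for matrices

Every function on `SL_2 ^ I` over `F_2` which is invariant under the simultaneous conjugation is a
polynomial in the traces of words.
-/

set_option autoImplicit false
set_option linter.unusedSectionVars false

namespace Pool.Agent.SuF

open MvPolynomial

section comp

variable {σ τ M : Type} [AddCommMonoid M]

theorem hom_monomial (w : σ → M) (w' : τ → M)
    (φ : MvPolynomial σ (ZMod 2) →ₐ[ZMod 2] MvPolynomial τ (ZMod 2))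
    (h : ∀ s, IsWeightedHomogeneous w' (φ (X s)) (w s)) (e : σ →₀ ℕ) :
    IsWeightedHomogeneous w' (φ (monomial e 1)) (Finsupp.weight w e) := by
  induction e using Finsupp.induction_linear with
  | zero =>
    rw [map_zero]
    have h1 : φ (monomial 0 1) = 1 := map_one φ
    rw [h1]
    exact isWeightedHomogeneous_one _ _
  | add e e' h1 h2 =>
    have h3 : (monomial (e + e') (1 : ZMod 2)) = monomial e 1 * monomial e' 1 := by
      rw [monomial_mul, one_mul]
    rw [h3, map_mul, map_add]
    exact h1.mul h2
  | single s n =>
    have h1 : (monomial (Finsupp.single s n) (1 : ZMod 2)) = X s ^ n := by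
      rw [X_pow_eq_monomial]
    rw [h1, map_pow, Finsupp.weight_single]
    exact (h s).pow n

open Classical in
theorem comp_hom (w : σ → M) (w' : τ → M)
    (φ : MvPolynomial σ (ZMod 2) →ₐ[ZMod 2] MvPolynomial τ (ZMod 2))
    (h : ∀ s, IsWeightedHomogeneous w' (φ (X s)) (w s)) (d : M) (f : MvPolynomial σ (ZMod 2)) :
    weightedHomogeneousComponent w' d (φ f) = φ (weightedHomogeneousComponent w d f) := by
  induction f using MvPolynomial.induction_on' with
  | monomial e r =>
    rcases zmod2_cases r with rfl | rfl
    · rw [monomial_zero, map_zero, map_zero, map_zero, map_zero]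
    · have h1 := hom_monomial w w' φ h e
      have h2 : IsWeightedHomogeneous w (monomial e (1 : ZMod 2)) (Finsupp.weight w e) :=
        isWeightedHomogeneous_monomial _ _ _ rfl
      by_cases hd : Finsupp.weight w e = d
      · subst hd
        rw [weightedHomogeneousComponent_eq_self h1, weightedHomogeneousComponent_eq_self h2]
      · rw [IsWeightedHomogeneous.weightedHomogeneousComponent_ne _ h1 (fun h3 => hd h3.symm),
          IsWeightedHomogeneous.weightedHomogeneousComponent_ne _ h2 (fun h3 => hd h3.symm),
          map_zero]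
  | add f g h1 h2 => rw [map_add, map_add, map_add, map_add, h1, h2]

end comp

section comp2

variable {J : Type}

/-- the multidegree on the ring of the generic point -/
noncomputable def wG (J : Type) (o : Option (J × Fin 2)) : J →₀ ℕ := o.elim 0 (wt J)

open Classical in
/-- the multihomogeneous components of an invariant are invariants -/
theorem InvV.comp {f : VR J} (hf : InvV f) (d : J →₀ ℕ) :
    InvV (weightedHomogeneousComponent (wt J) d f) := by
  have hX : ∀ j a, IsWeightedHomogeneous (wG J) (gw J j a) (Finsupp.single j 1) := fun j a =>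
    isWeightedHomogeneous_X _ _ _
  have hN : ∀ j a, IsWeightedHomogeneous (wG J) (X none * gw J j a) (Finsupp.single j 1) := by
    intro j a
    have h1 : IsWeightedHomogeneous (wG J) (X none : GR J) 0 := isWeightedHomogeneous_X _ _ _
    have h2 := h1.mul (hX j a)
    rwa [zero_add] at h2
  have key : ∀ v : J → Fin 2 → GR J,
      (∀ j a, IsWeightedHomogeneous (wG J) (v j a) (Finsupp.single j 1)) →
      weightedHomogeneousComponent (wG J) d (vev v f) =
        vev v (weightedHomogeneousComponent (wt J) d f) := by
    intro v hv
    refine comp_hom (wt J) (wG J) (vev v) (fun s => ?_) d f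
    obtain ⟨j, a⟩ := s
    rw [vev_X]
    exact hv j a
  refine InvV.of_gen ?_ ?_
  · rw [← key _ hX, ← key, hf.D]
    intro j a
    fin_cases a
    · exact (hX j 0).add (hN j 1)
    · exact hX j 1
  · rw [← key _ hX, ← key, hf.E]
    intro j a
    fin_cases a
    · exact hX j 0
    · exact (hX j 1).add (hN j 0)

theorem dg_degree (L : List (J × J)) : (dg L).degree = 2 * L.length := by
  induction L with
  | nil => simp [dg]
  | cons p L ih =>
    rw [dg_cons, map_add, map_add, ih, Finsupp.degree_single, Finsupp.degree_single,
      List.length_cons]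
    ring

theorem weight_degree (e : (J × Fin 2) →₀ ℕ) : (Finsupp.weight (wt J) e).degree = e.degree := by
  induction e using Finsupp.induction_linear with
  | zero => simp
  | add e e' h1 h2 => rw [map_add, map_add, h1, h2, map_add]
  | single s n =>
    rw [Finsupp.weight_single, wt, map_nsmul, Finsupp.degree_single, Finsupp.degree_single,
      smul_eq_mul, mul_one]

theorem weight_apply [Fintype J] [DecidableEq J] (e : (J × Fin 2) →₀ ℕ) (j : J) :
    Finsupp.weight (wt J) e j = e (j, 0) + e (j, 1) := by
  induction e using Finsupp.induction_linear with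
  | zero => simp
  | add e e' h1 h2 =>
    rw [map_add, Finsupp.add_apply, h1, h2, Finsupp.add_apply, Finsupp.add_apply]
    ring
  | single s n =>
    obtain ⟨k, a⟩ := s
    rw [Finsupp.weight_single, wt]
    simp only [Finsupp.smul_apply, Finsupp.single_apply, Prod.mk.injEq]
    fin_cases a <;> simp

end comp2

section main

variable {I : Type} [Fintype I]

theorem rr_degree (e : (I × Fin 2 × Fin 2) →₀ ℕ) : (rr e).degree = 2 * e.degree := by
  induction e using Finsupp.induction_linear with
  | zero => simp
  | add e e' h1 h2 => rw [map_add, map_add, h1, h2, map_add]; ring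
  | single s n =>
    rw [rr_single, map_add, Finsupp.degree_single, Finsupp.degree_single, Finsupp.degree_single]
    ring

theorem rr_balanced (e : (I × Fin 2 × Fin 2) →₀ ℕ) (k : I × Fin 2) :
    Finsupp.weight (wt (I × Fin 2)) (rr e) k = Finsupp.weight (wt (I × Fin 2)) (rr e) (tl k) := by
  classical
  obtain ⟨i, a⟩ := k
  rw [weight_apply, weight_apply, tl]
  fin_cases a
  · simp only [Fin.zero_eta, sub_zero]
    rw [rr_apply0, rr_apply0, rr_apply1, rr_apply1]
    simp only [sub_zero, sub_self]
    ring
  · simp only [Fin.mk_one, sub_self]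
    rw [rr_apply0, rr_apply0, rr_apply1, rr_apply1]
    simp only [sub_zero, sub_self]
    ring

theorem LF.smul {k : ℕ} {h : VR (I × Fin 2)} (c : ZMod 2) (H : LF k h) : LF k (c • h) := by
  rcases zmod2_cases c with rfl | rfl
  · rw [zero_smul]; exact LF.zero k
  · rw [one_smul]; exact H

theorem LF.of_BS {d : (I × Fin 2) →₀ ℕ} {n : ℕ} (hd : d.degree = 2 * n)
    (hb : ∀ k, d k = d (tl k)) {h : VR (I × Fin 2)} (hh : h ∈ BS d) : LF n h := by
  refine Submodule.span_induction (p := fun h _ => LF n h) ?_ ?_ ?_ ?_ hh
  · rintro _ ⟨L, rfl, rfl⟩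
    have h1 : L.length = n := by
      rw [dg_degree] at hd
      omega
    rw [← h1]
    exact LF.brm L hb
  · exact LF.zero n
  · intro f g _ _ hf hg
    exact hf.add hg
  · intro c f _ hf
    exact hf.smul c

/-- an invariant restriction to rank one is the leading form of a polynomial in the traces -/
theorem LF.of_inv {n : ℕ} {F : PR I} (hF : F.IsHomogeneous n)
    (hi : InvV (rk F : VR (I × Fin 2))) : LF n (rk F : VR (I × Fin 2)) := by
  classical
  rw [← sum_weightedHomogeneousComponent (wt (I × Fin 2)) (rk F)]
  refine finsum_induction (LF n) (LF.zero n) (fun _ _ h1 h2 => h1.add h2) fun d => ?_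
  by_cases h0 : weightedHomogeneousComponent (wt (I × Fin 2)) d (rk F) = 0
  · rw [h0]
    exact LF.zero n
  · obtain ⟨e, he⟩ := MvPolynomial.ne_zero_iff.1 h0
    rw [coeff_weightedHomogeneousComponent] at he
    split_ifs at he with hd
    · -- `e = rr e'`
      have h1 : (rk F : VR (I × Fin 2)) = ∑ e' ∈ F.support, monomial (rr e') (coeff e' F) := by
        conv_lhs => rw [F.as_sum]
        rw [map_sum]
        exact Finset.sum_congr rfl fun e' _ => rk_monomial _ _
      obtain ⟨e', he', h2⟩ : ∃ e' ∈ F.support, rr e' = e := by
        by_contra hcon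
        push Not at hcon
        apply he
        rw [h1, coeff_sum]
        refine Finset.sum_eq_zero fun e' he' => ?_
        rw [coeff_monomial, if_neg (hcon e' he')]
      have h3 : e'.degree = n := by
        by_contra h
        exact mem_support_iff.1 he' (hF.coeff_eq_zero h)
      subst h2
      have h4 : d.degree = 2 * n := by
        rw [← hd, weight_degree, rr_degree, h3]
      refine LF.of_BS h4 (fun k => ?_) (fft_vec (I × Fin 2) d _
        (weightedHomogeneousComponent_mem (wt (I × Fin 2)) (rk F) d) (hi.comp d))
      rw [← hd]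
      exact rr_balanced e' k
    · exact absurd rfl he

theorem isInv_of_mem_TA {f : AR I} (hf : f ∈ TA I) : IsInv f := by
  refine Algebra.adjoin_induction (p := fun f _ => IsInv f) ?_ ?_ ?_ ?_ hf
  · rintro _ ⟨w, rfl⟩
    exact isInv_rT w
  · intro r
    rcases zmod2_cases r with rfl | rfl
    · rw [map_zero]; exact IsInv.zero
    · rw [map_one]; exact IsInv.one
  · intro f g _ _ hf hg
    exact hf.add hg
  · intro f g _ _ hf hg
    exact hf.mul hg

theorem fft_aux (n : ℕ) : ∀ f : AR I, Fl n f → IsInv f → f ∈ TA I := by
  induction n with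
  | zero =>
    intro f hf _
    have hf0 : f = 0 := hf
    rw [hf0]
    exact zero_mem _
  | succ n ih =>
    intro f hf hi
    obtain ⟨f', F, h1, h2, rfl⟩ := hf
    obtain ⟨G, h3, h4, h5⟩ := LF.of_inv h2 (lead_inv h1 h2 hi)
    have h6 : Fl n (amk (F + G)) := by
      refine ker_rk (h2.add h3) ?_
      rw [map_add, h4, addSelf]
    have h7 : f' + amk F + amk G = f' + amk (F + G) := by
      rw [map_add, add_assoc]
    have h8 : f' + amk F + amk G ∈ TA I := by
      refine ih _ ?_ (hi.add (isInv_of_mem_TA h5))
      rw [h7]
      exact h1.add h6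
    have h9 : f' + amk F = (f' + amk F + amk G) + amk G := by
      rw [add_assoc _ (amk G), addSelf, add_zero]
    rw [h9]
    exact add_mem h8 h5

/-- **The first fundamental theorem**: every invariant is a polynomial in the traces. -/
theorem fft {f : AR I} (hf : IsInv f) : f ∈ Algebra.adjoin (ZMod 2) (Set.range (rT : FreeGroup I → AR I)) := by
  obtain ⟨n, hn⟩ := exists_Fl f
  exact fft_aux n f hn hf

theorem isInv_iff {f : AR I} :
    IsInv f ↔ f ∈ Algebra.adjoin (ZMod 2) (Set.range (rT : FreeGroup I → AR I)) :=
  ⟨fft, isInv_of_mem_TA⟩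

end main

end Pool.Agent.SuF
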